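import Mathlib

/-! # Module EFin (M): the finite entropy inequality (Fano)

PROOF. `P_g i = ∑_k pg k i`, `P_b i = ∑_k pb k i`, `p i = P_g i + P_b i`, `∑ p i = 1`, `∑ P_b i = β`.
(1) `negMulLog (x + y) ≤ negMulLog x + negMulLog y` for `x, y ≥ 0`. So
`∑_{k,i} negMulLog (pg k i + pb k i) ≤ ∑ negMulLog (pg k i) + ∑ negMulLog (pb k i)`. (2) For fixed `i` at most one
`pg k i ≠ 0`, so `∑_k negMulLog (pg k i) = negMulLog (P_g i)`. (3) For fixed `i`:
`∑_k negMulLog (pb k i) ≤ negMulLog (P_b i) + P_b i log b` (concavity of `negMulLog`: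
`(1/b) ∑_k negMulLog (pb k i) ≤ negMulLog (P_b i / b)`). (4) For fixed `i` with `p i > 0`, `r = P_b i / p i`:
`negMulLog (P_g i) + negMulLog (P_b i) - negMulLog (p i) = p i * binEntropy r` (for `p i = 0` all terms vanish).
(5) Jensen (`Real.strictConcave_binEntropy`-type lemma, concave on `[0, 1]`):
`∑ p i * binEntropy (P_b i / p i) ≤ binEntropy (∑ P_b i) = binEntropy β`. Sum up. -/

set_option autoImplicit false

namespace Pool.Agent.Work.MP_67388f_an.OG

open MeasureTheory Filter Topology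
open scoped NNReal

private theorem ef_sub {x y : ℝ} (hx : 0 ≤ x) (hy : 0 ≤ y) :
    Real.negMulLog (x + y) ≤ Real.negMulLog x + Real.negMulLog y := by
  rcases hx.eq_or_lt with h | h
  · rw [← h]
    simp
  rcases hy.eq_or_lt with h' | h'
  · rw [← h']
    simp
  unfold Real.negMulLog
  have h1 : Real.log x ≤ Real.log (x + y) := Real.log_le_log h (by linarith)
  have h2 : Real.log y ≤ Real.log (x + y) := Real.log_le_log h' (by linarith)
  nlinarith

private theorem ef_one (b : ℕ) (f : ℕ → ℝ)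
    (hu : ∀ k ∈ Finset.range b, ∀ k' ∈ Finset.range b, f k ≠ 0 → f k' ≠ 0 → k = k') :
    ∑ k ∈ Finset.range b, Real.negMulLog (f k) =
      Real.negMulLog (∑ k ∈ Finset.range b, f k) := by
  by_cases h : ∀ k ∈ Finset.range b, f k = 0
  · rw [Finset.sum_eq_zero h, Real.negMulLog_zero]
    refine Finset.sum_eq_zero fun k hk => ?_
    rw [h k hk, Real.negMulLog_zero]
  · push Not at h
    obtain ⟨k0, hk0, hne⟩ := h
    have h1 : ∀ k ∈ Finset.range b, k ≠ k0 → f k = 0 := by
      intro k hk hkk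
      by_contra hc
      exact hkk (hu k hk k0 hk0 hc hne)
    rw [Finset.sum_eq_single k0 h1 (fun h => absurd hk0 h),
      Finset.sum_eq_single k0 (fun k hk hkk => by rw [h1 k hk hkk, Real.negMulLog_zero])
        (fun h => absurd hk0 h)]

private theorem ef_jen (b : ℕ) (hb : 1 ≤ b) (f : ℕ → ℝ) (hf : ∀ k, 0 ≤ f k) :
    ∑ k ∈ Finset.range b, Real.negMulLog (f k) ≤
      Real.negMulLog (∑ k ∈ Finset.range b, f k) +
        (∑ k ∈ Finset.range b, f k) * Real.log b := by
  have hb0 : (0 : ℝ) < b := by exact_mod_cast hb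
  have h1 := Real.concaveOn_negMulLog.le_map_sum (t := Finset.range b)
    (w := fun _ => (1 / b : ℝ)) (p := f) (fun _ _ => by positivity)
    (by rw [Finset.sum_const, Finset.card_range, nsmul_eq_mul]; field_simp)
    (fun k _ => hf k)
  simp only [smul_eq_mul] at h1
  rw [← Finset.mul_sum, ← Finset.mul_sum] at h1
  have h2 : Real.negMulLog (1 / b * ∑ k ∈ Finset.range b, f k) =
      (1 / b : ℝ) * (Real.negMulLog (∑ k ∈ Finset.range b, f k) +
        (∑ k ∈ Finset.range b, f k) * Real.log b) := by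
    rw [Real.negMulLog_mul]
    have h3 : Real.negMulLog (1 / b : ℝ) = (1 / b : ℝ) * Real.log b := by
      unfold Real.negMulLog
      rw [one_div, Real.log_inv]
      ring
    rw [h3]
    ring
  rw [h2] at h1
  have h4 : (0 : ℝ) < 1 / b := by positivity
  exact le_of_mul_le_mul_left h1 h4

theorem ent_fin (b J : ℕ) (hb : 1 ≤ b) (pg pb : ℕ → ℕ → ℝ) (hg : ∀ k i, 0 ≤ pg k i)
    (hbd : ∀ k i, 0 ≤ pb k i)
    (hsum : ∑ i ∈ Finset.range J, ∑ k ∈ Finset.range b, (pg k i + pb k i) = 1)
    (huniq : ∀ i ∈ Finset.range J, ∀ k ∈ Finset.range b, ∀ k' ∈ Finset.range b,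
      pg k i ≠ 0 → pg k' i ≠ 0 → k = k') (β : ℝ)
    (hβ : β = ∑ i ∈ Finset.range J, ∑ k ∈ Finset.range b, pb k i) :
    ∑ i ∈ Finset.range J, ∑ k ∈ Finset.range b, Real.negMulLog (pg k i + pb k i) -
      ∑ i ∈ Finset.range J, Real.negMulLog (∑ k ∈ Finset.range b, (pg k i + pb k i)) ≤
      Real.binEntropy β + β * Real.log b := by
  obtain ⟨G, hG⟩ : ∃ G : ℕ → ℝ, G = fun i => ∑ k ∈ Finset.range b, pg k i := ⟨_, rfl⟩
  obtain ⟨B, hB⟩ : ∃ B : ℕ → ℝ, B = fun i => ∑ k ∈ Finset.range b, pb k i := ⟨_, rfl⟩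
  have hG0 : ∀ i, 0 ≤ G i := fun i => by
    rw [hG]
    exact Finset.sum_nonneg fun k _ => hg k i
  have hB0 : ∀ i, 0 ≤ B i := fun i => by
    rw [hB]
    exact Finset.sum_nonneg fun k _ => hbd k i
  obtain ⟨r, hr⟩ : ∃ r : ℕ → ℝ, r = fun i => B i / (G i + B i) := ⟨_, rfl⟩
  have hB1 : ∀ i, B i = (G i + B i) * r i := by
    intro i
    rw [hr]
    rcases eq_or_ne (G i + B i) 0 with h | h
    · have h1 := hG0 i
      have h2 := hB0 i
      have h3 : B i = 0 := by linarith
      simp only [h3]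
      simp
    · simp only
      rw [mul_div_cancel₀ _ h]
  have hG1 : ∀ i, G i = (G i + B i) * (1 - r i) := by
    intro i
    have h1 := hB1 i
    linear_combination (-1 : ℝ) * h1
  have hr0 : ∀ i, 0 ≤ r i := fun i => by
    rw [hr]
    exact div_nonneg (hB0 i) (add_nonneg (hG0 i) (hB0 i))
  have hr1 : ∀ i, r i ≤ 1 := fun i => by
    rw [hr]
    exact div_le_one_of_le₀ (by linarith [hG0 i]) (add_nonneg (hG0 i) (hB0 i))
  have hs : ∀ i, ∑ k ∈ Finset.range b, (pg k i + pb k i) = G i + B i := fun i => by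
    rw [hG, hB, Finset.sum_add_distrib]
  have hsum1 : ∑ i ∈ Finset.range J, (G i + B i) = 1 := by
    rw [← hsum]
    exact Finset.sum_congr rfl fun i _ => (hs i).symm
  have hβ1 : β = ∑ i ∈ Finset.range J, B i := by
    rw [hβ, hB]
  have hmain : ∀ i ∈ Finset.range J, ∑ k ∈ Finset.range b, Real.negMulLog (pg k i + pb k i) -
      Real.negMulLog (G i + B i) ≤ (G i + B i) * Real.binEntropy (r i) + B i * Real.log b := by
    intro i hi
    have h1 : ∑ k ∈ Finset.range b, Real.negMulLog (pg k i + pb k i) ≤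
        ∑ k ∈ Finset.range b, Real.negMulLog (pg k i) +
          ∑ k ∈ Finset.range b, Real.negMulLog (pb k i) := by
      rw [← Finset.sum_add_distrib]
      exact Finset.sum_le_sum fun k _ => ef_sub (hg k i) (hbd k i)
    have h2 : ∑ k ∈ Finset.range b, Real.negMulLog (pg k i) = Real.negMulLog (G i) := by
      rw [hG]
      exact ef_one b (fun k => pg k i) (huniq i hi)
    have h3 : ∑ k ∈ Finset.range b, Real.negMulLog (pb k i) ≤
        Real.negMulLog (B i) + B i * Real.log b := by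
      rw [hB]
      exact ef_jen b hb (fun k => pb k i) (fun k => hbd k i)
    have h4 : Real.negMulLog (G i) = (1 - r i) * Real.negMulLog (G i + B i) +
        (G i + B i) * Real.negMulLog (1 - r i) := by
      conv_lhs => rw [hG1 i]
      rw [Real.negMulLog_mul]
    have h5 : Real.negMulLog (B i) = r i * Real.negMulLog (G i + B i) +
        (G i + B i) * Real.negMulLog (r i) := by
      conv_lhs => rw [hB1 i]
      rw [Real.negMulLog_mul]
    have h6 : Real.binEntropy (r i) = Real.negMulLog (r i) + Real.negMulLog (1 - r i) :=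
      Real.binEntropy_eq_negMulLog_add_negMulLog_one_sub _
    rw [h6]
    rw [h2] at h1
    nlinarith
  have hJ := Real.strictConcave_binEntropy.concaveOn.le_map_sum (t := Finset.range J)
    (w := fun i => G i + B i) (p := r) (fun i _ => add_nonneg (hG0 i) (hB0 i)) hsum1
    (fun i _ => ⟨hr0 i, hr1 i⟩)
  simp only [smul_eq_mul] at hJ
  have hβ2 : ∑ i ∈ Finset.range J, (G i + B i) * r i = β := by
    rw [hβ1]
    exact Finset.sum_congr rfl fun i _ => (hB1 i).symm
  rw [hβ2] at hJ
  calc ∑ i ∈ Finset.range J, ∑ k ∈ Finset.range b, Real.negMulLog (pg k i + pb k i) -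
      ∑ i ∈ Finset.range J, Real.negMulLog (∑ k ∈ Finset.range b, (pg k i + pb k i))
      = ∑ i ∈ Finset.range J, (∑ k ∈ Finset.range b, Real.negMulLog (pg k i + pb k i) -
        Real.negMulLog (G i + B i)) := by
        rw [Finset.sum_sub_distrib]
        simp only [hs]
    _ ≤ ∑ i ∈ Finset.range J, ((G i + B i) * Real.binEntropy (r i) + B i * Real.log b) :=
        Finset.sum_le_sum hmain
    _ = ∑ i ∈ Finset.range J, (G i + B i) * Real.binEntropy (r i) + β * Real.log b := by
        rw [Finset.sum_add_distrib, hβ1, Finset.sum_mul]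
    _ ≤ Real.binEntropy β + β * Real.log b := by linarith

end Pool.Agent.Work.MP_67388f_an.OG
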