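import Pool.Agent.Work.MP_67388f_an.OG.EDef

/-! # Module EPair (S-M): two points with different digits

PROOF. `b^(l-1) • x` and `b^(l-1) • x'` have representatives `t₁, t₂ ∈ ℝ` in the intervals
`[(k b^j + i)/b^(j+1), (k b^j + i + 1)/b^(j+1))` and the same with `k'`, so `t₁ - t₂ = (k - k')/b + τ` with
`|τ| ≤ b^(-(j+1))`. Let `y, y'` be real representatives of `x, x'`: `b^(l-1) (y - y') = t₁ - t₂ + r` with `r ∈ ℤ`. So
`y - y' = (k - k' + b r)/b^l + τ/b^(l-1)`; `u = k - k' + b r` is not divisible by `b` because `0 < |k - k'| < b`;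
`t = τ/b^(l-1)`. -/

set_option autoImplicit false

namespace Pool.Agent.Work.MP_67388f_an.OG

open MeasureTheory Filter Topology
open scoped NNReal

theorem pair_digit (b l j k k' i : ℕ) (hb : 2 ≤ b) (hl : 1 ≤ l) (hk : k < b) (hk' : k' < b)
    (hne : k ≠ k') (x x' : UnitAddCircle)
    (hx : b ^ (l - 1) • x ∈ arc b (j + 1) (k * b ^ j + i))
    (hx' : b ^ (l - 1) • x' ∈ arc b (j + 1) (k' * b ^ j + i)) :
    ∃ (u : ℤ) (t : ℝ), |t| ≤ 1 / (b : ℝ) ^ (j + l) ∧ ¬ (b : ℤ) ∣ u ∧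
      x = x' + (((u : ℝ) / (b : ℝ) ^ l : ℝ) : UnitAddCircle) + ((t : ℝ) : UnitAddCircle) := by
  have hb0 : (b : ℝ) ≠ 0 := by
    have : (2 : ℝ) ≤ b := by exact_mod_cast hb
    linarith
  have hbpos : (0 : ℝ) < b := by
    have : (2 : ℝ) ≤ b := by exact_mod_cast hb
    linarith
  obtain ⟨y, rfl⟩ := QuotientAddGroup.mk_surjective x
  obtain ⟨y', rfl⟩ := QuotientAddGroup.mk_surjective x'
  obtain ⟨t₁, ht₁, h₁⟩ := hx
  obtain ⟨t₂, ht₂, h₂⟩ := hx'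
  have key : ∀ (t y : ℝ), ((t : ℝ) : UnitAddCircle) = b ^ (l - 1) • ((y : ℝ) : UnitAddCircle) →
      ∃ r : ℤ, t = (b : ℝ) ^ (l - 1) * y + r := by
    intro t y h
    have h3 : ((t - (b : ℝ) ^ (l - 1) * y : ℝ) : UnitAddCircle) = 0 := by
      rw [AddCircle.coe_sub, h, ← AddCircle.coe_nsmul, nsmul_eq_mul]
      push_cast
      exact sub_self _
    rw [AddCircle.coe_eq_zero_iff] at h3
    obtain ⟨r, hr⟩ := h3
    refine ⟨r, ?_⟩
    simp only [zsmul_eq_mul, mul_one] at hr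
    linarith
  obtain ⟨r₁, hr₁⟩ := key t₁ y h₁
  obtain ⟨r₂, hr₂⟩ := key t₂ y' h₂
  obtain ⟨hl', hl'eq⟩ : ∃ m, l = m + 1 := ⟨l - 1, by omega⟩
  subst hl'eq
  have hm : hl' + 1 - 1 = hl' := by omega
  rw [hm] at hr₁ hr₂
  have hp : (0 : ℝ) < (b : ℝ) ^ (j + 1) := pow_pos hbpos _
  have hpm : (0 : ℝ) < (b : ℝ) ^ hl' := pow_pos hbpos _
  refine ⟨(k : ℤ) - k' - b * (r₁ - r₂), (t₁ - t₂ - ((k : ℝ) - k') / b) / (b : ℝ) ^ hl', ?_, ?_, ?_⟩
  · rw [abs_div, abs_of_pos hpm, div_le_iff₀ hpm]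
    have e1 : 1 / (b : ℝ) ^ (j + (hl' + 1)) * (b : ℝ) ^ hl' = 1 / (b : ℝ) ^ (j + 1) := by
      rw [show j + (hl' + 1) = (j + 1) + hl' by ring, pow_add _ (j + 1)]
      field_simp
    rw [e1]
    have a1 := ht₁.1
    have a2 := ht₁.2
    have a3 := ht₂.1
    have a4 := ht₂.2
    push_cast at a1 a2 a3 a4
    rw [div_le_iff₀ hp] at a1 a3
    rw [lt_div_iff₀ hp] at a2 a4
    have e2 : ((k : ℝ) - k') / b * (b : ℝ) ^ (j + 1) = ((k : ℝ) - k') * (b : ℝ) ^ j := by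
      rw [pow_succ]
      field_simp
    rw [le_div_iff₀ hp, ← abs_of_pos hp, ← abs_mul, abs_le]
    constructor <;> rw [sub_mul, e2, sub_mul] <;> nlinarith
  · intro hd
    have hd2 : (b : ℤ) ∣ (k : ℤ) - k' := by
      have h5 : (k : ℤ) - k' = ((k : ℤ) - k' - b * (r₁ - r₂)) + b * (r₁ - r₂) := by ring
      rw [h5]
      exact dvd_add hd (dvd_mul_right _ _)
    have h6 : (k : ℤ) - k' = 0 := by
      refine Int.eq_zero_of_abs_lt_dvd hd2 ?_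
      rw [abs_lt]
      constructor <;> omega
    exact hne (by omega)
  · have h7 : y = y' + (((k : ℤ) - k' - b * (r₁ - r₂) : ℤ) : ℝ) / (b : ℝ) ^ (hl' + 1) +
        (t₁ - t₂ - ((k : ℝ) - k') / b) / (b : ℝ) ^ hl' := by
      rw [hr₁, hr₂, pow_succ]
      push_cast
      field_simp
      ring
    calc ((y : ℝ) : UnitAddCircle) = ((y' + (((k : ℤ) - k' - b * (r₁ - r₂) : ℤ) : ℝ) / (b : ℝ) ^ (hl' + 1) +
        (t₁ - t₂ - ((k : ℝ) - k') / b) / (b : ℝ) ^ hl' : ℝ) : UnitAddCircle) := by rw [← h7]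
      _ = _ := by
        rw [AddCircle.coe_add, AddCircle.coe_add]

/-- arithmetic: for large `l`, `N u / b^l` is not an integer when `b ∤ u`.
PROOF: take `l` with `|N| < 2 ^ (l - 1)`. If `b ∤ u` there is a prime `p` with `v_p(u) < v_p(b)` (`u ≠ 0`). `b^l ∣ N u` would give
`l v_p(b) ≤ v_p(N) + v_p(u) < v_p(N) + v_p(b)`, so `(l-1) v_p(b) < v_p(N)`, `l - 1 < v_p(N)`, and
`2^(l-1) ≤ p^(v_p(N)) ≤ |N|`. -/
theorem exists_level (b : ℕ) (hb : 2 ≤ b) (N : ℤ) (hN : N ≠ 0) :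
    ∃ l : ℕ, 1 ≤ l ∧ ∀ u : ℤ, ¬ (b : ℤ) ∣ u → ¬ (b : ℤ) ^ l ∣ N * u := by
  have h1 : ∃ i : ℕ, Nat.gcd (b ^ i) N.natAbs = Nat.gcd (b ^ (i + 1)) N.natAbs := by
    by_contra hcon
    push Not at hcon
    have hN' : 0 < N.natAbs := Int.natAbs_pos.2 hN
    have h2 : ∀ i : ℕ, i + 1 ≤ Nat.gcd (b ^ i) N.natAbs := by
      intro i
      induction i with
      | zero => simp
      | succ i ih =>
        have h3 : Nat.gcd (b ^ i) N.natAbs ∣ Nat.gcd (b ^ (i + 1)) N.natAbs :=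
          Nat.gcd_dvd_gcd_of_dvd_left _ (pow_dvd_pow b (Nat.le_succ i))
        have h4 : 0 < Nat.gcd (b ^ (i + 1)) N.natAbs := Nat.gcd_pos_of_pos_right _ hN'
        have h5 := Nat.le_of_dvd h4 h3
        have h6 := hcon i
        omega
    have h7 := h2 N.natAbs
    have h8 : Nat.gcd (b ^ N.natAbs) N.natAbs ≤ N.natAbs :=
      Nat.le_of_dvd hN' (Nat.gcd_dvd_right _ _)
    omega
  obtain ⟨i, hi⟩ := h1
  refine ⟨i + 1, by omega, fun u hu hd => hu ?_⟩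
  have hN' : 0 < N.natAbs := Int.natAbs_pos.2 hN
  have h2 : b ^ (i + 1) ∣ N.natAbs * u.natAbs := by
    have h3 := Int.natAbs_dvd_natAbs.2 hd
    rwa [Int.natAbs_mul, Int.natAbs_pow, Int.natAbs_natCast] at h3
  have h3 : b ^ (i + 1) ∣ Nat.gcd (b ^ (i + 1)) N.natAbs * u.natAbs := by
    rw [← Nat.gcd_mul_right]
    exact Nat.dvd_gcd (dvd_mul_right _ _) h2
  rw [← hi] at h3
  obtain ⟨c, hc⟩ := Nat.gcd_dvd_left (b ^ i) N.natAbs
  have hg : 0 < Nat.gcd (b ^ i) N.natAbs := Nat.gcd_pos_of_pos_right _ hN'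
  have h4 : Nat.gcd (b ^ i) N.natAbs * (c * b) ∣ Nat.gcd (b ^ i) N.natAbs * u.natAbs := by
    have h5 : Nat.gcd (b ^ i) N.natAbs * (c * b) = b ^ (i + 1) := by
      rw [← mul_assoc, ← hc, pow_succ]
    rw [h5]
    exact h3
  have h5 : c * b ∣ u.natAbs := Nat.dvd_of_mul_dvd_mul_left hg h4
  have h6 : b ∣ u.natAbs := (dvd_mul_left b c).trans h5
  exact Int.natCast_dvd.2 h6

end Pool.Agent.Work.MP_67388f_an.OG
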