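import Pool.Agent.Work.MP_67388f_an.OG.Bas

/-! # Module Tors: torsion points of the circle -/

set_option autoImplicit false

namespace Pool.Agent.Work.MP_67388f_an.OG

open MeasureTheory Filter Topology
open scoped NNReal

theorem norm_toCircle_sub_one (z : UnitAddCircle) (q : ℕ) (hq : 0 < q) (hz : q • z = 0)
    (h0 : z ≠ 0) : 4 / (q : ℝ) ≤ ‖(AddCircle.toCircle z : ℂ) - 1‖ := by
  obtain ⟨t, ht⟩ := QuotientAddGroup.mk_surjective z
  have hq' : (0 : ℝ) < q := by exact_mod_cast hq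
  set x : ℝ := t - round t with hx
  have hz1 : z = ((x : ℝ) : UnitAddCircle) := by
    have h1 : z = ((t : ℝ) : UnitAddCircle) := ht.symm
    rw [h1, hx, AddCircle.coe_sub]
    have h2 : (((round t : ℤ) : ℝ) : UnitAddCircle) = 0 := by
      have := AddCircle.coe_eq_zero_iff (p := (1 : ℝ)) (x := ((round t : ℤ) : ℝ))
      exact this.2 ⟨round t, by simp⟩
    rw [h2, sub_zero]
  have hx1 : |x| ≤ 1 / 2 := abs_sub_round t
  have hx0 : x ≠ 0 := by
    intro h
    apply h0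
    rw [hz1, h]
    rfl
  have hqx : ∃ n : ℤ, (n : ℝ) = q * x := by
    have h1 : (((q : ℝ) * x : ℝ) : UnitAddCircle) = 0 := by
      have h2 : (((q : ℝ) * x : ℝ) : UnitAddCircle) = q • ((x : ℝ) : UnitAddCircle) := by
        rw [← AddCircle.coe_nsmul, nsmul_eq_mul]
      rw [h2, ← hz1, hz]
    obtain ⟨n, hn⟩ := (AddCircle.coe_eq_zero_iff (p := (1 : ℝ))).1 h1
    exact ⟨n, by simpa using hn⟩
  obtain ⟨n, hn⟩ := hqx
  have hn0 : n ≠ 0 := by
    rintro rfl
    rw [Int.cast_zero] at hn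
    exact (mul_ne_zero hq'.ne' hx0) hn.symm
  have h1 : 1 ≤ q * |x| := by
    have h2 : (1 : ℝ) ≤ |(n : ℝ)| := by
      exact_mod_cast Int.one_le_abs hn0
    rw [hn, abs_mul, abs_of_pos hq'] at h2
    exact h2
  have h2 : 1 / (q : ℝ) ≤ |x| := by
    rw [div_le_iff₀ hq']
    linarith
  have h3 : ‖(AddCircle.toCircle z : ℂ) - 1‖ = ‖2 * Real.sin (Real.pi * x)‖ := by
    rw [hz1, AddCircle.toCircle_apply_mk, Circle.coe_exp]
    have e : Complex.exp (((2 * Real.pi / 1 * x : ℝ) : ℂ) * Complex.I) =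
        Complex.exp (Complex.I * ((2 * Real.pi * x : ℝ) : ℂ)) := by
      congr 1
      push_cast
      ring
    rw [e, Complex.norm_exp_I_mul_ofReal_sub_one]
    congr 3
    ring
  rw [h3, norm_mul, Real.norm_eq_abs, Real.norm_eq_abs, abs_of_pos (by norm_num : (0 : ℝ) < 2)]
  have h4 : |Real.pi * x| ≤ Real.pi / 2 := by
    rw [abs_mul, abs_of_pos Real.pi_pos]
    nlinarith [Real.pi_pos]
  have h5 := Real.mul_abs_le_abs_sin h4
  rw [abs_mul, abs_of_pos Real.pi_pos] at h5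
  have h6 : 2 / Real.pi * (Real.pi * |x|) = 2 * |x| := by
    field_simp
  rw [h6] at h5
  have h7 : 4 / (q : ℝ) = 4 * (1 / q) := by ring
  rw [h7]
  linarith

end Pool.Agent.Work.MP_67388f_an.OG
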