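import Pool.Agent.Work.MP_67388f_an.OG.EArc
import Pool.Agent.Work.MP_67388f_an.OG.EPair
import Pool.Agent.Work.MP_67388f_an.OG.EFin
import Pool.Agent.Work.MP_67388f_an.OG.Tors

/-! # Module EMain (M-L): the rate-entropy inequality

PROOF. `l` from `exists_level`, `δ = c₀ / b^l`, `j₀` with `2 π |N| b^(-ε j) < 2 c₀ / b^l` for `j ≥ j₀`. Let `j ≥ j₀`,
`F`, `c`. `Bd = {x | δ < ‖cavg F N x - c‖}`, `G = Bdᶜ` (`cavg` is continuous).
For `k < b`, `i < b^j` let `U k i = {x | b^(l-1) • x ∈ arc b (j+1) (k b^j + i)}`. By invariance (`b^(l-1) •` preserves `μ`: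
iterate `hinv`) `μ (U k i) = μ (arc b (j+1) (k b^j + i))`; `∑_k μ (U k i) = μ (arc b j i)` by `nsmul_mem_arc_iff`, disjointness
and invariance. `pg k i = μ.real (U k i ∩ G)`, `pb k i = μ.real (U k i ∩ Bd)`. The `U k i` partition the circle, so
`∑ pb = μ.real Bd = β` and `∑ (pg + pb) = 1`. With `i' = k b^j + i` the index set `range (b^(j+1))` is
`range b × range (b^j)`, so `arcEnt b (j+1) μ = ∑_i ∑_k negMulLog (pg k i + pb k i)` and
`arcEnt b j μ = ∑_i negMulLog (∑_k (pg + pb))`; `ent_fin` gives the claim once `huniq` is shown: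
suppose `x ∈ U k i ∩ G`, `x' ∈ U k' i ∩ G`, `k ≠ k'`. By `pair_digit` `x = x' + z₀ + t`, `z₀ = u / b^l`, `b ∤ u`. For `s ∈ F`:
`fourier N (s • x) = fourier N (s • x') * fourier N (s • z₀) * fourier N (s • t)` and `fourier N (s • z₀) = fourier N z₀`
since `s ≡ 1 mod b^l` (`b^l • z₀ = 0`); `|fourier N (s • t) - 1| ≤ 2 π |N| |s| |t| ≤ 2 π |N| b^((1-ε) j) b^(-j-l) ≤ 2 π |N| b^(-ε j)`.
So `‖cavg x - fourier N z₀ * cavg x'‖ ≤ 2 π |N| b^(-ε j)` and
`‖c‖ ‖1 - fourier N z₀‖ ≤ 2 δ + 2 π |N| b^(-ε j) < 4 c₀ / b^l`. But `fourier N z₀ = toCircle z` with `z = N • z₀`, `b^l • z = 0`,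
`z ≠ 0` by `exists_level` (`z = (N u / b^l : ℝ)`), so `‖1 - fourier N z₀‖ ≥ 4 / b^l` (`norm_toCircle_sub_one`): contradiction
with `‖c‖ ≥ c₀`. -/

set_option autoImplicit false

namespace Pool.Agent.Work.MP_67388f_an.OG

open MeasureTheory Filter Topology
open scoped NNReal

/-- the index of the digit `k` before the block `i` -/
private theorem em_index (b j : ℕ) (f : ℕ → ℝ) (hb : 2 ≤ b) :
    ∑ n ∈ Finset.range (b ^ (j + 1)), f n =
      ∑ i ∈ Finset.range (b ^ j), ∑ k ∈ Finset.range b, f (k * b ^ j + i) := by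
  have hB : 0 < b ^ j := pow_pos (by omega) j
  rw [← Finset.sum_product']
  symm
  refine Finset.sum_nbij' (fun p => p.2 * b ^ j + p.1) (fun n => (n % b ^ j, n / b ^ j))
    ?_ ?_ ?_ ?_ ?_
  · rintro ⟨i, k⟩ h
    simp only [Finset.mem_product, Finset.mem_range] at h ⊢
    have h1 : (k + 1) * b ^ j ≤ b * b ^ j := Nat.mul_le_mul_right _ h.2
    rw [pow_succ, mul_comm (b ^ j) b]
    rw [add_mul, one_mul] at h1
    omega
  · intro n h
    simp only [Finset.mem_product, Finset.mem_range] at h ⊢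
    refine ⟨Nat.mod_lt _ hB, ?_⟩
    rw [Nat.div_lt_iff_lt_mul hB, mul_comm, ← pow_succ]
    exact h
  · rintro ⟨i, k⟩ h
    simp only [Finset.mem_product, Finset.mem_range] at h
    simp only
    have h1 : (k * b ^ j + i) % b ^ j = i := by
      rw [Nat.mul_add_mod', Nat.mod_eq_of_lt h.1]
    have h2 : (k * b ^ j + i) / b ^ j = k := by
      rw [mul_comm, Nat.mul_add_div hB, Nat.div_eq_of_lt h.1, add_zero]
    rw [h1, h2]
  · intro n _
    simp only
    rw [Nat.div_add_mod']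
  · rintro ⟨i, k⟩ _
    rfl

private theorem em_lt {b j i k : ℕ} (hi : i < b ^ j) (hk : k < b) :
    k * b ^ j + i < b ^ (j + 1) := by
  have h1 : (k + 1) * b ^ j ≤ b * b ^ j := Nat.mul_le_mul_right _ hk
  rw [pow_succ, mul_comm (b ^ j) b]
  rw [add_mul, one_mul] at h1
  omega

private theorem em_inj {b j i i' k k' : ℕ} (hi : i < b ^ j) (hi' : i' < b ^ j)
    (h : k * b ^ j + i = k' * b ^ j + i') : k = k' ∧ i = i' := by
  have hB : 0 < b ^ j := by omega
  rcases lt_trichotomy k k' with h1 | h1 | h1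
  · exfalso
    have h2 : (k + 1) * b ^ j ≤ k' * b ^ j := Nat.mul_le_mul_right _ h1
    rw [add_mul, one_mul] at h2
    omega
  · subst h1
    exact ⟨rfl, by omega⟩
  · exfalso
    have h2 : (k' + 1) * b ^ j ≤ k * b ^ j := Nat.mul_le_mul_right _ h1
    rw [add_mul, one_mul] at h2
    omega

private theorem em_cont (F : Finset ℤ) (N : ℤ) : Continuous (cavg F N) := by
  unfold cavg
  exact continuous_const.mul (continuous_finsetSum _ fun s _ =>
    (fourier N).continuous.comp (continuous_zsmul s))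

private theorem em_inv (b : ℕ) (μ : Measure UnitAddCircle) (h : μ.map (fun x => b • x) = μ)
    (n : ℕ) : μ.map (fun x => b ^ n • x) = μ := by
  have hm : ∀ a : ℕ, Measurable fun x : UnitAddCircle => a • x := fun a =>
    (continuous_nsmul a).measurable
  induction n with
  | zero =>
    have : (fun x : UnitAddCircle => b ^ 0 • x) = id := by
      funext x
      rw [pow_zero, one_smul, id]
    rw [this, Measure.map_id]
  | succ n ih =>
    have : (fun x : UnitAddCircle => b ^ (n + 1) • x) = (fun x => b • x) ∘ fun x => b ^ n • x := by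
      funext x
      rw [Function.comp_apply, pow_succ', mul_smul]
    rw [this, ← Measure.map_map (hm b) (hm (b ^ n)), ih, h]

private theorem em_toCircle (r : ℝ) :
    ‖((AddCircle.toCircle ((r : ℝ) : UnitAddCircle) : Circle) : ℂ) - 1‖ ≤ 2 * Real.pi * |r| := by
  rw [AddCircle.toCircle_apply_mk, Circle.coe_exp]
  have h0 : ((2 * Real.pi / 1 * r : ℝ) * Complex.I : ℂ) =
      Complex.I * ((2 * Real.pi * r : ℝ) : ℂ) := by
    push_cast
    ring
  rw [h0]
  refine (Real.norm_exp_I_mul_ofReal_sub_one_le (x := 2 * Real.pi * r)).trans ?_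
  rw [Real.norm_eq_abs, abs_mul, abs_of_pos Real.two_pi_pos]

/-- the comparison of the averages at two points with different digits -/
private theorem em_cmp (b l j : ℕ) (hb : 2 ≤ b) (N : ℤ) (ε : ℝ) (F : Finset ℤ)
    (hFne : F.Nonempty)
    (hF : ∀ s ∈ F, s ≡ 1 [ZMOD (b : ℤ) ^ l] ∧ |(s : ℝ)| ≤ (b : ℝ) ^ ((1 - ε) * (j : ℝ)))
    (x x' : UnitAddCircle) (u : ℤ) (t : ℝ) (ht : |t| ≤ 1 / (b : ℝ) ^ (j + l))
    (hx : x = x' + (((u : ℝ) / (b : ℝ) ^ l : ℝ) : UnitAddCircle) + ((t : ℝ) : UnitAddCircle)) :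
    ‖cavg F N x - ((AddCircle.toCircle (N • (((u : ℝ) / (b : ℝ) ^ l : ℝ) : UnitAddCircle)) :
      Circle) : ℂ) * cavg F N x'‖ ≤ 2 * Real.pi * |(N : ℝ)| * (b : ℝ) ^ (-ε * (j : ℝ)) := by
  have hb0 : (0 : ℝ) < b := by exact_mod_cast (by omega : 0 < b)
  have hb1 : (1 : ℝ) ≤ b := by exact_mod_cast (by omega : 1 ≤ b)
  set z0 : UnitAddCircle := (((u : ℝ) / (b : ℝ) ^ l : ℝ) : UnitAddCircle) with hz0
  set w : ℂ := ((AddCircle.toCircle (N • z0) : Circle) : ℂ) with hw
  have hcard : (0 : ℝ) < (F.card : ℝ) := by exact_mod_cast hFne.card_pos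
  have hbz : ((b : ℤ) ^ l) • z0 = 0 := by
    rw [hz0, ← AddCircle.coe_zsmul, zsmul_eq_mul]
    have h1 : (((b : ℤ) ^ l : ℤ) : ℝ) * ((u : ℝ) / (b : ℝ) ^ l) = (u : ℝ) := by
      push_cast
      field_simp
    rw [h1]
    exact (AddCircle.coe_eq_zero_iff (p := (1 : ℝ))).2 ⟨u, by simp⟩
  have hterm : ∀ s ∈ F, ‖(fourier N (s • x) : ℂ) - w * fourier N (s • x')‖ ≤
      2 * Real.pi * |(N : ℝ)| * (b : ℝ) ^ (-ε * (j : ℝ)) := by
    intro s hs
    obtain ⟨hs1, hs2⟩ := hF s hs
    have hsz : s • z0 = z0 := by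
      obtain ⟨q, hq⟩ := hs1.symm.dvd
      have h1 : s = 1 + (b : ℤ) ^ l * q := by linarith
      rw [h1, add_smul, one_smul, mul_comm, mul_smul, hbz, smul_zero, add_zero]
    have h1 : (fourier N (s • x) : ℂ) = fourier N (s • x') * w *
        ((AddCircle.toCircle ((((N : ℝ) * (s * t)) : ℝ) : UnitAddCircle) : Circle) : ℂ) := by
      have e1 : N • (s • x) = N • (s • x') + N • z0 +
          ((((N : ℝ) * (s * t)) : ℝ) : UnitAddCircle) := by
        have e0 : s • x = s • x' + z0 + s • ((t : ℝ) : UnitAddCircle) := by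
          rw [hx, smul_add, smul_add, hsz]
        rw [e0, smul_add, smul_add]
        congr 1
        rw [← AddCircle.coe_zsmul, ← AddCircle.coe_zsmul, zsmul_eq_mul, zsmul_eq_mul]
      have e2 : (fourier N (s • x) : ℂ) =
          ((AddCircle.toCircle (N • (s • x)) : Circle) : ℂ) := fourier_apply
      have e3 : (fourier N (s • x') : ℂ) =
          ((AddCircle.toCircle (N • (s • x')) : Circle) : ℂ) := fourier_apply
      rw [e2, e3, e1, AddCircle.toCircle_add, AddCircle.toCircle_add, Circle.coe_mul,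
        Circle.coe_mul]
    rw [h1]
    have h2 : (fourier N (s • x') : ℂ) * w *
        ((AddCircle.toCircle ((((N : ℝ) * (s * t)) : ℝ) : UnitAddCircle) : Circle) : ℂ) -
        w * fourier N (s • x') = fourier N (s • x') * w *
        (((AddCircle.toCircle ((((N : ℝ) * (s * t)) : ℝ) : UnitAddCircle) : Circle) : ℂ) - 1) := by
      ring
    have h3 : ‖(fourier N (s • x') : ℂ)‖ = 1 := by
      rw [fourier_apply]
      exact Circle.norm_coe _
    have h4 : ‖w‖ = 1 := Circle.norm_coe _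
    rw [h2, norm_mul, norm_mul, h3, h4, one_mul, one_mul]
    refine (em_toCircle _).trans ?_
    rw [abs_mul, abs_mul]
    have h5 : |(s : ℝ)| * |t| ≤ (b : ℝ) ^ (-ε * (j : ℝ)) := by
      have h6 : |t| ≤ (b : ℝ) ^ (-(j : ℝ)) := by
        refine ht.trans ?_
        rw [Real.rpow_neg hb0.le, Real.rpow_natCast, one_div]
        exact inv_anti₀ (pow_pos hb0 _) (pow_le_pow_right₀ hb1 (by omega))
      calc |(s : ℝ)| * |t| ≤ (b : ℝ) ^ ((1 - ε) * (j : ℝ)) * (b : ℝ) ^ (-(j : ℝ)) :=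
            mul_le_mul hs2 h6 (abs_nonneg _) (Real.rpow_nonneg hb0.le _)
        _ = (b : ℝ) ^ (-ε * (j : ℝ)) := by
            rw [← Real.rpow_add hb0]
            congr 1
            ring
    have h7 : 0 ≤ 2 * Real.pi * |(N : ℝ)| := by positivity
    calc 2 * Real.pi * (|(N : ℝ)| * (|(s : ℝ)| * |t|)) =
        2 * Real.pi * |(N : ℝ)| * (|(s : ℝ)| * |t|) := by ring
      _ ≤ _ := mul_le_mul_of_nonneg_left h5 h7
  have hsum : cavg F N x - w * cavg F N x' = (F.card : ℂ)⁻¹ *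
      ∑ s ∈ F, ((fourier N (s • x) : ℂ) - w * fourier N (s • x')) := by
    unfold cavg
    rw [Finset.sum_sub_distrib, ← Finset.mul_sum]
    ring
  rw [hsum, norm_mul, norm_inv, Complex.norm_natCast]
  rw [inv_mul_le_iff₀ hcard]
  refine (norm_sum_le_of_le _ hterm).trans ?_
  rw [Finset.sum_const, nsmul_eq_mul]

theorem rate_entropy (b : ℕ) (hb : 2 ≤ b) (N : ℤ) (hN : N ≠ 0) (c₀ ε : ℝ) (hc₀ : 0 < c₀)
    (hε : 0 < ε) :
    ∃ (l j₀ : ℕ) (δ : ℝ), 1 ≤ l ∧ 0 < δ ∧
      ∀ (μ : Measure UnitAddCircle) [IsProbabilityMeasure μ], μ.map (fun x => b • x) = μ →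
      ∀ j : ℕ, j₀ ≤ j → ∀ F : Finset ℤ, F.Nonempty →
      (∀ s ∈ F, s ≡ 1 [ZMOD (b : ℤ) ^ l] ∧ |(s : ℝ)| ≤ (b : ℝ) ^ ((1 - ε) * (j : ℝ))) →
      ∀ c : ℂ, c₀ ≤ ‖c‖ →
        arcEnt b (j + 1) μ - arcEnt b j μ ≤
          Real.binEntropy (μ.real {x | δ < ‖cavg F N x - c‖}) +
            μ.real {x | δ < ‖cavg F N x - c‖} * Real.log b := by
  classical
  have hb0 : (0 : ℝ) < b := by exact_mod_cast (by omega : 0 < b)
  have hb1 : (1 : ℝ) < b := by exact_mod_cast (by omega : 1 < b)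
  obtain ⟨l, hl, hlev⟩ := exists_level b hb N hN
  have hbl : (0 : ℝ) < (b : ℝ) ^ l := pow_pos hb0 l
  have hδ : 0 < c₀ / (b : ℝ) ^ l := div_pos hc₀ hbl
  -- the choice of `j₀`
  have hj : ∃ j₀ : ℕ, ∀ j : ℕ, j₀ ≤ j →
      2 * Real.pi * |(N : ℝ)| * (b : ℝ) ^ (-ε * (j : ℝ)) < 2 * (c₀ / (b : ℝ) ^ l) := by
    have h1 : Tendsto (fun j : ℕ => 2 * Real.pi * |(N : ℝ)| * (b : ℝ) ^ (-ε * (j : ℝ))) atTop
        (𝓝 (2 * Real.pi * |(N : ℝ)| * 0)) := by
      refine Tendsto.const_mul _ ?_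
      have h2 : (fun j : ℕ => (b : ℝ) ^ (-ε * (j : ℝ))) = fun j : ℕ => ((b : ℝ) ^ (-ε)) ^ j := by
        funext j
        rw [Real.rpow_mul hb0.le, Real.rpow_natCast]
      rw [h2]
      refine tendsto_pow_atTop_nhds_zero_of_lt_one (Real.rpow_nonneg hb0.le _) ?_
      exact Real.rpow_lt_one_of_one_lt_of_neg hb1 (by linarith)
    rw [mul_zero] at h1
    have h3 := h1.eventually (gt_mem_nhds (show (0 : ℝ) < 2 * (c₀ / (b : ℝ) ^ l) by positivity))
    exact eventually_atTop.1 h3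
  obtain ⟨j₀, hj₀⟩ := hj
  refine ⟨l, j₀, c₀ / (b : ℝ) ^ l, hl, hδ, ?_⟩
  intro μ _ hinv j hjj F hFne hF c hc
  set δ : ℝ := c₀ / (b : ℝ) ^ l with hδd
  set Bd : Set UnitAddCircle := {x | δ < ‖cavg F N x - c‖} with hBd
  have hBdm : MeasurableSet Bd :=
    (isOpen_lt continuous_const ((em_cont F N).sub continuous_const).norm).measurableSet
  set U : ℕ → ℕ → Set UnitAddCircle :=
    fun k i => {x | b ^ (l - 1) • x ∈ arc b (j + 1) (k * b ^ j + i)} with hU
  have hmeas : Measurable fun x : UnitAddCircle => b ^ (l - 1) • x :=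
    (continuous_nsmul _).measurable
  have hUm : ∀ k < b, ∀ i < b ^ j, MeasurableSet (U k i) := fun k hk i hi =>
    hmeas (measurableSet_arc b (j + 1) _ hb (em_lt hi hk))
  -- the parts of a set
  have hpart : ∀ S : Set UnitAddCircle, MeasurableSet S →
      ∑ i ∈ Finset.range (b ^ j), ∑ k ∈ Finset.range b, μ.real (U k i ∩ S) = μ.real S := by
    intro S hS
    rw [← Finset.sum_product' (Finset.range (b ^ j)) (Finset.range b)
      (fun i k => μ.real (U k i ∩ S))]
    rw [← measureReal_biUnion_finset (f := fun p : ℕ × ℕ => U p.2 p.1 ∩ S)]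
    · congr 1
      ext x
      simp only [Set.mem_iUnion, Finset.mem_product, Finset.mem_range, Set.mem_inter_iff,
        exists_prop, Prod.exists]
      constructor
      · rintro ⟨i, k, -, -, hx⟩
        exact hx
      · intro hx
        obtain ⟨n, hn, hxn⟩ := arc_cover b (j + 1) hb (b ^ (l - 1) • x)
        have hB : 0 < b ^ j := pow_pos (by omega) j
        refine ⟨n % b ^ j, n / b ^ j, ⟨Nat.mod_lt _ hB, ?_⟩, ?_, hx⟩
        · rw [Nat.div_lt_iff_lt_mul hB, mul_comm, ← pow_succ]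
          exact hn
        · change b ^ (l - 1) • x ∈ arc b (j + 1) (n / b ^ j * b ^ j + n % b ^ j)
          rw [Nat.div_add_mod']
          exact hxn
    · rintro ⟨i, k⟩ h ⟨i', k'⟩ h' hne
      simp only [Finset.coe_product, Finset.coe_range, Set.mem_prod, Set.mem_Iio] at h h'
      change Disjoint (U k i ∩ S) (U k' i' ∩ S)
      refine Set.disjoint_left.2 fun x hx hx' => ?_
      refine (Set.disjoint_left.1 (arc_disjoint b (j + 1) (k * b ^ j + i) (k' * b ^ j + i') hb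
        (em_lt h.1 h.2) (em_lt h'.1 h'.2) ?_)) hx.1 hx'.1
      intro hcon
      obtain ⟨h1, h2⟩ := em_inj h.1 h'.1 hcon
      exact hne (Prod.ext h2 h1)
    · rintro ⟨i, k⟩ h
      simp only [Finset.mem_product, Finset.mem_range] at h
      exact (hUm k h.2 i h.1).inter hS
  have hadd : ∀ k i, μ.real (U k i \ Bd) + μ.real (U k i ∩ Bd) = μ.real (U k i) := fun k i => by
    rw [add_comm]
    exact measureReal_inter_add_sdiff hBdm
  have hUarc : ∀ k < b, ∀ i < b ^ j,
      μ.real (U k i) = μ.real (arc b (j + 1) (k * b ^ j + i)) := by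
    intro k hk i hi
    have h1 := em_inv b μ hinv (l - 1)
    conv_rhs => rw [← h1]
    rw [map_measureReal_apply hmeas (measurableSet_arc b (j + 1) _ hb (em_lt hi hk))]
    rfl
  have harc : ∀ i < b ^ j, ∑ k ∈ Finset.range b, μ.real (arc b (j + 1) (k * b ^ j + i)) =
      μ.real (arc b j i) := by
    intro i hi
    rw [← measureReal_biUnion_finset (f := fun k => arc b (j + 1) (k * b ^ j + i))]
    · conv_rhs => rw [← hinv]
      rw [map_measureReal_apply (continuous_nsmul b).measurable (measurableSet_arc b j i hb hi)]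
      congr 1
      ext x
      rw [Set.mem_preimage, nsmul_mem_arc_iff b j i hb hi x]
      simp only [Set.mem_iUnion, Finset.mem_range, exists_prop]
    · intro k hk k' hk' hne
      rw [Finset.mem_coe, Finset.mem_range] at hk hk'
      refine arc_disjoint b (j + 1) _ _ hb (em_lt hi hk) (em_lt hi hk') fun hcon => hne ?_
      exact (em_inj hi hi hcon).1
    · intro k hk
      exact measurableSet_arc b (j + 1) _ hb (em_lt hi (Finset.mem_range.1 hk))
  -- the two entropies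
  have hE1 : arcEnt b (j + 1) μ = ∑ i ∈ Finset.range (b ^ j), ∑ k ∈ Finset.range b,
      Real.negMulLog (μ.real (U k i \ Bd) + μ.real (U k i ∩ Bd)) := by
    unfold arcEnt
    rw [em_index b j _ hb]
    refine Finset.sum_congr rfl fun i hi => Finset.sum_congr rfl fun k hk => ?_
    rw [hadd, hUarc k (Finset.mem_range.1 hk) i (Finset.mem_range.1 hi)]
  have hE0 : arcEnt b j μ = ∑ i ∈ Finset.range (b ^ j),
      Real.negMulLog (∑ k ∈ Finset.range b, (μ.real (U k i \ Bd) + μ.real (U k i ∩ Bd))) := by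
    unfold arcEnt
    refine Finset.sum_congr rfl fun i hi => ?_
    congr 1
    rw [← harc i (Finset.mem_range.1 hi)]
    refine Finset.sum_congr rfl fun k hk => ?_
    rw [hadd, hUarc k (Finset.mem_range.1 hk) i (Finset.mem_range.1 hi)]
  rw [hE1, hE0]
  refine ent_fin b (b ^ j) (by omega) (fun k i => μ.real (U k i \ Bd))
    (fun k i => μ.real (U k i ∩ Bd)) (fun _ _ => measureReal_nonneg)
    (fun _ _ => measureReal_nonneg) ?_ ?_ _ (hpart Bd hBdm).symm
  · have h1 := hpart Set.univ MeasurableSet.univ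
    simp only [Set.inter_univ] at h1
    rw [probReal_univ] at h1
    exact (Finset.sum_congr rfl fun i _ => Finset.sum_congr rfl fun k _ => hadd k i).trans h1
  · intro i hi k hk k' hk' hp hp'
    by_contra hne
    have hex : ∀ m, μ.real (U m i \ Bd) ≠ 0 → ∃ x, x ∈ U m i ∧ x ∉ Bd := by
      intro m hm
      by_contra hcon
      push Not at hcon
      apply hm
      have : U m i \ Bd = ∅ := by
        ext x
        simp only [Set.mem_sdiff, Set.mem_empty_iff_false, iff_false, not_and, not_not]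
        exact hcon x
      rw [this, measureReal_empty]
    obtain ⟨x, hx, hxB⟩ := hex k hp
    obtain ⟨x', hx', hxB'⟩ := hex k' hp'
    obtain ⟨u, t, ht, hu, hxx⟩ := pair_digit b l j k k' i hb hl (Finset.mem_range.1 hk)
      (Finset.mem_range.1 hk') hne x x' hx hx'
    have h1 := em_cmp b l j hb N ε F hFne hF x x' u t ht hxx
    have h2 := hj₀ j hjj
    set z0 : UnitAddCircle := (((u : ℝ) / (b : ℝ) ^ l : ℝ) : UnitAddCircle) with hz0
    set w : ℂ := ((AddCircle.toCircle (N • z0) : Circle) : ℂ) with hw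
    have hw1 : ‖w‖ = 1 := Circle.norm_coe _
    have h3 : ‖cavg F N x - c‖ ≤ δ := not_lt.1 hxB
    have h4 : ‖cavg F N x' - c‖ ≤ δ := not_lt.1 hxB'
    have h5 : ‖c - w * c‖ < 4 * δ := by
      have e : c - w * c = -(cavg F N x - c) + (cavg F N x - w * cavg F N x') +
          w * (cavg F N x' - c) := by ring
      rw [e]
      refine lt_of_le_of_lt (norm_add₃_le) ?_
      rw [norm_neg, norm_mul, hw1, one_mul]
      linarith
    have hNz : N • z0 = (((N : ℝ) * ((u : ℝ) / (b : ℝ) ^ l) : ℝ) : UnitAddCircle) := by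
      rw [hz0, ← AddCircle.coe_zsmul, zsmul_eq_mul]
    have hz1 : (b ^ l) • (N • z0) = 0 := by
      rw [hNz, ← AddCircle.coe_nsmul, nsmul_eq_mul]
      have h6 : ((b ^ l : ℕ) : ℝ) * ((N : ℝ) * ((u : ℝ) / (b : ℝ) ^ l)) = ((N * u : ℤ) : ℝ) := by
        push_cast
        field_simp
      rw [h6]
      exact (AddCircle.coe_eq_zero_iff (p := (1 : ℝ))).2 ⟨N * u, by simp⟩
    have hz2 : N • z0 ≠ 0 := by
      intro hcon
      rw [hNz] at hcon
      obtain ⟨n, hn⟩ := (AddCircle.coe_eq_zero_iff (p := (1 : ℝ))).1 hcon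
      rw [zsmul_eq_mul, mul_one] at hn
      apply hlev u hu
      refine ⟨n, ?_⟩
      have h6 : ((N * u : ℤ) : ℝ) = (((b : ℤ) ^ l * n : ℤ) : ℝ) := by
        push_cast
        rw [hn]
        field_simp
      exact_mod_cast h6
    have h6 := norm_toCircle_sub_one (N • z0) (b ^ l) (pow_pos (by omega) l) hz1 hz2
    have h7 : ‖c - w * c‖ = ‖c‖ * ‖w - 1‖ := by
      rw [show c - w * c = -(c * (w - 1)) by ring, norm_neg, norm_mul]
    have h8 : c₀ * (4 / ((b ^ l : ℕ) : ℝ)) ≤ ‖c‖ * ‖w - 1‖ :=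
      mul_le_mul hc h6 (by positivity) (norm_nonneg _)
    have h9 : c₀ * (4 / ((b ^ l : ℕ) : ℝ)) = 4 * δ := by
      rw [hδd]
      push_cast
      ring
    rw [h7] at h5
    rw [h9] at h8
    exact absurd h5 (not_lt.2 h8)

end Pool.Agent.Work.MP_67388f_an.OG
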