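import Pool.Agent.Work.MP_67388f_an.OG.Bas

/-! # Module Adj (S-M): division by the determinant

PROOF. Cayley-Hamilton: let `p = B.charpoly`, `p = divX p * X + C (coeff p 0)`
(`Polynomial.divX_mul_X_add`), `aeval B p = 0` (`Matrix.aeval_self_charpoly`), so
`coeff p 0 • 1 = -(aeval B (divX p)) * B`. For every integer polynomial `f`, `act (aeval B f)` maps `H`
into `H` (induction on `f` with `add_act`, `act_mul`, `zsmul_act`). So
`coeff p 0 • θ = -act (aeval B (divX p)) (act B θ) ∈ H`, and `B.det = (-1)^d * coeff p 0`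
(`Matrix.det_eq_sign_charpoly_coeff`). The case d = 0 is included. -/

set_option autoImplicit false

namespace Pool.Agent.Work.MP_67388f_an.OG

open MeasureTheory Filter Topology
open scoped NNReal

private theorem pow_mem {d : ℕ} (H : AddSubgroup (Tor d)) (B : Mat d)
    (hB : ∀ h ∈ H, act B h ∈ H) (n : ℕ) (h : Tor d) (hh : h ∈ H) : act (B ^ n) h ∈ H := by
  induction n with
  | zero => rw [pow_zero, act_one]; exact hh
  | succ n ih => rw [pow_succ', act_mul]; exact hB _ ih

private theorem aeval_mem {d : ℕ} (H : AddSubgroup (Tor d)) (B : Mat d)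
    (hB : ∀ h ∈ H, act B h ∈ H) (f : Polynomial ℤ) (h : Tor d) (hh : h ∈ H) :
    act (Polynomial.aeval B f) h ∈ H := by
  induction f using Polynomial.induction_on' with
  | add p q hp hq => rw [map_add, add_act]; exact H.add_mem hp hq
  | monomial n a =>
    rw [Polynomial.aeval_monomial, Algebra.algebraMap_eq_smul_one, smul_mul_assoc, one_mul,
      zsmul_act]
    exact H.zsmul_mem (pow_mem H B hB n h hh) a

theorem det_smul_mem {d : ℕ} (H : AddSubgroup (Tor d)) (B : Mat d) (hB : ∀ h ∈ H, act B h ∈ H)
    (θ : Tor d) (hθ : act B θ ∈ H) : B.det • θ ∈ H := by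
  have h1 : Polynomial.aeval B (B.charpoly.divX) * B +
      (B.charpoly.coeff 0) • (1 : Mat d) = 0 := by
    have h2 := congrArg (Polynomial.aeval B) (Polynomial.divX_mul_X_add B.charpoly)
    rw [Matrix.aeval_self_charpoly, map_add, map_mul, Polynomial.aeval_X, Polynomial.aeval_C,
      Algebra.algebraMap_eq_smul_one] at h2
    exact h2
  have h3 : act (Polynomial.aeval B (B.charpoly.divX)) (act B θ) + B.charpoly.coeff 0 • θ = 0 := by
    have h4 := congrArg (fun M : Mat d => act M θ) h1
    simp only [add_act, act_mul, zsmul_act, act_one] at h4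
    rw [h4]
    funext i
    simp [act]
  have h5 : B.charpoly.coeff 0 • θ ∈ H := by
    have h6 : B.charpoly.coeff 0 • θ =
        -act (Polynomial.aeval B (B.charpoly.divX)) (act B θ) :=
      (neg_eq_of_add_eq_zero_right h3).symm
    rw [h6]
    exact H.neg_mem (aeval_mem H B hB _ _ hθ)
  rw [Matrix.det_eq_sign_charpoly_coeff, mul_smul]
  exact H.zsmul_mem h5 _

end Pool.Agent.Work.MP_67388f_an.OG
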