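import Pool.Agent.Work.MP_67388f_an.OG.Defs

/-! # Module Bas (project OG): basic facts on `act`, `pr`, `ch`, `proj` -/

set_option autoImplicit false

namespace Pool.Agent.Work.MP_67388f_an.OG

open MeasureTheory Filter Topology
open scoped NNReal

variable {d : ℕ}

theorem act_add (A : Mat d) (x y : Tor d) : act A (x + y) = act A x + act A y := by
  funext i; simp [act, smul_add, Finset.sum_add_distrib]

theorem act_zero (A : Mat d) : act A (0 : Tor d) = 0 := by
  funext i; simp [act]

theorem act_neg (A : Mat d) (x : Tor d) : act A (-x) = -act A x := by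
  funext i; simp [act, smul_neg, Finset.sum_neg_distrib]

theorem act_sub (A : Mat d) (x y : Tor d) : act A (x - y) = act A x - act A y := by
  rw [sub_eq_add_neg, act_add, act_neg, ← sub_eq_add_neg]

theorem act_zsmul (A : Mat d) (k : ℤ) (x : Tor d) : act A (k • x) = k • act A x := by
  funext i
  simp only [act, Pi.smul_apply, Finset.smul_sum]
  exact Finset.sum_congr rfl fun j _ => smul_comm _ _ _

theorem add_act (A B : Mat d) (x : Tor d) : act (A + B) x = act A x + act B x := by
  funext i; simp [act, add_smul, Finset.sum_add_distrib]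

theorem zsmul_act (k : ℤ) (A : Mat d) (x : Tor d) : act (k • A) x = k • act A x := by
  funext i
  simp only [act, Matrix.smul_apply, Pi.smul_apply, Finset.smul_sum, smul_eq_mul, mul_smul]

theorem act_mul (A B : Mat d) (x : Tor d) : act (A * B) x = act A (act B x) := by
  funext i
  simp only [act, Matrix.mul_apply, Finset.sum_smul, Finset.smul_sum, mul_smul]
  rw [Finset.sum_comm]

theorem act_one (x : Tor d) : act (1 : Mat d) x = x := by
  funext i
  simp only [act, Matrix.one_apply]
  rw [Finset.sum_eq_single i]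
  · simp
  · intro j _ hj; simp [hj.symm]
  · simp

theorem act_pow (A : Mat d) (n : ℕ) (x : Tor d) : act (A ^ n) x = (act A)^[n] x := by
  induction n generalizing x with
  | zero => simp [act_one]
  | succ n ih => rw [pow_succ, act_mul, ih, Function.iterate_succ_apply]

theorem act_proj (A : Mat d) (t : Fin d → ℝ) : act A (proj t) = proj ((re A).mulVec t) := by
  funext i
  simp only [act, proj, re, Matrix.mulVec, dotProduct, Matrix.map_apply]
  have h := map_sum (QuotientAddGroup.mk' (AddSubgroup.zmultiples (1 : ℝ)))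
    (fun j => (A i j : ℝ) * t j) Finset.univ
  have h2 : ∀ j, A i j • ((t j : ℝ) : UnitAddCircle) =
      ((((A i j : ℝ) * t j : ℝ)) : UnitAddCircle) := by
    intro j
    rw [← AddCircle.coe_zsmul, zsmul_eq_mul]
  rw [Finset.sum_congr rfl fun j _ => h2 j]
  exact h.symm

theorem proj_add (s t : Fin d → ℝ) : proj (s + t) = (proj s + proj t : Tor d) := by
  funext i; simp [proj]

theorem proj_zero : proj (0 : Fin d → ℝ) = (0 : Tor d) := by
  funext i; simp [proj]

theorem proj_neg (t : Fin d → ℝ) : proj (-t) = (-proj t : Tor d) := by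
  funext i; simp [proj]

theorem proj_sub (s t : Fin d → ℝ) : proj (s - t) = (proj s - proj t : Tor d) := by
  funext i; simp [proj]

theorem proj_surj (x : Tor d) : ∃ t : Fin d → ℝ, proj t = x := by
  refine ⟨fun i => Quotient.out (x i), ?_⟩
  funext i
  exact Quotient.out_eq (x i)

theorem norm_proj_le (t : Fin d → ℝ) : ‖proj t‖ ≤ ‖t‖ := by
  rw [pi_norm_le_iff_of_nonneg (norm_nonneg _)]
  intro i
  have h1 : ‖((t i : ℝ) : UnitAddCircle)‖ ≤ ‖t i‖ := by
    rw [UnitAddCircle.norm_eq]
    have := round_le (t i) 0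
    simpa using this
  exact h1.trans (norm_le_pi_norm t i)

theorem continuous_proj : Continuous (proj : (Fin d → ℝ) → Tor d) :=
  continuous_pi fun i => (AddCircle.continuous_mk' (1 : ℝ)).comp (continuous_apply i)

theorem continuous_act (A : Mat d) : Continuous (act A) := by
  refine continuous_pi fun i => ?_
  exact continuous_finsetSum _ fun j _ => (continuous_apply j).zsmul (A i j)

theorem measurable_act (A : Mat d) : Measurable (act A) := (continuous_act A).measurable

theorem pr_add (N : Fin d → ℤ) (x y : Tor d) : pr N (x + y) = pr N x + pr N y := by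
  simp [pr, smul_add, Finset.sum_add_distrib]

theorem pr_zero (N : Fin d → ℤ) : pr N (0 : Tor d) = 0 := by simp [pr]

theorem pr_neg (N : Fin d → ℤ) (x : Tor d) : pr N (-x) = -pr N x := by
  simp [pr, smul_neg, Finset.sum_neg_distrib]

theorem pr_sub (N : Fin d → ℤ) (x y : Tor d) : pr N (x - y) = pr N x - pr N y := by
  rw [sub_eq_add_neg, pr_add, pr_neg, ← sub_eq_add_neg]

theorem pr_zsmul (N : Fin d → ℤ) (k : ℤ) (x : Tor d) : pr N (k • x) = k • pr N x := by
  simp only [pr, Pi.smul_apply, Finset.smul_sum]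
  exact Finset.sum_congr rfl fun j _ => smul_comm _ _ _

theorem add_pr (N N' : Fin d → ℤ) (x : Tor d) : pr (N + N') x = pr N x + pr N' x := by
  simp [pr, add_smul, Finset.sum_add_distrib]

theorem zsmul_pr (k : ℤ) (N : Fin d → ℤ) (x : Tor d) : pr (k • N) x = k • pr N x := by
  simp only [pr, Pi.smul_apply, smul_eq_mul, mul_smul, Finset.smul_sum]

theorem pr_act (N : Fin d → ℤ) (A : Mat d) (x : Tor d) :
    pr N (act A x) = pr (Matrix.vecMul N A) x := by
  simp only [pr, act, Matrix.vecMul, dotProduct, Finset.sum_smul, Finset.smul_sum, mul_smul]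
  rw [Finset.sum_comm]

theorem pr_proj (N : Fin d → ℤ) (t : Fin d → ℝ) :
    pr N (proj t) = ((∑ i, (N i : ℝ) * t i : ℝ) : UnitAddCircle) := by
  simp only [pr, proj]
  have h := map_sum (QuotientAddGroup.mk' (AddSubgroup.zmultiples (1 : ℝ)))
    (fun j => (N j : ℝ) * t j) Finset.univ
  have h2 : ∀ j, N j • ((t j : ℝ) : UnitAddCircle) =
      ((((N j : ℝ) * t j : ℝ)) : UnitAddCircle) := by
    intro j
    rw [← AddCircle.coe_zsmul, zsmul_eq_mul]
  rw [Finset.sum_congr rfl fun j _ => h2 j]
  exact h.symm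

theorem continuous_pr (N : Fin d → ℤ) : Continuous (pr N : Tor d → UnitAddCircle) :=
  continuous_finsetSum _ fun j _ => (continuous_apply j).zsmul (N j)

theorem ch_eq (N : Fin d → ℤ) (x : Tor d) : ch N x = (AddCircle.toCircle (pr N x) : ℂ) := by
  have h : ∀ s : Finset (Fin d), (AddCircle.toCircle (∑ i ∈ s, N i • x i) : ℂ) =
      ∏ i ∈ s, fourier (N i) (x i) := by
    intro s
    induction s using Finset.induction_on with
    | empty => simp
    | insert i s hi ih =>
      rw [Finset.sum_insert hi, Finset.prod_insert hi, AddCircle.toCircle_add, Circle.coe_mul, ih]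
      rfl
  exact (h Finset.univ).symm

theorem ch_add (N : Fin d → ℤ) (x y : Tor d) : ch N (x + y) = ch N x * ch N y := by
  rw [ch_eq, ch_eq, ch_eq, pr_add, AddCircle.toCircle_add, Circle.coe_mul]

theorem ch_zero (N : Fin d → ℤ) : ch N (0 : Tor d) = 1 := by
  rw [ch_eq, pr_zero]; simp

theorem add_ch (N N' : Fin d → ℤ) (x : Tor d) : ch (N + N') x = ch N x * ch N' x := by
  rw [ch_eq, ch_eq, ch_eq, add_pr, AddCircle.toCircle_add, Circle.coe_mul]

theorem norm_ch (N : Fin d → ℤ) (x : Tor d) : ‖ch N x‖ = 1 := by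
  rw [ch_eq]; simp

theorem ch_act (N : Fin d → ℤ) (A : Mat d) (x : Tor d) :
    ch N (act A x) = ch (Matrix.vecMul N A) x := by
  rw [ch_eq, ch_eq, pr_act]

theorem continuous_ch (N : Fin d → ℤ) : Continuous (ch N : Tor d → ℂ) :=
  (UnitAddTorus.mFourier N).continuous

theorem ch_proj (N : Fin d → ℤ) (t : Fin d → ℝ) :
    ch N (proj t) = Complex.exp (2 * Real.pi * (∑ i, (N i : ℝ) * t i : ℝ) * Complex.I) := by
  rw [ch_eq, pr_proj, AddCircle.toCircle_apply_mk, Circle.coe_exp]
  congr 1
  push_cast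
  ring

/-- a small translation changes a character little -/
theorem norm_ch_proj_sub_one (N : Fin d → ℤ) (t : Fin d → ℝ) :
    ‖ch N (proj t) - 1‖ ≤ 2 * Real.pi * vs N * ‖t‖ := by
  rw [ch_proj]
  have h0 : (2 * Real.pi * (∑ i, (N i : ℝ) * t i : ℝ) * Complex.I : ℂ) =
      Complex.I * ((2 * Real.pi * ∑ i, (N i : ℝ) * t i : ℝ) : ℂ) := by
    push_cast; ring
  rw [h0]
  have h1 := Real.norm_exp_I_mul_ofReal_sub_one_le (x := 2 * Real.pi * ∑ i, (N i : ℝ) * t i)
  refine h1.trans ?_
  rw [Real.norm_eq_abs, abs_mul, abs_of_pos Real.two_pi_pos, mul_assoc (2 * Real.pi)]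
  refine mul_le_mul_of_nonneg_left ?_ Real.two_pi_pos.le
  calc |∑ i, (N i : ℝ) * t i| ≤ ∑ i, |(N i : ℝ) * t i| := Finset.abs_sum_le_sum_abs _ _
    _ ≤ ∑ i, |(N i : ℝ)| * ‖t‖ := by
        refine Finset.sum_le_sum fun i _ => ?_
        rw [abs_mul]
        exact mul_le_mul_of_nonneg_left (norm_le_pi_norm t i) (abs_nonneg _)
    _ = vs N * ‖t‖ := by rw [vs, Finset.sum_mul]

theorem mem_ann {P : Set (Fin d → ℤ)} {x : Tor d} : x ∈ ann P ↔ ∀ N ∈ P, pr N x = 0 := Iff.rfl

theorem isClosed_ann (P : Set (Fin d → ℤ)) : IsClosed ((ann P : AddSubgroup (Tor d)) : Set (Tor d)) := by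
  have : ((ann P : AddSubgroup (Tor d)) : Set (Tor d)) = ⋂ N ∈ P, {x | pr N x = 0} := by
    ext x; simp [mem_ann]
  rw [this]
  exact isClosed_biInter fun N _ => isClosed_eq (continuous_pr N) continuous_const

theorem vs_nonneg (N : Fin d → ℤ) : 0 ≤ vs N := Finset.sum_nonneg fun _ _ => abs_nonneg _

theorem el_zero {s : ℕ} (A : Multiplicative (Fin s → ℕ) →* Mat d) : el A 0 = 1 := by
  show A (Multiplicative.ofAdd 0) = 1
  rw [ofAdd_zero, map_one]

theorem el_add {s : ℕ} (A : Multiplicative (Fin s → ℕ) →* Mat d) (m n : Fin s → ℕ) :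
    el A (m + n) = el A m * el A n := by
  show A (Multiplicative.ofAdd (m + n)) = _
  rw [ofAdd_add, map_mul]; rfl

theorem continuous_favg {s : ℕ} (A : Multiplicative (Fin s → ℕ) →* Mat d) (M : ℕ)
    (F : Finset (Fin s → ℕ)) (N : Fin d → ℤ) : Continuous (favg A M F N) := by
  unfold favg
  exact continuous_const.mul (continuous_finsetSum _ fun m _ =>
    (continuous_ch N).comp (continuous_act _))

end Pool.Agent.Work.MP_67388f_an.OG
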