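import Pool.Agent.Work.MP_67388f_an.OG.Bas

/-! # Module Cc1 (M): concentration at every scale

PROOF. Choose `R ≥ R₀` with `∑_{k ≥ 1} μ.real (G (R + k))ᶜ ≤ 1/2` (tail of a summable series). Cover the
torus by finitely many (say `Q ≥ 1`) Borel sets `W_i` such that for `x, y ∈ W_i` there is `t` with
`x - y = proj t`, `‖t‖ ≤ ρ ^ R`: images under `proj` of half open cubes of side `ρ^R` (or closed balls of
radius `ρ^R / 2` for the metric of the torus, compactness, and a lift of `x - y` of minimal norm).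
Put `κ = 1 / (2 Q)`, `D = C * ρ ^ R`. Let `n` be given. `K = {x | ∀ k ∈ [1, n], act (B ^ (n - k)) x ∈ G (R + k)}`
has `μ.real Kᶜ ≤ 1/2` (union bound; `μ` is invariant under `act (B^i)`, `act_pow`), so for some `i` the
set `E = K ∩ {x | act (B ^ n) x ∈ W_i}` has `μ.real E ≥ κ`; pick `x ∈ E`. Let `y ∈ E`. Take `t` with
`act (B^n) y - act (B^n) x = proj t`, `‖t‖ ≤ ρ^R`. Claim for `k ≤ n`:
`act (B^(n-k)) y - act (B^(n-k)) x - proj (((re B)⁻¹ ^ k).mulVec t) ∈ ann P`. `k = 0`: it is `0`. Step: put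
`θ` = the element for `k + 1`. `act B θ` = the element for `k` (`act_sub`, `act_mul`, `act_proj`, and
`re B * (re B)⁻¹ ^ (k+1) = (re B)⁻¹ ^ k` since `det (re B) = det B ≠ 0`), so it is in `ann P`, and `hP` with
`j = R + k + 1` (norm: `hexp`) gives `θ ∈ ann P`. For `k = n`: `y - x - proj s ∈ ann P` with
`‖s‖ ≤ C ρ^n ρ^R = D ρ^n`. So `E` is contained in the set of the statement. -/

set_option autoImplicit false

namespace Pool.Agent.Work.MP_67388f_an.OG

open MeasureTheory Filter Topology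
open scoped NNReal

/-- every point of the torus has a lift of the same norm -/
private theorem exists_lift {d : ℕ} (x : Tor d) : ∃ t : Fin d → ℝ, proj t = x ∧ ‖t‖ ≤ ‖x‖ := by
  obtain ⟨t, ht⟩ := proj_surj x
  refine ⟨fun i => t i - round (t i), ?_, ?_⟩
  · rw [← ht]
    funext i
    simp only [proj]
    rw [AddCircle.coe_sub]
    have : (((round (t i) : ℤ) : ℝ) : UnitAddCircle) = 0 := by
      have h := AddCircle.coe_zsmul (p := (1 : ℝ)) (n := round (t i)) (x := 1)
      rw [zsmul_eq_mul, mul_one] at h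
      rw [h, AddCircle.coe_period, smul_zero]
    rw [this, sub_zero]
  · rw [pi_norm_le_iff_of_nonneg (norm_nonneg _)]
    intro i
    have h1 : ‖x i‖ = |t i - round (t i)| := by
      rw [← ht]
      exact UnitAddCircle.norm_eq
    rw [Real.norm_eq_abs, ← h1]
    exact norm_le_pi_norm x i

theorem conc_scale {d : ℕ} (B : Mat d) (hdet : B.det ≠ 0) (C ρ : ℝ) (hC : 0 < C) (hρ0 : 0 < ρ)
    (hρ1 : ρ < 1)
    (hexp : ∀ (k : ℕ) (t : Fin d → ℝ), ‖((re B)⁻¹ ^ k).mulVec t‖ ≤ C * ρ ^ k * ‖t‖)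
    (P : Set (Fin d → ℤ)) (μ : Measure (Tor d)) [IsProbabilityMeasure μ]
    (hinv : μ.map (act B) = μ) (G : ℕ → Set (Tor d)) (hG : ∀ j, MeasurableSet (G j))
    (hsum : Summable fun j => μ.real (G j)ᶜ) (R₀ : ℕ)
    (hP : ∀ j, R₀ ≤ j → ∀ x ∈ G j, ∀ y ∈ G j, ∀ t : Fin d → ℝ, ‖t‖ ≤ C * ρ ^ j →
      act B (x - y - proj t) ∈ ann P → x - y - proj t ∈ ann P) :
    ∃ κ D : ℝ, 0 < κ ∧ 0 < D ∧ ∀ n : ℕ, ∃ x : Tor d,
      κ ≤ μ.real {y | ∃ s : Fin d → ℝ, ‖s‖ ≤ D * ρ ^ n ∧ y - x - proj s ∈ ann P} := by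
  classical
  have hmp : MeasurePreserving (act B) μ μ := ⟨measurable_act B, hinv⟩
  have hpre : ∀ (i : ℕ) (S : Set (Tor d)), MeasurableSet S →
      μ.real ((fun x => act (B ^ i) x) ⁻¹' S) = μ.real S := by
    intro i S hS
    have h1 : (fun x => act (B ^ i) x) = (act B)^[i] := by
      funext x; exact act_pow B i x
    rw [h1]
    exact (hmp.iterate i).measureReal_preimage hS.nullMeasurableSet
  -- the choice of `R`
  have htail := tendsto_sum_nat_add (fun j => μ.real (G j)ᶜ)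
  have hev : ∀ᶠ i in atTop, ∑' k, μ.real (G (k + i))ᶜ < 1 / 2 :=
    htail.eventually (gt_mem_nhds (by norm_num : (0 : ℝ) < 1 / 2))
  obtain ⟨R, hR1, hR0⟩ := (hev.and (eventually_ge_atTop R₀)).exists
  have hsR : Summable fun k => μ.real (G (k + R))ᶜ :=
    (summable_nat_add_iff R).mpr hsum
  set δ : ℝ := ρ ^ R with hδ
  have hδ0 : 0 < δ := pow_pos hρ0 R
  -- the cover
  obtain ⟨S, -, hSfin, hScov⟩ :=
    (isCompact_univ (X := Tor d)).finite_cover_balls (half_pos hδ0)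
  set F : Finset (Tor d) := hSfin.toFinset with hF
  have hFne : F.Nonempty := by
    by_contra h
    rw [Finset.not_nonempty_iff_eq_empty] at h
    have h0 : (0 : Tor d) ∈ ⋃ x ∈ S, Metric.ball x (δ / 2) := hScov (Set.mem_univ _)
    simp only [Set.mem_iUnion] at h0
    obtain ⟨x, hx, -⟩ := h0
    have : x ∈ F := hSfin.mem_toFinset.mpr hx
    rw [h] at this
    simp at this
  have hQ : (0 : ℝ) < F.card := by exact_mod_cast hFne.card_pos
  refine ⟨1 / (2 * F.card), C * δ, by positivity, by positivity, ?_⟩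
  intro n
  set K : Set (Tor d) := {x | ∀ k ∈ Finset.Icc 1 n, act (B ^ (n - k)) x ∈ G (k + R)} with hK
  have hKc : μ.real Kᶜ ≤ 1 / 2 := by
    have h1 : Kᶜ ⊆ ⋃ k ∈ Finset.Icc 1 n, (fun x => act (B ^ (n - k)) x) ⁻¹' (G (k + R))ᶜ := by
      intro x hx
      have h2 : ¬ ∀ k ∈ Finset.Icc 1 n, act (B ^ (n - k)) x ∈ G (k + R) := hx
      push Not at h2
      obtain ⟨k, hk, hk'⟩ := h2
      simp only [Set.mem_iUnion]
      exact ⟨k, hk, hk'⟩
    calc μ.real Kᶜ ≤ μ.real (⋃ k ∈ Finset.Icc 1 n,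
          (fun x => act (B ^ (n - k)) x) ⁻¹' (G (k + R))ᶜ) :=
          measureReal_mono h1 (measure_ne_top _ _)
      _ ≤ ∑ k ∈ Finset.Icc 1 n, μ.real ((fun x => act (B ^ (n - k)) x) ⁻¹' (G (k + R))ᶜ) :=
          measureReal_biUnion_finset_le _ _
      _ = ∑ k ∈ Finset.Icc 1 n, μ.real (G (k + R))ᶜ :=
          Finset.sum_congr rfl fun k _ => hpre _ _ (hG _).compl
      _ ≤ ∑' k, μ.real (G (k + R))ᶜ := hsR.sum_le_tsum _ fun _ _ => measureReal_nonneg
      _ ≤ 1 / 2 := hR1.le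
  have hKr : 1 / 2 ≤ μ.real K := by
    have h1 : μ.real (K ∪ Kᶜ) ≤ μ.real K + μ.real Kᶜ := measureReal_union_le K Kᶜ
    rw [Set.union_compl_self, probReal_univ] at h1
    linarith
  set E : Tor d → Set (Tor d) := fun c => K ∩ {x | act (B ^ n) x ∈ Metric.ball c (δ / 2)} with hE
  have hKsub : K ⊆ ⋃ c ∈ F, E c := by
    intro x hx
    have h0 : act (B ^ n) x ∈ ⋃ x ∈ S, Metric.ball x (δ / 2) := hScov (Set.mem_univ _)
    simp only [Set.mem_iUnion] at h0 ⊢
    obtain ⟨c, hc, hxc⟩ := h0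
    exact ⟨c, hSfin.mem_toFinset.mpr hc, hx, hxc⟩
  have hsumE : 1 / 2 ≤ ∑ c ∈ F, μ.real (E c) :=
    hKr.trans ((measureReal_mono hKsub (measure_ne_top _ _)).trans (measureReal_biUnion_finset_le _ _))
  obtain ⟨c, hcF, hc⟩ : ∃ c ∈ F, 1 / (2 * (F.card : ℝ)) ≤ μ.real (E c) := by
    by_contra h
    push Not at h
    have h1 : ∑ c ∈ F, μ.real (E c) < ∑ c ∈ F, 1 / (2 * (F.card : ℝ)) :=
      Finset.sum_lt_sum_of_nonempty hFne h
    rw [Finset.sum_const, nsmul_eq_mul] at h1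
    have h2 : (F.card : ℝ) * (1 / (2 * (F.card : ℝ))) = 1 / 2 := by
      field_simp
    rw [h2] at h1
    linarith
  have hEne : (E c).Nonempty := by
    by_contra h
    rw [Set.not_nonempty_iff_eq_empty] at h
    rw [h, measureReal_empty] at hc
    have : (0 : ℝ) < 1 / (2 * (F.card : ℝ)) := by positivity
    linarith
  obtain ⟨x, hxK, hxc⟩ := hEne
  refine ⟨x, hc.trans (measureReal_mono ?_ (measure_ne_top _ _))⟩
  rintro y ⟨hyK, hyc⟩
  have hdist : ‖act (B ^ n) y - act (B ^ n) x‖ ≤ δ := by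
    rw [← dist_eq_norm]
    have h1 : dist (act (B ^ n) y) c < δ / 2 := hyc
    have h2 : dist (act (B ^ n) x) c < δ / 2 := hxc
    have h3 := dist_triangle_right (act (B ^ n) y) (act (B ^ n) x) c
    linarith
  obtain ⟨t, ht, htn⟩ := exists_lift (act (B ^ n) y - act (B ^ n) x)
  have htδ : ‖t‖ ≤ δ := htn.trans hdist
  have hunit : IsUnit (re B).det := by
    rw [isUnit_iff_ne_zero]
    have h1 : (re B).det = ((B.det : ℤ) : ℝ) := by
      have := RingHom.map_det (Int.castRingHom ℝ) B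
      exact this.symm
    rw [h1]
    exact_mod_cast hdet
  have hkey : ∀ k, k ≤ n →
      act (B ^ (n - k)) y - act (B ^ (n - k)) x - proj (((re B)⁻¹ ^ k).mulVec t) ∈ ann P := by
    intro k
    induction k with
    | zero =>
      intro _
      rw [Nat.sub_zero, pow_zero, Matrix.one_mulVec, ht, sub_self]
      exact (ann P).zero_mem
    | succ k ih =>
      intro hk
      have ih' := ih (by omega)
      have hpow : B ^ (n - k) = B * B ^ (n - (k + 1)) := by
        rw [← pow_succ']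
        congr 1
        omega
      have hinvk : re B * (re B)⁻¹ ^ (k + 1) = (re B)⁻¹ ^ k := by
        rw [pow_succ', ← mul_assoc, Matrix.mul_nonsing_inv _ hunit, one_mul]
      have hact : act B (act (B ^ (n - (k + 1))) y - act (B ^ (n - (k + 1))) x -
          proj (((re B)⁻¹ ^ (k + 1)).mulVec t)) ∈ ann P := by
        rw [act_sub, act_sub, ← act_mul, ← act_mul, ← hpow, act_proj, Matrix.mulVec_mulVec,
          hinvk]
        exact ih'
      have hmem : k + 1 ∈ Finset.Icc 1 n := by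
        rw [Finset.mem_Icc]; omega
      refine hP (k + 1 + R) (by omega) _ (hyK (k + 1) hmem) _ (hxK (k + 1) hmem) _ ?_ hact
      refine (hexp (k + 1) t).trans ?_
      have h5 : C * ρ ^ (k + 1) * ‖t‖ ≤ C * ρ ^ (k + 1) * δ :=
        mul_le_mul_of_nonneg_left htδ (by positivity)
      have h6 : C * ρ ^ (k + 1 + R) = C * ρ ^ (k + 1) * δ := by
        rw [pow_add ρ (k + 1) R, ← mul_assoc]
      rw [h6]
      exact h5
  refine ⟨((re B)⁻¹ ^ n).mulVec t, ?_, ?_⟩
  · refine (hexp n t).trans ?_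
    have h1 : C * ρ ^ n * ‖t‖ ≤ C * ρ ^ n * δ := mul_le_mul_of_nonneg_left htδ (by positivity)
    linarith
  · have h1 := hkey n le_rfl
    rw [Nat.sub_self, pow_zero, act_one, act_one] at h1
    exact h1

end Pool.Agent.Work.MP_67388f_an.OG
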