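import Pool.Agent.Work.MP_67388f_an.OG.Bas

/-! # Module Cc2 (S-M): the limit of the concentration sets is a coset

PROOF. Take `x n` from `h`; the torus is compact (and metrizable), so a subsequence converges to `x`.
For `r > 0` let `E r = {y | ∃ s, ‖s‖ ≤ r ∧ y - x - proj s ∈ ann P}`. If `x n = x + proj s'`, `‖s'‖` small
(lift of `x n - x`, which tends to `0`), then the set for `n` is contained in `E r` as soon as
`‖s'‖ + D ρ^n ≤ r`; so `μ.real (E r) ≥ κ` for all `r > 0`. `E r` is closed (image of a compact set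
plus the closed `ann P`; or it is the preimage under continuous maps: `E r = {y | ∃ s ∈ closedBall 0 r, ...}`
= projection of a closed set along a compact set, `isClosed_ann`), decreasing in `r`, and
`⋂ E (1/(n+1)) = {y | y - x ∈ ann P}` (`y - x - proj s_n ∈ ann P`, `s_n → 0`, `ann P` closed). Continuity
from above: `μ {y | y - x ∈ ann P} = lim μ (E (1/(n+1))) ≥ κ > 0` (`tendsto_measure_iInter_atTop`). -/

set_option autoImplicit false

namespace Pool.Agent.Work.MP_67388f_an.OG

open MeasureTheory Filter Topology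
open scoped NNReal

private theorem cc2_lift {d : ℕ} (u : Tor d) : ∃ s : Fin d → ℝ, proj s = u ∧ ‖s‖ ≤ ‖u‖ := by
  have h1 : ∀ i, ∃ t : ℝ, ((t : ℝ) : UnitAddCircle) = u i ∧ |t| = ‖u i‖ := by
    intro i
    obtain ⟨a, ha⟩ := QuotientAddGroup.mk_surjective (u i)
    refine ⟨a - round a, ?_, ?_⟩
    · have h2 : ((a - round a : ℝ) : UnitAddCircle) = (a : UnitAddCircle) - ((round a : ℝ) : UnitAddCircle) := by
        push_cast
        rfl
      have h3 : (((round a : ℤ) : ℝ) : UnitAddCircle) = 0 := by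
        rw [AddCircle.coe_eq_zero_iff]
        exact ⟨round a, by simp⟩
      rw [h2, h3, sub_zero]
      exact ha
    · rw [← ha]
      exact (UnitAddCircle.norm_eq).symm
  choose s hs hs' using h1
  refine ⟨s, funext hs, ?_⟩
  rw [pi_norm_le_iff_of_nonneg (norm_nonneg _)]
  intro i
  rw [Real.norm_eq_abs, hs' i]
  exact norm_le_pi_norm u i

theorem conc_limit {d : ℕ} (P : Set (Fin d → ℤ)) (μ : Measure (Tor d)) [IsProbabilityMeasure μ]
    (κ D ρ : ℝ) (hκ : 0 < κ) (hD : 0 < D) (hρ0 : 0 < ρ) (hρ1 : ρ < 1)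
    (h : ∀ n : ℕ, ∃ x : Tor d,
      κ ≤ μ.real {y | ∃ s : Fin d → ℝ, ‖s‖ ≤ D * ρ ^ n ∧ y - x - proj s ∈ ann P}) :
    ∃ x : Tor d, 0 < μ {y | y - x ∈ ann P} := by
  choose x hx using h
  obtain ⟨x0, -, φ, hφ, hlim⟩ := isCompact_univ.tendsto_subseq (fun n => Set.mem_univ (x n))
  refine ⟨x0, ?_⟩
  set E : ℝ → Set (Tor d) := fun r => {y | ∃ s : Fin d → ℝ, ‖s‖ ≤ r ∧ y - x0 - proj s ∈ ann P} with hE
  have hann : IsClosed ((ann P : AddSubgroup (Tor d)) : Set (Tor d)) := isClosed_ann P
  have hEc : ∀ r, IsClosed (E r) := by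
    intro r
    have h1 : E r = (fun q : (Fin d → ℝ) × Tor d => x0 + proj q.1 + q.2) ''
        (Metric.closedBall (0 : Fin d → ℝ) r ×ˢ ((ann P : AddSubgroup (Tor d)) : Set (Tor d))) := by
      ext y
      constructor
      · rintro ⟨s, hs, hy⟩
        refine ⟨(s, y - x0 - proj s), ⟨by simpa using hs, hy⟩, ?_⟩
        simp
      · rintro ⟨⟨s, a⟩, ⟨hs, ha⟩, rfl⟩
        refine ⟨s, by simpa using hs, ?_⟩
        have e : x0 + proj s + a - x0 - proj s = a := by abel
        change x0 + proj s + a - x0 - proj s ∈ ann P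
        rw [e]
        exact ha
    rw [h1]
    refine (((isCompact_closedBall (0 : Fin d → ℝ) r).prod hann.isCompact).image ?_).isClosed
    exact (continuous_const.add (continuous_proj.comp continuous_fst)).add continuous_snd
  have hEκ : ∀ r : ℝ, 0 < r → κ ≤ μ.real (E r) := by
    intro r hr
    have h1 : Tendsto (fun n => ‖x (φ n) - x0‖ + D * ρ ^ (φ n)) atTop (𝓝 (0 + D * 0)) := by
      refine Tendsto.add ?_ (Tendsto.const_mul D ?_)
      · exact tendsto_iff_norm_sub_tendsto_zero.mp hlim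
      · exact (tendsto_pow_atTop_nhds_zero_of_lt_one hρ0.le hρ1).comp hφ.tendsto_atTop
    rw [mul_zero, add_zero] at h1
    obtain ⟨n, hn⟩ := (h1.eventually (eventually_le_nhds hr)).exists
    refine (hx (φ n)).trans (measureReal_mono ?_)
    rintro y ⟨s, hs, hy⟩
    obtain ⟨s', hs', hs'n⟩ := cc2_lift (x (φ n) - x0)
    refine ⟨s' + s, ?_, ?_⟩
    · exact (norm_add_le _ _).trans (by linarith)
    · have e : y - x0 - proj (s' + s) = y - x (φ n) - proj s := by
        rw [proj_add, hs']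
        abel
      rw [e]
      exact hy
  have hanti : Antitone fun n : ℕ => E (1 / ((n : ℝ) + 1)) := by
    intro n m hnm y hy
    obtain ⟨s, hs, hy⟩ := hy
    refine ⟨s, hs.trans ?_, hy⟩
    exact Nat.one_div_le_one_div hnm
  have hlim2 := tendsto_measure_iInter_atTop (μ := μ) (s := fun n : ℕ => E (1 / ((n : ℝ) + 1)))
    (fun n => (hEc _).measurableSet.nullMeasurableSet) hanti ⟨0, measure_ne_top _ _⟩
  have hge : ENNReal.ofReal κ ≤ μ (⋂ n : ℕ, E (1 / ((n : ℝ) + 1))) := by
    refine ge_of_tendsto' hlim2 fun n => ?_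
    have h1 := hEκ (1 / ((n : ℝ) + 1)) (by positivity)
    change ENNReal.ofReal κ ≤ μ (E (1 / ((n : ℝ) + 1)))
    rw [← ofReal_measureReal]
    exact ENNReal.ofReal_le_ofReal h1
  refine lt_of_lt_of_le (ENNReal.ofReal_pos.mpr hκ) (hge.trans (measure_mono ?_))
  intro y hy
  rw [Set.mem_iInter] at hy
  choose s hs hsy using hy
  have hs0 : Tendsto s atTop (𝓝 0) := by
    rw [tendsto_zero_iff_norm_tendsto_zero]
    exact squeeze_zero (fun n => norm_nonneg _) hs tendsto_one_div_add_atTop_nhds_zero_nat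
  have h1 : Tendsto (fun n => y - x0 - proj (s n)) atTop (𝓝 (y - x0 - proj (0 : Fin d → ℝ))) :=
    tendsto_const_nhds.sub ((continuous_proj.tendsto _).comp hs0)
  rw [proj_zero, sub_zero] at h1
  exact hann.mem_of_tendsto h1 (Eventually.of_forall hsy)

end Pool.Agent.Work.MP_67388f_an.OG
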