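import Pool.Agent.Work.MP_67388f_an.OG.Bas

/-! # Module Cnn (M): a saturated annihilator is connected

PROOF. `Λ = {N | ∀ h ∈ ann P, pr N h = 0}`, a subgroup (submodule) of `Fin d → ℤ` containing `P`, and saturated by
`hsat`: `k • N ∈ Λ`, `k ≠ 0` imply `N ∈ Λ`. So `(Fin d → ℤ) ⧸ Λ` is torsion free and finitely generated, hence
free (`Module.free_of_finite_type_torsion_free'`), hence projective, so `Λ` has a complement and the inclusion
`Λ → (Fin d → ℤ)` has a retraction `r` (`Module.projective_lifting_property`, or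
`Submodule.exists_isCompl_of_projective`-type lemma). Let `V = {t : Fin d → ℝ | ∀ N ∈ Λ, ∑ i, N i * t i = 0}`, a convex set
containing `0`. Claim `ann P = proj '' V`. `⊇`: `pr_proj`, `P ⊆ Λ`. `⊆`: let `x ∈ ann P`, `proj t' = x` (`proj_surj`).
For `N ∈ Λ`: `pr N x = 0` (definition of `Λ`), so `∑ N i * t' i = φ N` is an integer (`pr_proj`, `AddCircle.coe_eq_zero_iff`);
`φ : Λ → ℤ` is additive. Let `z i = φ (r (Pi.single i 1))`; then `∑ N i * z i = φ (r N) = φ N` for `N ∈ Λ`. `t = t' - z ∈ V`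
and `proj t = x`. Then `Convex.isPreconnected` / `(convex.isConnected ⟨0, _⟩).image proj continuous_proj.continuousOn`. -/

set_option autoImplicit false

namespace Pool.Agent.Work.MP_67388f_an.OG

open MeasureTheory Filter Topology
open scoped NNReal

theorem ann_connected {d : ℕ} (P : Set (Fin d → ℤ))
    (hsat : ∀ (k : ℤ) (N : Fin d → ℤ), k ≠ 0 → (∀ h ∈ ann P, pr (k • N) h = 0) →
      ∀ h ∈ ann P, pr N h = 0) :
    IsConnected ((ann P : AddSubgroup (Tor d)) : Set (Tor d)) := by
  classical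
  obtain ⟨Λ, hΛ⟩ : ∃ Λ : Submodule ℤ (Fin d → ℤ), ∀ N, N ∈ Λ ↔ ∀ h ∈ ann P, pr N h = 0 :=
    ⟨{ carrier := {N | ∀ h ∈ ann P, pr N h = 0}
       add_mem' := by
        intro N N' h1 h2 h hh
        rw [add_pr, h1 h hh, h2 h hh, add_zero]
       zero_mem' := by
        intro h _
        simp [pr]
       smul_mem' := by
        intro k N h1 h hh
        rw [zsmul_pr, h1 h hh, smul_zero] }, fun N => Iff.rfl⟩
  have htf : Module.IsTorsionFree ℤ ((Fin d → ℤ) ⧸ Λ) := by
    refine Module.IsTorsionFree.of_smul_eq_zero fun k x hx => ?_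
    obtain ⟨N, rfl⟩ := Submodule.Quotient.mk_surjective Λ x
    by_cases hk : k = 0
    · exact Or.inl hk
    · right
      rw [← Submodule.Quotient.mk_smul, Submodule.Quotient.mk_eq_zero, hΛ] at hx
      rw [Submodule.Quotient.mk_eq_zero, hΛ]
      exact hsat k N hk hx
  have hfree : Module.Free ℤ ((Fin d → ℤ) ⧸ Λ) := Module.free_of_finite_type_torsion_free'
  obtain ⟨σ, hσ⟩ := Module.projective_lifting_property Λ.mkQ LinearMap.id Λ.mkQ_surjective
  obtain ⟨r, hr⟩ : ∃ r : (Fin d → ℤ) →ₗ[ℤ] (Fin d → ℤ), r = LinearMap.id - σ ∘ₗ Λ.mkQ := ⟨_, rfl⟩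
  have hr1 : ∀ N, r N ∈ Λ := by
    intro N
    rw [← Submodule.Quotient.mk_eq_zero, hr]
    have h1 : Λ.mkQ (σ (Λ.mkQ N)) = Λ.mkQ N := LinearMap.congr_fun hσ (Λ.mkQ N)
    show Λ.mkQ (N - σ (Λ.mkQ N)) = 0
    rw [map_sub, h1, sub_self]
  have hr2 : ∀ N ∈ Λ, r N = N := by
    intro N hN
    have h1 : Λ.mkQ N = 0 := (Submodule.Quotient.mk_eq_zero Λ).2 hN
    rw [hr]
    show N - σ (Λ.mkQ N) = N
    rw [h1, map_zero, sub_zero]
  obtain ⟨V, hV⟩ : ∃ V : Set (Fin d → ℝ), V = {t | ∀ N ∈ Λ, ∑ i, (N i : ℝ) * t i = 0} := ⟨_, rfl⟩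
  have hVc : Convex ℝ V := by
    rw [hV]
    intro x hx y hy a b _ _ _ N hN
    have h1 := hx N hN
    have h2 := hy N hN
    have h3 : ∑ i, (N i : ℝ) * (a • x + b • y) i =
        a * ∑ i, (N i : ℝ) * x i + b * ∑ i, (N i : ℝ) * y i := by
      rw [Finset.mul_sum, Finset.mul_sum, ← Finset.sum_add_distrib]
      refine Finset.sum_congr rfl fun i _ => ?_
      simp only [Pi.add_apply, Pi.smul_apply, smul_eq_mul]
      ring
    rw [h3, h1, h2, mul_zero, mul_zero, add_zero]
  have hV0 : (0 : Fin d → ℝ) ∈ V := by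
    rw [hV]
    intro N _
    simp
  have himg : ((ann P : AddSubgroup (Tor d)) : Set (Tor d)) = proj '' V := by
    ext x
    constructor
    · intro hx
      obtain ⟨t', rfl⟩ := proj_surj x
      have hint : ∀ N ∈ Λ, ∃ n : ℤ, (n : ℝ) = ∑ i, (N i : ℝ) * t' i := by
        intro N hN
        have h1 := (hΛ N).1 hN _ hx
        rw [pr_proj, AddCircle.coe_eq_zero_iff] at h1
        obtain ⟨n, hn⟩ := h1
        exact ⟨n, by simpa using hn⟩
      choose! φ hφ using hint
      refine ⟨fun i => t' i - (φ (r (Pi.single i 1)) : ℝ), ?_, ?_⟩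
      · rw [hV]
        intro N hN
        have h1 : ∀ j, (N j : ℝ) = ∑ i, (N i : ℝ) * (r (Pi.single i 1) j : ℝ) := by
          intro j
          have h2 : N = ∑ i, N i • r (Pi.single i 1) := by
            have h3 : N = ∑ i, N i • (Pi.single i (1 : ℤ) : Fin d → ℤ) := by
              ext j
              simp [Finset.sum_apply, Pi.single_apply]
            calc N = r N := (hr2 N hN).symm
              _ = r (∑ i, N i • (Pi.single i (1 : ℤ) : Fin d → ℤ)) := by rw [← h3]
              _ = ∑ i, N i • r (Pi.single i 1) := by simp only [map_sum, map_smul]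
          have h3 := congrFun h2 j
          rw [Finset.sum_apply] at h3
          simp only [Pi.smul_apply, smul_eq_mul] at h3
          exact_mod_cast h3
        have h2 : ∑ i, (N i : ℝ) * (φ (r (Pi.single i 1)) : ℝ) = ∑ j, (N j : ℝ) * t' j := by
          calc ∑ i, (N i : ℝ) * (φ (r (Pi.single i 1)) : ℝ)
              = ∑ i, (N i : ℝ) * ∑ j, (r (Pi.single i 1) j : ℝ) * t' j :=
                Finset.sum_congr rfl fun i _ => by rw [hφ _ (hr1 _)]
            _ = ∑ j, (∑ i, (N i : ℝ) * (r (Pi.single i 1) j : ℝ)) * t' j := by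
                simp only [Finset.mul_sum, Finset.sum_mul]
                rw [Finset.sum_comm]
                exact Finset.sum_congr rfl fun j _ => Finset.sum_congr rfl fun i _ => by ring
            _ = ∑ j, (N j : ℝ) * t' j := Finset.sum_congr rfl fun j _ => by rw [← h1 j]
        simp only [mul_sub, Finset.sum_sub_distrib]
        rw [h2, sub_self]
      · funext i
        show ((t' i - (φ (r (Pi.single i 1)) : ℝ) : ℝ) : UnitAddCircle) = (t' i : UnitAddCircle)
        rw [AddCircle.coe_sub]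
        have h1 : (((φ (r (Pi.single i 1)) : ℝ)) : UnitAddCircle) = 0 := by
          rw [AddCircle.coe_eq_zero_iff]
          exact ⟨φ (r (Pi.single i 1)), by simp⟩
        rw [h1, sub_zero]
    · rintro ⟨t, ht, rfl⟩
      intro N hN
      rw [hV] at ht
      have h1 : N ∈ Λ := (hΛ N).2 fun h hh => hh N hN
      rw [pr_proj, ht N h1]
      rfl
  rw [himg]
  exact (hVc.isConnected ⟨0, hV0⟩).image proj continuous_proj.continuousOn

end Pool.Agent.Work.MP_67388f_an.OG
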