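import Pool.Agent.Work.MP_67388f_an.OG.Bas

/-! # Module Exa (S-M): contraction by the inverse of an expanding matrix

PROOF. Put `D = (re B)⁻¹`. `D ^ k → 0` entrywise; so some `k₀ ≥ 1` has all entries of `D ^ k₀` of
absolute value `≤ 1 / (2 (d + 1))`, hence `‖(D ^ k₀).mulVec t‖ ≤ (1/2) ‖t‖` (sup norm). For every matrix
`E`, `‖E.mulVec t‖ ≤ (∑ i j |E i j|) ‖t‖`. Let `C₀ = max over r < k₀ of (∑ |(D^r) i j|) + 1`. For
`k = k₀ a + r`: `‖D^k t‖ ≤ C₀ 2^(-a) ‖t‖ ≤ C ρ^k ‖t‖` with `ρ = (1/2)^(1/k₀)` (real power) and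
`C = 2 C₀` (`a ≥ k/k₀ - 1`). (If you prefer: scoped norm instances `Matrix.linftyOpNormedRing` etc.) -/

set_option autoImplicit false

namespace Pool.Agent.Work.MP_67388f_an.OG

open MeasureTheory Filter Topology
open scoped NNReal

private theorem mulVec_le_exa {d : ℕ} (E : Matrix (Fin d) (Fin d) ℝ) (t : Fin d → ℝ) :
    ‖E.mulVec t‖ ≤ (∑ i, ∑ j, |E i j|) * ‖t‖ := by
  have h0 : 0 ≤ (∑ i, ∑ j, |E i j|) := Finset.sum_nonneg fun i _ =>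
    Finset.sum_nonneg fun j _ => abs_nonneg _
  rw [pi_norm_le_iff_of_nonneg (mul_nonneg h0 (norm_nonneg _))]
  intro i
  rw [Real.norm_eq_abs]
  calc |E.mulVec t i| = |∑ j, E i j * t j| := rfl
    _ ≤ ∑ j, |E i j * t j| := Finset.abs_sum_le_sum_abs _ _
    _ ≤ ∑ j, |E i j| * ‖t‖ := by
        refine Finset.sum_le_sum fun j _ => ?_
        rw [abs_mul]
        exact mul_le_mul_of_nonneg_left (norm_le_pi_norm t j) (abs_nonneg _)
    _ = (∑ j, |E i j|) * ‖t‖ := by rw [Finset.sum_mul]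
    _ ≤ (∑ i, ∑ j, |E i j|) * ‖t‖ := by
        refine mul_le_mul_of_nonneg_right ?_ (norm_nonneg _)
        exact Finset.single_le_sum (f := fun i => ∑ j, |E i j|)
          (fun i _ => Finset.sum_nonneg fun j _ => abs_nonneg _) (Finset.mem_univ i)

theorem exists_contraction {d : ℕ} (B : Mat d) (hB : IsExpanding B) :
    ∃ C ρ : ℝ, 0 < C ∧ 0 < ρ ∧ ρ < 1 ∧ ∀ (k : ℕ) (t : Fin d → ℝ),
      ‖((re B)⁻¹ ^ k).mulVec t‖ ≤ C * ρ ^ k * ‖t‖ := by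
  obtain ⟨D, hD⟩ : ∃ D, D = (re B)⁻¹ := ⟨_, rfl⟩
  have hlim := hB.2
  rw [← hD] at hlim ⊢
  let S : Matrix (Fin d) (Fin d) ℝ → ℝ := fun E => ∑ i, ∑ j, |E i j|
  have hS0 : ∀ E, 0 ≤ S E := fun E => Finset.sum_nonneg fun i _ =>
    Finset.sum_nonneg fun j _ => abs_nonneg _
  have hScont : Continuous S := by
    refine continuous_finsetSum _ fun i _ => continuous_finsetSum _ fun j _ => ?_
    exact ((continuous_apply j).comp (continuous_apply i)).abs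
  have hSlim : Tendsto (fun k : ℕ => S (D ^ k)) atTop (𝓝 0) := by
    have h := (hScont.tendsto 0).comp hlim
    have h0 : S 0 = 0 := by simp [S]
    rw [h0] at h
    exact h
  obtain ⟨k₁, hk₁⟩ := Filter.eventually_atTop.1
    (hSlim.eventually (gt_mem_nhds (show (0 : ℝ) < 1 / 2 by norm_num)))
  obtain ⟨k₀, hk₀⟩ : ∃ k₀, k₀ = k₁ + 1 := ⟨_, rfl⟩
  have hk0pos : 0 < k₀ := by omega
  have hhalf : S (D ^ k₀) ≤ 1 / 2 := (hk₁ k₀ (by omega)).le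
  have hpow : ∀ (a : ℕ) (t : Fin d → ℝ), ‖((D ^ k₀) ^ a).mulVec t‖ ≤ (1 / 2) ^ a * ‖t‖ := by
    intro a
    induction a with
    | zero => intro t; simp
    | succ a ih =>
      intro t
      rw [pow_succ' (D ^ k₀), ← Matrix.mulVec_mulVec, pow_succ' (1 / 2 : ℝ)]
      calc ‖(D ^ k₀).mulVec (((D ^ k₀) ^ a).mulVec t)‖
          ≤ S (D ^ k₀) * ‖((D ^ k₀) ^ a).mulVec t‖ := mulVec_le_exa _ _
        _ ≤ 1 / 2 * ((1 / 2) ^ a * ‖t‖) :=
            mul_le_mul hhalf (ih t) (norm_nonneg _) (by norm_num)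
        _ = _ := by ring
  obtain ⟨C₀, hC₀⟩ : ∃ C₀, C₀ = ∑ r ∈ Finset.range k₀, S (D ^ r) + 1 := ⟨_, rfl⟩
  have hC0pos : 0 < C₀ := by
    have := Finset.sum_nonneg (s := Finset.range k₀) fun r _ => hS0 (D ^ r)
    linarith
  have hr : ∀ r, r < k₀ → S (D ^ r) ≤ C₀ := by
    intro r hr
    have := Finset.single_le_sum (f := fun r => S (D ^ r)) (fun r _ => hS0 (D ^ r))
      (Finset.mem_range.2 hr)
    have h2 : S (D ^ r) ≤ ∑ r ∈ Finset.range k₀, S (D ^ r) := this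
    linarith
  obtain ⟨ρ, hρ⟩ : ∃ ρ : ℝ, ρ = (1 / 2 : ℝ) ^ ((k₀ : ℝ)⁻¹) := ⟨_, rfl⟩
  have hρ0 : 0 < ρ := by rw [hρ]; positivity
  have hρ1 : ρ < 1 := by
    rw [hρ]
    exact Real.rpow_lt_one (by norm_num) (by norm_num) (by positivity)
  have hρk : ρ ^ k₀ = 1 / 2 := by
    rw [hρ]
    exact Real.rpow_inv_natCast_pow (by norm_num) hk0pos.ne'
  refine ⟨2 * C₀, ρ, by linarith, hρ0, hρ1, fun k t => ?_⟩
  have hk : k = k₀ * (k / k₀) + k % k₀ := (Nat.div_add_mod k k₀).symm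
  obtain ⟨a, ha⟩ : ∃ a, a = k / k₀ := ⟨_, rfl⟩
  obtain ⟨r, hrdef⟩ : ∃ r, r = k % k₀ := ⟨_, rfl⟩
  have hrlt : r < k₀ := by rw [hrdef]; exact Nat.mod_lt _ hk0pos
  rw [← ha, ← hrdef] at hk
  rw [hk]
  have h1 : (1 / 2 : ℝ) ^ a ≤ 2 * ρ ^ (k₀ * a + r) := by
    rw [pow_add, pow_mul, hρk]
    have h2 : (1 / 2 : ℝ) ≤ ρ ^ r := by
      rw [← hρk]
      exact pow_le_pow_of_le_one hρ0.le hρ1.le hrlt.le
    have h3 : (0 : ℝ) < (1 / 2) ^ a := by positivity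
    nlinarith
  rw [pow_add, pow_mul, ← Matrix.mulVec_mulVec]
  calc ‖((D ^ k₀) ^ a).mulVec ((D ^ r).mulVec t)‖
      ≤ (1 / 2) ^ a * ‖(D ^ r).mulVec t‖ := hpow _ _
    _ ≤ (2 * ρ ^ (k₀ * a + r)) * (C₀ * ‖t‖) := by
        refine mul_le_mul h1 ?_ (norm_nonneg _) (by positivity)
        exact (mulVec_le_exa _ _).trans (mul_le_mul_of_nonneg_right (hr r hrlt) (norm_nonneg _))
    _ = 2 * C₀ * ρ ^ (k₀ * a + r) * ‖t‖ := by ring

end Pool.Agent.Work.MP_67388f_an.OG
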