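import Pool.Agent.Work.MP_67388f_an.OG.Bas

/-! # Module Lip (S-M): growth of the action

PROOF. For one integer matrix `E`: `‖(re E).mulVec t‖ ≤ K(E) ‖t‖` and `LipschitzWith K(E) (act E)` with
`K(E) = ∑ i j |E i j|` (for the Lipschitz bound: `act E x - act E y = act E (x - y)` by `act_sub`, and
`‖∑ j, E i j • z j‖ ≤ ∑ j |E i j| ‖z‖`, `norm_zsmul_le`-type lemma; or lift `x - y = proj t` with
`‖t‖ = ‖x - y‖`). Let `L = 1 + ∑ i, K(el A (Pi.single i 1))`. Induction on `∑ i, m i`: if `m ≠ 0`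
choose `i` with `m i ≥ 1`, `m = Pi.single i 1 + m'`, `el_add`, `act_mul`, `re (E E') = re E * re E'`.
Second theorem: `ch N x - ch N y = ch N y (ch N (x - y) - 1)`; lift `x - y = proj t` with
`‖t‖ ≤ dist x y` (take each `t i` a representative of absolute value `‖(x - y) i‖`, e.g. `t - round t`,
`UnitAddCircle.norm_eq`), then `norm_ch_proj_sub_one`. -/

set_option autoImplicit false

namespace Pool.Agent.Work.MP_67388f_an.OG

open MeasureTheory Filter Topology
open scoped NNReal

private theorem lift_lip {d : ℕ} (x : Tor d) : ∃ t : Fin d → ℝ, proj t = x ∧ ‖t‖ ≤ ‖x‖ := by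
  obtain ⟨r, hr⟩ := proj_surj x
  refine ⟨fun i => r i - round (r i), ?_, ?_⟩
  · funext i
    have h1 : proj r i = x i := congrFun hr i
    rw [← h1]
    show ((r i - round (r i) : ℝ) : UnitAddCircle) = ((r i : ℝ) : UnitAddCircle)
    rw [AddCircle.coe_sub]
    have h2 : (((round (r i) : ℤ) : ℝ) : UnitAddCircle) = 0 := by
      rw [AddCircle.coe_eq_zero_iff]
      exact ⟨round (r i), by simp⟩
    rw [h2, sub_zero]
  · rw [pi_norm_le_iff_of_nonneg (norm_nonneg _)]
    intro i
    have h1 : proj r i = x i := congrFun hr i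
    calc ‖r i - round (r i)‖ = ‖((r i : ℝ) : UnitAddCircle)‖ := by
          rw [UnitAddCircle.norm_eq, Real.norm_eq_abs]
      _ = ‖x i‖ := by rw [← h1]; rfl
      _ ≤ ‖x‖ := norm_le_pi_norm x i

private theorem mulVec_le_lip {d : ℕ} (E : Matrix (Fin d) (Fin d) ℝ) (t : Fin d → ℝ) :
    ‖E.mulVec t‖ ≤ (∑ i, ∑ j, |E i j|) * ‖t‖ := by
  have h0 : 0 ≤ (∑ i, ∑ j, |E i j|) := Finset.sum_nonneg fun i _ =>
    Finset.sum_nonneg fun j _ => abs_nonneg _
  rw [pi_norm_le_iff_of_nonneg (mul_nonneg h0 (norm_nonneg _))]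
  intro i
  rw [Real.norm_eq_abs]
  calc |E.mulVec t i| = |∑ j, E i j * t j| := rfl
    _ ≤ ∑ j, |E i j * t j| := Finset.abs_sum_le_sum_abs _ _
    _ ≤ ∑ j, |E i j| * ‖t‖ := by
        refine Finset.sum_le_sum fun j _ => ?_
        rw [abs_mul]
        exact mul_le_mul_of_nonneg_left (norm_le_pi_norm t j) (abs_nonneg _)
    _ = (∑ j, |E i j|) * ‖t‖ := by rw [Finset.sum_mul]
    _ ≤ (∑ i, ∑ j, |E i j|) * ‖t‖ := by
        refine mul_le_mul_of_nonneg_right ?_ (norm_nonneg _)
        exact Finset.single_le_sum (f := fun i => ∑ j, |E i j|)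
          (fun i _ => Finset.sum_nonneg fun j _ => abs_nonneg _) (Finset.mem_univ i)

/-- growth constant of one matrix -/
private def GoodLip {d : ℕ} (c : ℝ≥0) (E : Mat d) : Prop :=
  (∀ t : Fin d → ℝ, ‖(re E).mulVec t‖ ≤ (c : ℝ) * ‖t‖) ∧ LipschitzWith c (act E)

private theorem good_of {d : ℕ} (c : ℝ≥0) (E : Mat d)
    (h : ∀ t : Fin d → ℝ, ‖(re E).mulVec t‖ ≤ (c : ℝ) * ‖t‖) : GoodLip c E := by
  refine ⟨h, LipschitzWith.of_dist_le_mul fun x y => ?_⟩
  rw [dist_eq_norm, dist_eq_norm, ← act_sub]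
  obtain ⟨t, ht, htn⟩ := lift_lip (x - y)
  rw [← ht, act_proj, ht]
  exact (norm_proj_le _).trans ((h t).trans (mul_le_mul_of_nonneg_left htn c.2))

private theorem re_mul_lip {d : ℕ} (E E' : Mat d) : re (E * E') = re E * re E' := by
  ext i j
  simp [re, Matrix.mul_apply]

private theorem good_mul {d : ℕ} {c c' : ℝ≥0} {E E' : Mat d} (h : GoodLip c E)
    (h' : GoodLip c' E') : GoodLip (c * c') (E * E') := by
  refine good_of _ _ fun t => ?_
  rw [re_mul_lip, ← Matrix.mulVec_mulVec, NNReal.coe_mul, mul_assoc]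
  exact (h.1 _).trans (mul_le_mul_of_nonneg_left (h'.1 t) c.2)

private theorem good_one {d : ℕ} : GoodLip 1 (1 : Mat d) := by
  refine good_of _ _ fun t => ?_
  have h : re (1 : Mat d) = 1 := by
    ext i j
    simp [re, Matrix.one_apply]
  rw [h, Matrix.one_mulVec, NNReal.coe_one, one_mul]

private theorem good_mono {d : ℕ} {c c' : ℝ≥0} {E : Mat d} (h : GoodLip c E)
    (hc : c ≤ c') : GoodLip c' E :=
  good_of _ _ fun t => (h.1 t).trans
    (mul_le_mul_of_nonneg_right (NNReal.coe_le_coe.2 hc) (norm_nonneg _))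

private theorem good_ex {d : ℕ} (E : Mat d) : ∃ c : ℝ≥0, GoodLip c E := by
  refine ⟨⟨∑ i, ∑ j, |re E i j|, Finset.sum_nonneg fun i _ =>
    Finset.sum_nonneg fun j _ => abs_nonneg _⟩, good_of _ _ fun t => ?_⟩
  exact mulVec_le_lip _ _

theorem exists_growth {s d : ℕ} (A : Multiplicative (Fin s → ℕ) →* Mat d) :
    ∃ L : ℝ≥0, 1 ≤ L ∧
      (∀ (m : Fin s → ℕ) (t : Fin d → ℝ),
        ‖(re (el A m)).mulVec t‖ ≤ (L : ℝ) ^ (∑ i, m i) * ‖t‖) ∧
      ∀ m : Fin s → ℕ, LipschitzWith (L ^ (∑ i, m i)) (act (el A m)) := by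
  classical
  choose c hc using fun i : Fin s => good_ex (el A (Pi.single i 1))
  obtain ⟨L, hL⟩ : ∃ L : ℝ≥0, L = 1 + ∑ i, c i := ⟨_, rfl⟩
  have hcL : ∀ i, c i ≤ L := by
    intro i
    rw [hL]
    exact (Finset.single_le_sum (f := c) (fun i _ => zero_le) (Finset.mem_univ i)).trans
      (le_add_of_nonneg_left zero_le)
  have key : ∀ (n : ℕ) (m : Fin s → ℕ), ∑ i, m i = n → GoodLip (L ^ n) (el A m) := by
    intro n
    induction n with
    | zero =>
      intro m hm
      have h0 : m = 0 := by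
        funext i
        exact (Finset.sum_eq_zero_iff.1 hm) i (Finset.mem_univ i)
      rw [h0, el_zero, pow_zero]
      exact good_one
    | succ n ih =>
      intro m hm
      have hex : ∃ i, m i ≠ 0 := by
        by_contra hno
        push Not at hno
        have : ∑ i, m i = 0 := Finset.sum_eq_zero fun i _ => hno i
        omega
      obtain ⟨i, hi⟩ := hex
      obtain ⟨m', hm'⟩ : ∃ m' : Fin s → ℕ, m' = Function.update m i (m i - 1) := ⟨_, rfl⟩
      have hsum : m = Pi.single i 1 + m' := by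
        funext j
        by_cases hj : j = i
        · subst hj
          rw [hm', Pi.add_apply, Pi.single_eq_same, Function.update_self]
          omega
        · rw [hm', Pi.add_apply, Pi.single_eq_of_ne hj, Function.update_of_ne hj, zero_add]
      have hn : ∑ j, m' j = n := by
        have h1 : ∑ j, m j = ∑ j, (Pi.single i 1 : Fin s → ℕ) j + ∑ j, m' j := by
          rw [← Finset.sum_add_distrib]
          exact Finset.sum_congr rfl fun j _ => congrFun hsum j
        rw [Finset.sum_pi_single'] at h1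
        simp only [Finset.mem_univ, if_true] at h1
        omega
      rw [hsum, el_add, pow_succ']
      exact good_mul (good_mono (hc i) (hcL i)) (ih m' hn)
  refine ⟨L, ?_, fun m t => ?_, fun m => (key _ m rfl).2⟩
  · rw [hL]
    exact le_add_of_nonneg_right zero_le
  · have := (key _ m rfl).1 t
    rw [NNReal.coe_pow] at this
    exact this

theorem exists_lift {d : ℕ} (x : Tor d) : ∃ t : Fin d → ℝ, proj t = x ∧ ‖t‖ ≤ ‖x‖ := by
  exact lift_lip x

theorem norm_ch_sub_le {d : ℕ} (N : Fin d → ℤ) (x y : Tor d) :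
    ‖ch N x - ch N y‖ ≤ 2 * Real.pi * vs N * dist x y := by
  have h1 : ch N x = ch N y * ch N (x - y) := by
    rw [← ch_add, add_sub_cancel]
  have h2 : ch N x - ch N y = ch N y * (ch N (x - y) - 1) := by
    rw [h1]; ring
  rw [h2, norm_mul, norm_ch, one_mul]
  obtain ⟨t, ht, htn⟩ := lift_lip (x - y)
  rw [← ht]
  refine (norm_ch_proj_sub_one N t).trans ?_
  rw [dist_eq_norm]
  refine mul_le_mul_of_nonneg_left htn ?_
  have := vs_nonneg N
  positivity

end Pool.Agent.Work.MP_67388f_an.OG
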