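import Pool.Agent.Work.MP_67388f_an.OG.Tors

/-! # Module Pair (S-M): two good points cannot differ by a bad torsion element

PROOF. `c` is the common approximate value. `x = y + θ + proj t`. For `m ∈ F`, with `E = el A (M • m)`:
`act E x = act E y + act E θ + proj ((re E).mulVec t)` (`act_add`, `act_proj`), and
`ch N (act E θ) = ch N θ` because `pr N (act E θ - θ) = 0` (`hθ`, `N ∈ P`). So
`ch N (act E x) = ch N (act E y) * ch N θ * ch N (proj ((re E).mulVec t))` and by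
`norm_ch_proj_sub_one` and `hL`,
`‖ch N (act E x) - ch N θ * ch N (act E y)‖ ≤ 2 π vs N * L ^ (M * ∑ m i) * ‖t‖ ≤ 2 π vs N * L ^ (M R) * ‖t‖`
(`∑ i, (M • m) i = M * ∑ i, m i`, `hF`, monotonicity of the real power). Average:
`‖favg x - ch N θ * favg y‖ ≤ 2 π vs N * L ^ (M R) * ‖t‖`. Hence
`‖c‖ * ‖1 - ch N θ‖ ≤ ‖c - favg x‖ + ‖favg x - ch N θ favg y‖ + ‖ch N θ‖ ‖favg y - c‖`, and
`‖1 - ch N θ‖ ≥ 4 / q` by `norm_toCircle_sub_one` and `ch_eq`. -/

set_option autoImplicit false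

namespace Pool.Agent.Work.MP_67388f_an.OG

open MeasureTheory Filter Topology
open scoped NNReal

private theorem phase_bound {s d : ℕ} (A : Multiplicative (Fin s → ℕ) →* Mat d)
    (P : Set (Fin d → ℤ)) (M : ℕ) (N : Fin d → ℤ) (hN : N ∈ P) (θ : Tor d)
    (hθ : ∀ m : Fin s → ℕ, act (el A (M • m)) θ - θ ∈ ann P) (L : ℝ) (hL1 : 1 ≤ L)
    (hL : ∀ (m : Fin s → ℕ) (t : Fin d → ℝ),
      ‖(re (el A m)).mulVec t‖ ≤ L ^ (∑ i, m i) * ‖t‖)
    (m : Fin s → ℕ) (R : ℝ) (hm : ((∑ i, m i : ℕ) : ℝ) ≤ R) (x y : Tor d) (t : Fin d → ℝ)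
    (hxy : x = y + θ + proj t) :
    ‖ch N (act (el A (M • m)) x) - ch N θ * ch N (act (el A (M • m)) y)‖ ≤
      2 * Real.pi * vs N * L ^ ((M : ℝ) * R) * ‖t‖ := by
  have h1 : ch N (act (el A (M • m)) θ) = ch N θ := by
    have h2 : pr N (act (el A (M • m)) θ - θ) = 0 := hθ m N hN
    rw [pr_sub, sub_eq_zero] at h2
    rw [ch_eq, ch_eq, h2]
  have h2 : ch N (act (el A (M • m)) x) = ch N θ * ch N (act (el A (M • m)) y) *
      ch N (proj ((re (el A (M • m))).mulVec t)) := by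
    rw [hxy, act_add, act_add, act_proj, ch_add, ch_add, h1]
    ring
  have h3 : ch N (act (el A (M • m)) x) - ch N θ * ch N (act (el A (M • m)) y) =
      ch N θ * ch N (act (el A (M • m)) y) *
        (ch N (proj ((re (el A (M • m))).mulVec t)) - 1) := by
    rw [h2]; ring
  rw [h3, norm_mul, norm_mul, norm_ch, norm_ch, one_mul, one_mul]
  refine (norm_ch_proj_sub_one N _).trans ?_
  have h4 := hL (M • m) t
  have h5 : (∑ i, (M • m) i) = M * ∑ i, m i := by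
    rw [Finset.mul_sum]
    exact Finset.sum_congr rfl fun i _ => rfl
  have h6 : L ^ (∑ i, (M • m) i) ≤ L ^ ((M : ℝ) * R) := by
    rw [h5, ← Real.rpow_natCast]
    refine Real.rpow_le_rpow_of_exponent_le hL1 ?_
    push_cast
    push_cast at hm
    exact mul_le_mul_of_nonneg_left hm (Nat.cast_nonneg _)
  have h7 : ‖(re (el A (M • m))).mulVec t‖ ≤ L ^ ((M : ℝ) * R) * ‖t‖ :=
    h4.trans (mul_le_mul_of_nonneg_right h6 (norm_nonneg _))
  have h8 : 0 ≤ 2 * Real.pi * vs N := mul_nonneg Real.two_pi_pos.le (vs_nonneg N)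
  calc 2 * Real.pi * vs N * ‖(re (el A (M • m))).mulVec t‖
      ≤ 2 * Real.pi * vs N * (L ^ ((M : ℝ) * R) * ‖t‖) := mul_le_mul_of_nonneg_left h7 h8
    _ = 2 * Real.pi * vs N * L ^ ((M : ℝ) * R) * ‖t‖ := by ring

theorem pair_bound {s d : ℕ} (A : Multiplicative (Fin s → ℕ) →* Mat d) (P : Set (Fin d → ℤ))
    (M : ℕ) (N : Fin d → ℤ) (hN : N ∈ P) (θ : Tor d)
    (hθ : ∀ m : Fin s → ℕ, act (el A (M • m)) θ - θ ∈ ann P) (q : ℕ) (hq : 0 < q)
    (hqθ : q • pr N θ = 0) (hne : pr N θ ≠ 0) (L : ℝ) (hL1 : 1 ≤ L)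
    (hL : ∀ (m : Fin s → ℕ) (t : Fin d → ℝ),
      ‖(re (el A m)).mulVec t‖ ≤ L ^ (∑ i, m i) * ‖t‖)
    (F : Finset (Fin s → ℕ)) (hF0 : F.Nonempty) (R : ℝ)
    (hF : ∀ m ∈ F, ((∑ i, m i : ℕ) : ℝ) ≤ R) (x y : Tor d) (t : Fin d → ℝ)
    (hxy : x = y + θ + proj t) (c : ℂ) (ε : ℝ) (hx : ‖favg A M F N x - c‖ ≤ ε)
    (hy : ‖favg A M F N y - c‖ ≤ ε) :
    ‖c‖ * (4 / q) ≤ 2 * ε + 2 * Real.pi * vs N * L ^ ((M : ℝ) * R) * ‖t‖ := by
  classical
  set D : ℝ := 2 * Real.pi * vs N * L ^ ((M : ℝ) * R) * ‖t‖ with hD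
  have hc0 : (0 : ℝ) < F.card := by exact_mod_cast hF0.card_pos
  have hcc : (F.card : ℂ) ≠ 0 := by exact_mod_cast hF0.card_pos.ne'
  -- the averages
  have h1 : favg A M F N x - ch N θ * favg A M F N y = (F.card : ℂ)⁻¹ *
      ∑ m ∈ F, (ch N (act (el A (M • m)) x) - ch N θ * ch N (act (el A (M • m)) y)) := by
    unfold favg
    rw [Finset.sum_sub_distrib, ← Finset.mul_sum]
    ring
  have h2 : ‖favg A M F N x - ch N θ * favg A M F N y‖ ≤ D := by
    rw [h1, norm_mul, norm_inv, Complex.norm_natCast]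
    have h3 : ‖∑ m ∈ F, (ch N (act (el A (M • m)) x) -
        ch N θ * ch N (act (el A (M • m)) y))‖ ≤ F.card * D := by
      refine (norm_sum_le _ _).trans ?_
      refine (Finset.sum_le_sum fun m hm =>
        phase_bound A P M N hN θ hθ L hL1 hL m R (hF m hm) x y t hxy).trans ?_
      rw [Finset.sum_const, nsmul_eq_mul]
    calc (F.card : ℝ)⁻¹ * ‖∑ m ∈ F, (ch N (act (el A (M • m)) x) -
          ch N θ * ch N (act (el A (M • m)) y))‖
        ≤ (F.card : ℝ)⁻¹ * (F.card * D) := mul_le_mul_of_nonneg_left h3 (by positivity)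
      _ = D := by rw [← mul_assoc, inv_mul_cancel₀ hc0.ne', one_mul]
  have h4 : c * (1 - ch N θ) = (c - favg A M F N x) +
      (favg A M F N x - ch N θ * favg A M F N y) + ch N θ * (favg A M F N y - c) := by ring
  have h5 : ‖c‖ * ‖1 - ch N θ‖ ≤ ε + D + ε := by
    rw [← norm_mul, h4]
    refine (norm_add₃_le).trans ?_
    rw [norm_mul, norm_ch, one_mul, norm_sub_rev c]
    linarith
  have h6 : 4 / (q : ℝ) ≤ ‖1 - ch N θ‖ := by
    rw [norm_sub_rev, ch_eq]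
    exact norm_toCircle_sub_one _ q hq hqθ hne
  have h7 : ‖c‖ * (4 / q) ≤ ‖c‖ * ‖1 - ch N θ‖ := mul_le_mul_of_nonneg_left h6 (norm_nonneg _)
  linarith

end Pool.Agent.Work.MP_67388f_an.OG
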