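import Pool.Agent.Work.MP_67388f_an.OG.Bas

/-! # Module Fgn (S): finitely many frequencies suffice

PROOF. `Fin d → ℤ` is a Noetherian ℤ-module, so `Submodule.span ℤ P` is finitely generated and by
`Submodule.fg_span_iff_fg_span_finset_subset` there is a finite `S ⊆ P` with the same span. If
`pr N x = 0` for all `N ∈ S`, then `{N | pr N x = 0}` is a subgroup (use `add_pr`, `zsmul_pr`)
containing `S`, hence containing `P` (`Submodule.span_induction`). -/

set_option autoImplicit false

namespace Pool.Agent.Work.MP_67388f_an.OG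

open MeasureTheory Filter Topology
open scoped NNReal

theorem exists_finset {d : ℕ} (P : Set (Fin d → ℤ)) :
    ∃ S : Finset (Fin d → ℤ), (∀ N ∈ S, N ∈ P) ∧
      ∀ x : Tor d, (∀ N ∈ S, pr N x = 0) → ∀ N ∈ P, pr N x = 0 := by
  have h1 : (Submodule.span ℤ P).FG := IsNoetherian.noetherian _
  obtain ⟨S, hSP, hS⟩ := (Submodule.fg_span_iff_fg_span_finset_subset P).1 h1
  refine ⟨S, fun N hN => hSP hN, fun x hx N hN => ?_⟩
  have h2 : N ∈ Submodule.span ℤ (S : Set (Fin d → ℤ)) := by
    rw [← hS]
    exact Submodule.subset_span hN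
  clear hN
  induction h2 using Submodule.span_induction with
  | mem N hN => exact hx N (by exact_mod_cast hN)
  | zero => simp [pr]
  | add N N' _ _ h3 h4 => rw [add_pr, h3, h4, add_zero]
  | smul k N _ h3 => rw [zsmul_pr, h3, smul_zero]

end Pool.Agent.Work.MP_67388f_an.OG
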