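import Pool.Agent.Work.MP_67388f_an.OG.Adj
import Pool.Agent.Work.MP_67388f_an.OG.Fgn

/-! # Module Per (M): the period on `B⁻¹ H / H`

PROOF. `H = ann P`, `K = {θ | act B θ ∈ H}` (a subgroup containing `H` by `hB`), `q = |det B| ≥ 1`.
(1) For `θ ∈ K`: `q • θ ∈ H` (`det_smul_mem`), so for `S` from `exists_finset P` the vector
`(pr N θ)_{N ∈ S}` lies in the finite set of functions `S → {z : UnitAddCircle | q • z = 0}`, and it
determines `θ` modulo `H` (`θ - θ' ∈ H` iff the vectors agree, by `exists_finset`). So `K / H` is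
finite. (The set `{z : UnitAddCircle | q • z = 0}` is finite: e.g. `AddCircle.finite_torsion`-type
lemma, or it is the image of `Finset.range q` under `i ↦ (i / q : ℝ)`.)
(2) `act (el A m)` maps `K` into `K` (it commutes with `act B`: `act_mul`, `hcomm`; `hA`) and `H` into
`H`, so it induces a map of `K / H`. It is injective: if `θ ∈ K` and `act (el A m) θ ∈ H`, then
`det (el A m) • θ ∈ H` (`det_smul_mem`, with `hA m`) and `det B • θ ∈ H`, so `θ ∈ H` by Bezout (`hcop`).
(3) So every `el A m` induces a permutation of the finite set `K / H`; with `M = (card (Perm (K/H)))`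
(positive) its `M`-th power is the identity (`pow_card_eq_one`); `el A (M • m) = (el A m)^M`
(`el_add` and induction, or `map_pow` and `ofAdd_nsmul`). So `act (el A (M • m)) θ - θ ∈ H`. -/

set_option autoImplicit false

namespace Pool.Agent.Work.MP_67388f_an.OG

open MeasureTheory Filter Topology
open scoped NNReal

private def actH {d : ℕ} (A : Mat d) : Tor d →+ Tor d :=
  AddMonoidHom.mk' (act A) (act_add A)

private theorem finite_tors (k : ℤ) (hk : k ≠ 0) : {z : UnitAddCircle | k • z = 0}.Finite := by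
  have h0 : 0 < k.natAbs := by omega
  refine (AddCircle.finite_torsion (1 : ℝ) h0).subset fun z hz => ?_
  have h1 : (addOrderOf z : ℤ) ∣ k := addOrderOf_dvd_iff_zsmul_eq_zero.mpr hz
  exact addOrderOf_dvd_iff_nsmul_eq_zero.mp (Int.natCast_dvd.mp h1)

private theorem el_nsmul {s d : ℕ} (A : Multiplicative (Fin s → ℕ) →* Mat d) (M : ℕ)
    (m : Fin s → ℕ) : el A (M • m) = el A m ^ M := by
  show A (Multiplicative.ofAdd (M • m)) = A (Multiplicative.ofAdd m) ^ M
  rw [ofAdd_nsmul, map_pow]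

theorem exists_period {s d : ℕ} (A : Multiplicative (Fin s → ℕ) →* Mat d) (B : Mat d)
    (hcomm : ∀ m, Commute (el A m) B) (hcop : ∀ m, IsCoprime (el A m).det B.det)
    (hdet : B.det ≠ 0) (P : Set (Fin d → ℤ))
    (hA : ∀ m, ∀ h ∈ ann P, act (el A m) h ∈ ann P) (hB : ∀ h ∈ ann P, act B h ∈ ann P) :
    ∃ M : ℕ, 0 < M ∧ ∀ (m : Fin s → ℕ) (θ : Tor d), act B θ ∈ ann P →
      act (el A (M • m)) θ - θ ∈ ann P := by
  classical
  obtain ⟨S, hS1, hS2⟩ := exists_finset P
  -- the group `K`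
  let K : AddSubgroup (Tor d) := (ann P).comap (actH B)
  have hK : ∀ θ : Tor d, θ ∈ K ↔ act B θ ∈ ann P := fun θ => Iff.rfl
  let w : K →+ (S → UnitAddCircle) := AddMonoidHom.mk' (fun θ N => pr N.1 θ.1)
    (fun a b => funext fun N => pr_add N.1 a.1 b.1)
  have hker : ∀ θ : K, θ ∈ w.ker ↔ θ.1 ∈ ann P := by
    intro θ
    rw [AddMonoidHom.mem_ker]
    constructor
    · intro h
      rw [mem_ann]
      refine hS2 θ.1 fun N hN => ?_
      exact congrFun h ⟨N, hN⟩
    · intro h
      funext N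
      exact h N.1 (hS1 N.1 N.2)
  have hfinr : (Set.range w).Finite := by
    refine Set.Finite.subset (s := Set.pi Set.univ fun _ : S =>
      {z : UnitAddCircle | B.det • z = 0}) (Set.Finite.pi fun _ => finite_tors B.det hdet) ?_
    rintro _ ⟨θ, rfl⟩ N _
    have h1 : B.det • θ.1 ∈ ann P := det_smul_mem (ann P) B hB θ.1 ((hK θ.1).mp θ.2)
    have h2 := h1 N.1 (hS1 N.1 N.2)
    rw [pr_zsmul] at h2
    exact h2
  have hfin : Finite (K ⧸ w.ker) := by
    have h1 : Finite w.range := hfinr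
    exact Finite.of_equiv _ (QuotientAddGroup.quotientKerEquivRange w).symm.toEquiv
  have hEm : ∀ (m : Fin s → ℕ) (θ : K), act (el A m) θ.1 ∈ K := by
    intro m θ
    rw [hK, ← act_mul, ← (hcomm m).eq, act_mul]
    exact hA m _ ((hK θ.1).mp θ.2)
  let E : (Fin s → ℕ) → K →+ K := fun m => AddMonoidHom.mk'
    (fun θ => ⟨act (el A m) θ.1, hEm m θ⟩)
    (fun a b => Subtype.ext (act_add _ a.1 b.1))
  have hE : ∀ m, w.ker ≤ w.ker.comap (E m) := by
    intro m θ hθ
    rw [AddSubgroup.mem_comap, hker]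
    exact hA m _ ((hker θ).mp hθ)
  let Φ : (Fin s → ℕ) → (K ⧸ w.ker) →+ (K ⧸ w.ker) := fun m =>
    QuotientAddGroup.map w.ker w.ker (E m) (hE m)
  have hΦ : ∀ m (θ : K), Φ m (θ : K ⧸ w.ker) = ((E m θ : K) : K ⧸ w.ker) := fun m θ => rfl
  have hinj : ∀ m, Function.Injective (Φ m) := by
    intro m
    rw [injective_iff_map_eq_zero]
    intro x hx
    induction x using QuotientAddGroup.induction_on with
    | H θ =>
      rw [hΦ, QuotientAddGroup.eq_zero_iff, hker] at hx
      rw [QuotientAddGroup.eq_zero_iff, hker]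
      have h1 : (el A m).det • θ.1 ∈ ann P := det_smul_mem (ann P) (el A m) (hA m) θ.1 hx
      have h2 : B.det • θ.1 ∈ ann P := det_smul_mem (ann P) B hB θ.1 ((hK θ.1).mp θ.2)
      obtain ⟨a, b, hab⟩ := hcop m
      have h3 : θ.1 = a • ((el A m).det • θ.1) + b • (B.det • θ.1) := by
        rw [← mul_smul, ← mul_smul, ← add_smul, hab, one_smul]
      rw [h3]
      exact add_mem (zsmul_mem h1 a) (zsmul_mem h2 b)
  refine ⟨Nat.card (Equiv.Perm (K ⧸ w.ker)), Nat.card_pos, fun m θ hθ => ?_⟩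
  obtain ⟨M, hM⟩ : ∃ M, M = Nat.card (Equiv.Perm (K ⧸ w.ker)) := ⟨_, rfl⟩
  rw [← hM]
  let σ : Equiv.Perm (K ⧸ w.ker) :=
    Equiv.ofBijective (Φ m) (Finite.injective_iff_bijective.mp (hinj m))
  have hσ : σ ^ M = 1 := by rw [hM]; exact pow_card_eq_one'
  let k : K := ⟨θ, hθ⟩
  have h1 : (Φ m)^[M] (k : K ⧸ w.ker) = (k : K ⧸ w.ker) := by
    have h2 : (Φ m : (K ⧸ w.ker) → (K ⧸ w.ker))^[M] = ⇑(σ ^ M) := Equiv.Perm.iterate_eq_pow σ M
    rw [h2, hσ]
    rfl
  have h2 : ∀ n : ℕ, (Φ m)^[n] (k : K ⧸ w.ker) = (((E m)^[n] k : K) : K ⧸ w.ker) := by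
    intro n
    induction n with
    | zero => rfl
    | succ n ih => rw [Function.iterate_succ_apply', ih, hΦ, Function.iterate_succ_apply']
  have h3 : ∀ n : ℕ, (((E m)^[n] k : K) : Tor d) = (act (el A m))^[n] θ := by
    intro n
    induction n with
    | zero => rfl
    | succ n ih =>
      rw [Function.iterate_succ_apply', Function.iterate_succ_apply', ← ih]
      rfl
  rw [h2 M, QuotientAddGroup.eq, hker] at h1
  have h4 : (-((E m)^[M] k) + k).1 = -(act (el A (M • m)) θ - θ) := by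
    change -(((E m)^[M] k : K) : Tor d) + θ = _
    rw [h3 M, el_nsmul, act_pow]
    abel
  rw [h4] at h1
  exact neg_mem_iff.mp h1

end Pool.Agent.Work.MP_67388f_an.OG
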