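import Pool.Agent.Work.MP_67388f_an.OG.Bas

/-! # Module Spt (S): the support of the Fourier transform is invariant

PROOF. `∫ ch (vecMul N A) dμ = ∫ ch N (act A x) dμ = ∫ ch N d(map) = ∫ ch N dμ` (`ch_act`,
`integral_map`). For `h ∈ ann (spt μ)`: `pr N (act A h) = pr (vecMul N A) h = 0` (`pr_act`). -/

set_option autoImplicit false

namespace Pool.Agent.Work.MP_67388f_an.OG

open MeasureTheory Filter Topology
open scoped NNReal

theorem vecMul_mem_spt {d : ℕ} (μ : Measure (Tor d)) (A : Mat d) (hA : μ.map (act A) = μ) :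
    ∀ N ∈ spt μ, Matrix.vecMul N A ∈ spt μ := by
  intro N hN
  show ∫ x, ch (Matrix.vecMul N A) x ∂μ ≠ 0
  have h1 : ∫ x, ch (Matrix.vecMul N A) x ∂μ = ∫ x, ch N x ∂μ := by
    conv_rhs => rw [← hA]
    rw [integral_map (measurable_act A).aemeasurable
      (continuous_ch N).aestronglyMeasurable]
    exact integral_congr_ae (Eventually.of_forall fun x => (ch_act N A x).symm)
  rw [h1]
  exact hN

theorem act_mem_ann_spt {d : ℕ} (μ : Measure (Tor d)) (A : Mat d) (hA : μ.map (act A) = μ) :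
    ∀ h ∈ ann (spt μ), act A h ∈ ann (spt μ) := by
  intro h hh N hN
  rw [pr_act]
  exact hh _ (vecMul_mem_spt μ A hA N hN)

end Pool.Agent.Work.MP_67388f_an.OG
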