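import Pool.Agent.Work.MP_67388f_an.OG.Fgn
import Pool.Agent.Work.MP_67388f_an.OG.Spt
import Pool.Agent.Work.MP_67388f_an.OG.Per
import Pool.Agent.Work.MP_67388f_an.OG.Pair
import Pool.Agent.Work.MP_67388f_an.OG.Exa
import Pool.Agent.Work.MP_67388f_an.OG.Lip
import Pool.Agent.Work.MP_67388f_an.OG.Cc1
import Pool.Agent.Work.MP_67388f_an.OG.Cc2

/-! # Module Core (M): sampling implies a coset of positive measure

PROOF. `P = spt μ`, invariant under all `act (el A m)` and `act B` (`act_mem_ann_spt`). `S` from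
`exists_finset P`, `M` from `exists_period`, `C, ρ` from `exists_contraction`, `L` from `exists_growth`,
`q = natAbs (det B) ≥ 1`. For `N ∈ S`: `c_N = ∫ ch N dμ ≠ 0`. If `S` is empty then `ann P` is everything
(`exists_finset`), take any `x`. Put `ε = min over N ∈ S of ‖c_N‖ / q` (or for each `N` its own `ε_N`),
`κ > 0` with `L ^ (M κ) ≤ ρ ^ (-1/2)` (e.g. `κ = log (1/ρ) / (2 M (1 + log L))`). `G_N` from `hS N M ε κ`,
`G j = ⋂_{N ∈ S} G_N j`; measurable, and `μ.real (G j)ᶜ ≤ ∑_N μ.real (G_N j)ᶜ` summable. Property `hP` of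
`conc_scale` for large `j`: let `x, y ∈ G j`, `‖t‖ ≤ C ρ^j`, `θ = x - y - proj t`, `act B θ ∈ ann P`. If
`θ ∉ ann P`, then `pr N θ ≠ 0` for some `N ∈ S`; `det B • θ ∈ ann P` (`det_smul_mem`), so
`q • pr N θ = 0`; `exists_period` gives `hθ` of `pair_bound`; take `F` from `G_N`; `R = κ j`;
`pair_bound`: `‖c_N‖ 4/q ≤ 2 ‖c_N‖/q + 2 π vs N ρ^(-j/2) C ρ^j`, which is false for `j ≥ R₀`. Apply
`conc_scale` and `conc_limit`. -/

set_option autoImplicit false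

namespace Pool.Agent.Work.MP_67388f_an.OG

open MeasureTheory Filter Topology
open scoped NNReal

private theorem core_kappa {L ρ M : ℝ} (hL : 1 ≤ L) (hρ0 : 0 < ρ) (hρ1 : ρ < 1) :
    ∃ κ : ℝ, 0 < κ ∧ L ^ (M * κ) * ρ < 1 := by
  have hL0 : L ≠ 0 := by positivity
  have h1 : Tendsto (fun κ : ℝ => L ^ (M * κ) * ρ) (𝓝 0) (𝓝 (L ^ (M * 0) * ρ)) := by
    have h2 : Tendsto (fun κ : ℝ => M * κ) (𝓝 0) (𝓝 (M * 0)) :=
      (continuous_const.mul continuous_id).tendsto 0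
    exact ((Real.continuousAt_const_rpow hL0).tendsto.comp h2).mul_const ρ
  rw [mul_zero, Real.rpow_zero, one_mul] at h1
  have h2 := (h1.eventually (gt_mem_nhds hρ1)).filter_mono
    (nhdsWithin_le_nhds (s := Set.Ioi (0 : ℝ)))
  obtain ⟨κ, h3, h4⟩ := (h2.and self_mem_nhdsWithin).exists
  exact ⟨κ, h4, h3⟩

theorem core {s d : ℕ} (A : Multiplicative (Fin s → ℕ) →* Mat d) (B : Mat d)
    (hcomm : ∀ m, Commute (el A m) B) (hcop : ∀ m, IsCoprime (el A m).det B.det)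
    (hB : IsExpanding B) (μ : Measure (Tor d)) [IsProbabilityMeasure μ]
    (hAinv : ∀ m, μ.map (act (el A m)) = μ) (hBinv : μ.map (act B) = μ) (hS : Samp A μ) :
    ∃ x : Tor d, 0 < μ {y | y - x ∈ ann (spt μ)} := by
  classical
  obtain ⟨S, hSP, hSann⟩ := exists_finset (spt μ)
  obtain ⟨M, hM, hper⟩ := exists_period A B hcomm hcop hB.1 (spt μ)
    (fun m => act_mem_ann_spt μ _ (hAinv m)) (act_mem_ann_spt μ B hBinv)
  obtain ⟨C, ρ, hC, hρ0, hρ1, hexp⟩ := exists_contraction B hB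
  obtain ⟨L, hL1, hL, -⟩ := exists_growth A
  have hL1' : (1 : ℝ) ≤ L := by exact_mod_cast hL1
  have hq : 0 < B.det.natAbs := Int.natAbs_pos.2 hB.1
  have hq' : (0 : ℝ) < B.det.natAbs := Nat.cast_pos.2 hq
  obtain ⟨κ, hκ, hκL⟩ := core_kappa (M := (M : ℝ)) hL1' hρ0 hρ1
  have hc : ∀ N ∈ S, 0 < ‖∫ z, ch N z ∂μ‖ := fun N hN => norm_pos_iff.2 (hSP N hN)
  have hG0 : ∀ N : Fin d → ℤ, ∃ G : ℕ → Set (Tor d), N ∈ S → (∀ j, MeasurableSet (G j)) ∧
      Summable (fun j => μ.real (G j)ᶜ) ∧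
      ∀ j, ∀ x ∈ G j, ∀ y ∈ G j, ∃ F : Finset (Fin s → ℕ), F.Nonempty ∧
        (∀ m ∈ F, ((∑ i, m i : ℕ) : ℝ) ≤ κ * j) ∧
        ‖favg A M F N x - ∫ z, ch N z ∂μ‖ ≤ ‖∫ z, ch N z ∂μ‖ / B.det.natAbs ∧
        ‖favg A M F N y - ∫ z, ch N z ∂μ‖ ≤ ‖∫ z, ch N z ∂μ‖ / B.det.natAbs := by
    intro N
    by_cases hN : N ∈ S
    · obtain ⟨G, h1, h2, h3⟩ := hS N M (‖∫ z, ch N z ∂μ‖ / B.det.natAbs) κ hM
        (div_pos (hc N hN) hq') hκ
      exact ⟨G, fun _ => ⟨h1, h2, h3⟩⟩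
    · exact ⟨fun _ => ∅, fun h => absurd h hN⟩
  choose G hG using hG0
  have hGm : ∀ j, MeasurableSet (⋂ N ∈ S, G N j) := fun j =>
    Finset.measurableSet_biInter S fun N hN => (hG N hN).1 j
  have hGs : Summable fun j => μ.real (⋂ N ∈ S, G N j)ᶜ := by
    refine Summable.of_nonneg_of_le (fun _ => measureReal_nonneg) (fun j => ?_)
      (summable_sum (s := S) (f := fun N j => μ.real (G N j)ᶜ) fun N hN => (hG N hN).2.1)
    have h1 : (⋂ N ∈ S, G N j)ᶜ = ⋃ N ∈ S, (G N j)ᶜ := by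
      simp only [Set.compl_iInter]
    rw [h1]
    exact measureReal_biUnion_finset_le S fun N => (G N j)ᶜ
  -- the small term
  have hsm : ∀ N : Fin d → ℤ, Tendsto (fun j : ℕ => 2 * Real.pi * vs N *
      (L : ℝ) ^ ((M : ℝ) * (κ * j)) * (C * ρ ^ j)) atTop (𝓝 0) := by
    intro N
    have h1 : ∀ j : ℕ, 2 * Real.pi * vs N * (L : ℝ) ^ ((M : ℝ) * (κ * j)) * (C * ρ ^ j) =
        2 * Real.pi * vs N * C * ((L : ℝ) ^ ((M : ℝ) * κ) * ρ) ^ j := by
      intro j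
      have h2 : (L : ℝ) ^ ((M : ℝ) * (κ * j)) = ((L : ℝ) ^ ((M : ℝ) * κ)) ^ j := by
        rw [← mul_assoc, Real.rpow_mul (by positivity), Real.rpow_natCast]
      rw [h2, mul_pow]
      ring
    simp only [h1]
    have h3 := (tendsto_pow_atTop_nhds_zero_of_lt_one (r := (L : ℝ) ^ ((M : ℝ) * κ) * ρ)
      (by positivity) hκL).const_mul (2 * Real.pi * vs N * C)
    rwa [mul_zero] at h3
  have hev : ∀ᶠ j : ℕ in atTop, ∀ N ∈ S, 2 * Real.pi * vs N *
      (L : ℝ) ^ ((M : ℝ) * (κ * j)) * (C * ρ ^ j) <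
        2 * (‖∫ z, ch N z ∂μ‖ / B.det.natAbs) := by
    rw [Filter.eventually_all_finset]
    intro N hN
    exact (hsm N).eventually (gt_mem_nhds (mul_pos two_pos (div_pos (hc N hN) hq')))
  obtain ⟨R₀, hR₀⟩ := eventually_atTop.1 hev
  obtain ⟨κ', D, hκ', hD, hfin⟩ := conc_scale B hB.1 C ρ hC hρ0 hρ1 hexp (spt μ) μ hBinv
    (fun j => ⋂ N ∈ S, G N j) hGm hGs R₀ (by
      intro j hj x hx y hy t ht hBθ
      by_contra hθ
      have hex : ∃ N ∈ S, pr N (x - y - proj t) ≠ 0 := by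
        by_contra h
        push Not at h
        exact hθ (hSann _ h)
      obtain ⟨N, hN, hNθ⟩ := hex
      have h1 : B.det • (x - y - proj t) ∈ ann (spt μ) :=
        det_smul_mem (ann (spt μ)) B (act_mem_ann_spt μ B hBinv) _ hBθ
      have h2 : B.det • pr N (x - y - proj t) = 0 := by
        rw [← pr_zsmul]
        exact h1 N (hSP N hN)
      have h3 : B.det.natAbs • pr N (x - y - proj t) = 0 := by
        rcases Int.natAbs_eq B.det with h | h
        · rw [h, natCast_zsmul] at h2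
          exact h2
        · rw [h, neg_smul, natCast_zsmul, neg_eq_zero] at h2
          exact h2
      obtain ⟨F, hF0, hF, hFx, hFy⟩ := (hG N hN).2.2 j x (Set.mem_iInter₂.1 hx N hN) y
        (Set.mem_iInter₂.1 hy N hN)
      have h4 := pair_bound A (spt μ) M N (hSP N hN) (x - y - proj t)
        (fun m => hper m _ hBθ) B.det.natAbs hq h3 hNθ L hL1' hL F hF0 (κ * j) hF x y t
        (by abel) (∫ z, ch N z ∂μ) (‖∫ z, ch N z ∂μ‖ / B.det.natAbs) hFx hFy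
      have h5 := hR₀ j hj N hN
      have hvs : 0 ≤ vs N := Finset.sum_nonneg fun _ _ => abs_nonneg _
      have h6 : 2 * Real.pi * vs N * (L : ℝ) ^ ((M : ℝ) * (κ * j)) * ‖t‖ ≤
          2 * Real.pi * vs N * (L : ℝ) ^ ((M : ℝ) * (κ * j)) * (C * ρ ^ j) :=
        mul_le_mul_of_nonneg_left ht (by positivity)
      have h7 : ‖∫ z, ch N z ∂μ‖ * (4 / (B.det.natAbs : ℝ)) =
          4 * (‖∫ z, ch N z ∂μ‖ / B.det.natAbs) := by ring
      rw [h7] at h4
      linarith)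
  exact conc_limit (spt μ) μ κ' D ρ hκ' hD hρ0 hρ1 hfin

end Pool.Agent.Work.MP_67388f_an.OG
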