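import Mathlib

/-! Definitions for the one generator theorem (project OG of MP_67388f_an). FIXED FILE. -/

set_option autoImplicit false

namespace Pool.Agent.Work.MP_67388f_an.OG

open MeasureTheory Filter Topology
open scoped NNReal

/-- the torus `(ℝ/ℤ)^d` -/
abbrev Tor (d : ℕ) : Type := UnitAddTorus (Fin d)

/-- integer square matrices -/
abbrev Mat (d : ℕ) : Type := Matrix (Fin d) (Fin d) ℤ

/-- the endomorphism of the torus with integer matrix `A` -/
def act {d : ℕ} (A : Mat d) (x : Tor d) : Tor d := fun i => ∑ j, A i j • x j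

/-- the pairing of an integer vector with a point of the torus -/
def pr {d : ℕ} (N : Fin d → ℤ) (x : Tor d) : UnitAddCircle := ∑ i, N i • x i

/-- the character of the torus with frequency `N` -/
noncomputable def ch {d : ℕ} (N : Fin d → ℤ) (x : Tor d) : ℂ := UnitAddTorus.mFourier N x

/-- the projection `ℝ^d → (ℝ/ℤ)^d` -/
def proj {d : ℕ} (t : Fin d → ℝ) : Tor d := fun i => ((t i : ℝ) : UnitAddCircle)

/-- the real matrix of an integer matrix -/
noncomputable def re {d : ℕ} (B : Mat d) : Matrix (Fin d) (Fin d) ℝ := B.map (fun z : ℤ => (z : ℝ))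

/-- size of an integer vector -/
noncomputable def vs {d : ℕ} (N : Fin d → ℤ) : ℝ := ∑ i, |(N i : ℝ)|

/-- the annihilator of a set of integer vectors, a subgroup of the torus -/
def ann {d : ℕ} (P : Set (Fin d → ℤ)) : AddSubgroup (Tor d) where
  carrier := {x | ∀ N ∈ P, pr N x = 0}
  zero_mem' := by
    intro N _
    simp [pr]
  add_mem' := by
    intro x y hx hy N hN
    have h1 : pr N x = 0 := hx N hN
    have h2 : pr N y = 0 := hy N hN
    have h3 : pr N (x + y) = pr N x + pr N y := by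
      simp [pr, smul_add, Finset.sum_add_distrib]
    rw [h3, h1, h2, add_zero]
  neg_mem' := by
    intro x hx N hN
    have h1 : pr N x = 0 := hx N hN
    have h3 : pr N (-x) = -pr N x := by
      simp [pr, smul_neg, Finset.sum_neg_distrib]
    rw [h3, h1, neg_zero]

/-- the frequencies of the nonzero Fourier coefficients of `μ` -/
def spt {d : ℕ} (μ : Measure (Tor d)) : Set (Fin d → ℤ) := {N | ∫ x, ch N x ∂μ ≠ 0}

/-- the matrix attached to the exponent vector `m` -/
def el {s d : ℕ} (A : Multiplicative (Fin s → ℕ) →* Mat d) (m : Fin s → ℕ) : Mat d :=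
  A (Multiplicative.ofAdd m)

/-- the average of the character `N` over the sample `F` of exponent vectors (multiplied by `M`) -/
noncomputable def favg {s d : ℕ} (A : Multiplicative (Fin s → ℕ) →* Mat d) (M : ℕ)
    (F : Finset (Fin s → ℕ)) (N : Fin d → ℤ) (x : Tor d) : ℂ :=
  (F.card : ℂ)⁻¹ * ∑ m ∈ F, ch N (act (el A (M • m)) x)

/-- the box `[0, n]^s` -/
def box (s n : ℕ) : Finset (Fin s → ℕ) := Fintype.piFinset fun _ => Finset.range (n + 1)

/-- Sampling property: for every scale `j` there is a good set `G j`, with summable complements,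
such that any two good points have a common sample in the range `κ j` for which the average of
the character `N` is within `ε` of its integral. -/
def Samp {s d : ℕ} (A : Multiplicative (Fin s → ℕ) →* Mat d) (μ : Measure (Tor d)) : Prop :=
  ∀ (N : Fin d → ℤ) (M : ℕ) (ε κ : ℝ), 0 < M → 0 < ε → 0 < κ →
    ∃ G : ℕ → Set (Tor d), (∀ j, MeasurableSet (G j)) ∧ Summable (fun j => μ.real (G j)ᶜ) ∧
      ∀ j, ∀ x ∈ G j, ∀ y ∈ G j, ∃ F : Finset (Fin s → ℕ), F.Nonempty ∧
        (∀ m ∈ F, ((∑ i, m i : ℕ) : ℝ) ≤ κ * j) ∧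
        ‖favg A M F N x - ∫ z, ch N z ∂μ‖ ≤ ε ∧ ‖favg A M F N y - ∫ z, ch N z ∂μ‖ ≤ ε

/-- complete convergence (Hsu-Robbins) of the averages over the boxes `[0, n]^s` -/
def CompleteConv {s d : ℕ} (A : Multiplicative (Fin s → ℕ) →* Mat d) (μ : Measure (Tor d)) :
    Prop :=
  ∀ (N : Fin d → ℤ) (M : ℕ) (ε : ℝ), 0 < M → 0 < ε →
    Summable fun n : ℕ => μ.real {x | ε < ‖favg A M (box s n) N x - ∫ z, ch N z ∂μ‖}

/-- the matrix `B` is expanding -/
def IsExpanding {d : ℕ} (B : Mat d) : Prop :=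
  B.det ≠ 0 ∧ Tendsto (fun k : ℕ => (re B)⁻¹ ^ k) atTop (𝓝 0)

/-- `T` is mixing at the rate `exp (-c n ^ γ)` on Lipschitz functions -/
def MixRate {X : Type} [PseudoEMetricSpace X] [MeasurableSpace X] (T : X → X) (μ : Measure X)
    (γ : ℝ) : Prop :=
  ∃ C c : ℝ, 0 < c ∧ ∀ (K K' : ℝ≥0) (f g : X → ℝ), LipschitzWith K f → LipschitzWith K' g →
    (∀ x, |f x| ≤ K) → (∀ x, |g x| ≤ K') → ∀ n : ℕ,
      |∫ x, f x * g (T^[n] x) ∂μ - (∫ x, f x ∂μ) * ∫ x, g x ∂μ| ≤
        C * K * K' * Real.exp (-c * (n : ℝ) ^ γ)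

end Pool.Agent.Work.MP_67388f_an.OG
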