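import Pool.Agent.Work.MP_67388f_an.OG.EDef

/-! # Module EArc (S-M): the arcs

PROOF. `arc b j i` is the image of a half open interval of length `≤ 1`; for `i < b^j` it is contained in the
fundamental domain `[0, 1)`, on which `t ↦ (t : UnitAddCircle)` is injective (`AddCircle.equivIco`, or
`AddCircle.coe_eq_coe_iff_of_mem_Ico`). Every `x` has a unique representative `t ∈ [0, 1)`, and
`x ∈ arc b j i` (for `i < b^j`) iff `i = ⌊b^j t⌋`. So the arcs `i < b^j` are disjoint and cover; measurable: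
the image of a Borel set under an injective Borel map on a standard Borel space, or
`AddCircle.measurableEquivIco`. (4): `b • x` has the representative `b t - ⌊b t⌋`; with `k = ⌊b t⌋ < b`,
`⌊b^(j+1) t⌋ = k b^j + ⌊b^j (b t - k)⌋`. -/

set_option autoImplicit false

namespace Pool.Agent.Work.MP_67388f_an.OG

open MeasureTheory Filter Topology
open scoped NNReal

private theorem rep (x : UnitAddCircle) : ∃ t : ℝ, 0 ≤ t ∧ t < 1 ∧ (t : UnitAddCircle) = x := by
  have h := (AddCircle.equivIco 1 0 x).2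
  refine ⟨(AddCircle.equivIco 1 0 x : ℝ), h.1, by simpa using h.2, ?_⟩
  exact (AddCircle.equivIco 1 0).symm_apply_apply x

private theorem inj1 {s t : ℝ} (hs : 0 ≤ s) (hs1 : s < 1) (ht : 0 ≤ t) (ht1 : t < 1)
    (h : (s : UnitAddCircle) = t) : s = t :=
  (AddCircle.coe_eq_coe_iff_of_mem_Ico (p := 1) (a := 0) ⟨hs, by linarith⟩
    ⟨ht, by linarith⟩).1 h

private theorem sub_Ico {b j i : ℕ} (hb : 2 ≤ b) (hi : i < b ^ j) {t : ℝ}
    (ht : t ∈ Set.Ico ((i : ℝ) / b ^ j) ((i + 1 : ℝ) / b ^ j)) :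
    (i : ℝ) ≤ b ^ j * t ∧ (b : ℝ) ^ j * t < i + 1 ∧ 0 ≤ t ∧ t < 1 := by
  have hb0 : (0 : ℝ) < b := by exact_mod_cast (by omega : 0 < b)
  have hbj : (0 : ℝ) < (b : ℝ) ^ j := by positivity
  obtain ⟨h1, h2⟩ := ht
  rw [div_le_iff₀ hbj] at h1
  rw [lt_div_iff₀ hbj] at h2
  have hi' : (i : ℝ) + 1 ≤ (b : ℝ) ^ j := by exact_mod_cast hi
  have hi0 : (0 : ℝ) ≤ i := Nat.cast_nonneg i
  refine ⟨by linarith, by linarith, ?_, ?_⟩
  · by_contra h
    push Not at h
    have := mul_neg_of_neg_of_pos h hbj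
    linarith
  · by_contra h
    push Not at h
    have := mul_le_mul_of_nonneg_right h hbj.le
    linarith

theorem measurableSet_arc (b j i : ℕ) (hb : 2 ≤ b) (hi : i < b ^ j) :
    MeasurableSet (arc b j i) := by
  unfold arc
  refine measurableSet_Ico.image_of_continuousOn_injOn
    (AddCircle.continuous_mk' (1 : ℝ)).continuousOn ?_
  intro s hs t ht h
  obtain ⟨-, -, h1, h2⟩ := sub_Ico hb hi hs
  obtain ⟨-, -, h3, h4⟩ := sub_Ico hb hi ht
  exact inj1 h1 h2 h3 h4 h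

theorem arc_disjoint (b j i i' : ℕ) (hb : 2 ≤ b) (hi : i < b ^ j) (hi' : i' < b ^ j)
    (hne : i ≠ i') : Disjoint (arc b j i) (arc b j i') := by
  rw [Set.disjoint_left]
  rintro x ⟨s, hs, rfl⟩ ⟨t, ht, hst⟩
  obtain ⟨a1, a2, h1, h2⟩ := sub_Ico hb hi hs
  obtain ⟨a3, a4, h3, h4⟩ := sub_Ico hb hi' ht
  have h5 : t = s := inj1 h3 h4 h1 h2 hst
  subst h5
  have h6 : (i : ℝ) < i' + 1 := by linarith
  have h7 : (i' : ℝ) < i + 1 := by linarith
  have h8 : i < i' + 1 := by exact_mod_cast h6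
  have h9 : i' < i + 1 := by exact_mod_cast h7
  omega

theorem arc_cover (b j : ℕ) (hb : 2 ≤ b) (x : UnitAddCircle) : ∃ i < b ^ j, x ∈ arc b j i := by
  obtain ⟨t, h0, h1, rfl⟩ := rep x
  have hb0 : (0 : ℝ) < b := by exact_mod_cast (by omega : 0 < b)
  have hbj : (0 : ℝ) < (b : ℝ) ^ j := by positivity
  have h2 : 0 ≤ (b : ℝ) ^ j * t := by positivity
  refine ⟨⌊(b : ℝ) ^ j * t⌋₊, ?_, t, ⟨?_, ?_⟩, rfl⟩
  · rw [Nat.floor_lt h2]
    push_cast
    nlinarith
  · rw [div_le_iff₀ hbj, mul_comm t]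
    exact Nat.floor_le h2
  · rw [lt_div_iff₀ hbj, mul_comm]
    exact Nat.lt_floor_add_one _

private theorem coe_nat_zero (k : ℤ) : ((k : ℝ) : UnitAddCircle) = 0 := by
  rw [AddCircle.coe_eq_zero_iff]
  exact ⟨k, by simp⟩

theorem nsmul_mem_arc_iff (b j i : ℕ) (hb : 2 ≤ b) (hi : i < b ^ j) (x : UnitAddCircle) :
    b • x ∈ arc b j i ↔ ∃ k < b, x ∈ arc b (j + 1) (k * b ^ j + i) := by
  have hb0 : (0 : ℝ) < b := by exact_mod_cast (by omega : 0 < b)
  have hbj : (0 : ℝ) < (b : ℝ) ^ j := by positivity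
  constructor
  · rintro ⟨s, hs, hsx⟩
    obtain ⟨a1, a2, h1, h2⟩ := sub_Ico hb hi hs
    obtain ⟨t, h3, h4, rfl⟩ := rep x
    have h5 : (((b : ℝ) * t - s : ℝ) : UnitAddCircle) = 0 := by
      rw [AddCircle.coe_sub, sub_eq_zero]
      have h6 : ((s : ℝ) : UnitAddCircle) = b • (t : UnitAddCircle) := hsx
      rw [h6, ← AddCircle.coe_nsmul, nsmul_eq_mul]
    rw [AddCircle.coe_eq_zero_iff] at h5
    obtain ⟨n, hn⟩ := h5
    have hn' : (n : ℝ) = b * t - s := by simpa using hn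
    have hb1 : (b : ℝ) * t < b := by nlinarith
    have hb2 : 0 ≤ (b : ℝ) * t := by positivity
    have n1 : (-1 : ℝ) < n := by linarith
    have n2 : (n : ℝ) < b := by linarith
    have n3 : -1 < n := by exact_mod_cast n1
    have n4 : n < b := by exact_mod_cast n2
    obtain ⟨k, rfl⟩ := Int.eq_ofNat_of_zero_le (show 0 ≤ n by omega)
    refine ⟨k, by exact_mod_cast n4, t, ⟨?_, ?_⟩, rfl⟩
    · rw [div_le_iff₀ (by positivity)]
      push_cast at hn' ⊢
      rw [pow_succ]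
      have : t * ((b : ℝ) ^ j * b) = b ^ j * (b * t) := by ring
      rw [this, show (b : ℝ) * t = k + s by linarith]
      nlinarith
    · rw [lt_div_iff₀ (by positivity)]
      push_cast at hn' ⊢
      rw [pow_succ]
      have : t * ((b : ℝ) ^ j * b) = b ^ j * (b * t) := by ring
      rw [this, show (b : ℝ) * t = k + s by linarith]
      nlinarith
  · rintro ⟨k, hk, t, ht, rfl⟩
    have hki : k * b ^ j + i < b ^ (j + 1) := by
      have h1 : (k + 1) * b ^ j ≤ b * b ^ j := Nat.mul_le_mul_right _ hk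
      rw [pow_succ]
      nlinarith
    obtain ⟨a1, a2, h1, h2⟩ := sub_Ico hb hki ht
    push_cast at a1 a2
    rw [pow_succ] at a1 a2
    refine ⟨(b : ℝ) * t - k, ⟨?_, ?_⟩, ?_⟩
    · rw [div_le_iff₀ hbj]
      nlinarith
    · rw [lt_div_iff₀ hbj]
      nlinarith
    · show (((b : ℝ) * t - k : ℝ) : UnitAddCircle) = b • (t : UnitAddCircle)
      rw [AddCircle.coe_sub, ← AddCircle.coe_nsmul, nsmul_eq_mul]
      have := coe_nat_zero k
      push_cast at this
      rw [this, sub_zero]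

end Pool.Agent.Work.MP_67388f_an.OG
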