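import Mathlib

/-! # Definitions for the circle part (project OG). FIXED FILE. -/

set_option autoImplicit false

namespace Pool.Agent.Work.MP_67388f_an.OG

open MeasureTheory Filter Topology
open scoped NNReal

/-- the arc `[i / b^j, (i+1) / b^j)` of the circle -/
def arc (b j i : ℕ) : Set UnitAddCircle :=
  (fun t : ℝ => (t : UnitAddCircle)) '' Set.Ico ((i : ℝ) / b ^ j) ((i + 1 : ℝ) / b ^ j)

/-- the entropy of `μ` on the `b ^ j` arcs of length `b ^ (-j)` -/
noncomputable def arcEnt (b j : ℕ) (μ : Measure UnitAddCircle) : ℝ :=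
  ∑ i ∈ Finset.range (b ^ j), Real.negMulLog (μ.real (arc b j i))

/-- the average of `e (N s x)` over the finite set `F` of integers `s` -/
noncomputable def cavg (F : Finset ℤ) (N : ℤ) (x : UnitAddCircle) : ℂ :=
  (F.card : ℂ)⁻¹ * ∑ s ∈ F, fourier N (s • x)

end Pool.Agent.Work.MP_67388f_an.OG
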