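import Pool.Agent.Work.MP_67388f_an.OG.EMain

/-! # Module ELog (M): summable correlations along `a` force entropy `O((log j)^2)`

PROOF. `c = ∫ fourier N dμ ≠ 0`, `c₀ = ‖c‖`, `ε = 1/2`: `l, j₀, δ` from `rate_entropy`. `M ≥ 1` with `a^M ≡ 1 mod b^l`
(Euler). `n j = ⌊κ j⌋₊` with `κ > 0`, `a^(M κ j) ≤ b^(j/2)`: `κ = log b / (2 M log a)`; for large `j`, `n j ≥ κ j / 2 ≥ 1`.
`F j = {a^(M i) : i < n j}` (injective as `a ≥ 2`, so `card = n j`). Variance: `∫ ‖cavg (F j) N - c‖² dμ ≤ C₁ / n j`: expand,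
`∫ fourier N (a^(M i) x) conj (fourier N (a^(M i') x)) dμ - ‖c‖²` is by `×a`-invariance the correlation
`∫ fourier N (a^(M |i-i'|) x) conj (fourier N x) dμ - ‖c‖²` or its conjugate, so the double sum is
`≤ 2 n ∑_k ‖corr k‖`. Chebyshev: `β_j ≤ C₂ / j`. For `0 ≤ β ≤ C₂/j ≤ 1/2`: `binEntropy β + β log b ≤ binEntropy (C₂/j) + (C₂/j) log b`
`≤ C₃ log j / j` for `j ≥ j₁ ≥ 2` (`binEntropy x ≤ negMulLog x + x` , i.e. `negMulLog (1-x) ≤ x`, and monotonicity on `[0, 1/2]`).
`arcEnt b J ≤ arcEnt b j₁ + ∑_{j₁ ≤ j < J} C₃ log j / j ≤ C₄ + C₃ log J (1 + log J) ≤ C (log J)²` for `J ≥ j₁`, and the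
finitely many `2 ≤ J < j₁` by enlarging `C` (`log J ≥ log 2 > 0`). -/

set_option autoImplicit false

namespace Pool.Agent.Work.MP_67388f_an.OG

open MeasureTheory Filter Topology
open scoped NNReal

/-- variance of the averages of a sequence with summable correlations -/
private theorem var_general {X : Type} [MeasurableSpace X] (μ : Measure X)
    [IsProbabilityMeasure μ] (f : ℕ → X → ℂ) (hf : ∀ i, AEStronglyMeasurable (f i) μ)
    (hb : ∀ i x, ‖f i x‖ ≤ 1) (c : ℂ) (hc : ∀ i, ∫ x, f i x ∂μ = c) (r : ℕ → ℝ)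
    (hr : Summable r) (hr0 : ∀ k, 0 ≤ r k)
    (hcorr : ∀ i k, ‖∫ x, f (i + k) x * (starRingEnd ℂ) (f i x) ∂μ -
      c * (starRingEnd ℂ) c‖ ≤ r k) (n : ℕ) (hn : 0 < n) :
    ∫ x, ‖(n : ℂ)⁻¹ * ∑ i ∈ Finset.range n, f i x - c‖ ^ 2 ∂μ ≤ 2 * (∑' k, r k) / n := by
  have hn' : (n : ℂ) ≠ 0 := by exact_mod_cast hn.ne'
  have hnr : (0 : ℝ) < n := by exact_mod_cast hn
  have hint : ∀ i, Integrable (f i) μ := fun i =>
    Integrable.of_bound (hf i) 1 (Eventually.of_forall (hb i))
  have hintc : ∀ i, Integrable (fun x => (starRingEnd ℂ) (f i x)) μ := fun i =>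
    Integrable.of_bound (Complex.continuous_conj.comp_aestronglyMeasurable (hf i)) 1
      (Eventually.of_forall fun x => by simpa using hb i x)
  have hint2 : ∀ i j, Integrable (fun x => f i x * (starRingEnd ℂ) (f j x)) μ := fun i j =>
    Integrable.of_bound ((hf i).mul (Complex.continuous_conj.comp_aestronglyMeasurable (hf j))) 1
      (Eventually.of_forall fun x => by
        rw [norm_mul, RCLike.norm_conj]
        exact mul_le_one₀ (hb i x) (norm_nonneg _) (hb j x))
  have hg : ∀ i j, Integrable (fun x => (f i x - c) * (starRingEnd ℂ) (f j x - c)) μ := by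
    intro i j
    have : (fun x => (f i x - c) * (starRingEnd ℂ) (f j x - c)) = fun x =>
        f i x * (starRingEnd ℂ) (f j x) - f i x * (starRingEnd ℂ) c -
          (c * (starRingEnd ℂ) (f j x) - c * (starRingEnd ℂ) c) := by
      funext x
      rw [map_sub]; ring
    rw [this]
    exact ((hint2 i j).sub ((hint i).mul_const _)).sub
      (((hintc j).const_mul _).sub (integrable_const _))
  have hgi : ∀ i j, ∫ x, (f i x - c) * (starRingEnd ℂ) (f j x - c) ∂μ =
      ∫ x, f i x * (starRingEnd ℂ) (f j x) ∂μ - c * (starRingEnd ℂ) c := by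
    intro i j
    have h1 : (fun x => (f i x - c) * (starRingEnd ℂ) (f j x - c)) = fun x =>
        (f i x * (starRingEnd ℂ) (f j x) - f i x * (starRingEnd ℂ) c) -
          (c * (starRingEnd ℂ) (f j x) - c * (starRingEnd ℂ) c) := by
      funext x
      rw [map_sub]; ring
    have h2 : ∫ x, (starRingEnd ℂ) (f j x) ∂μ = (starRingEnd ℂ) c := by
      rw [integral_conj, hc j]
    have e1 : Integrable (fun x => f i x * (starRingEnd ℂ) (f j x) - f i x * (starRingEnd ℂ) c) μ :=
      (hint2 i j).sub ((hint i).mul_const _)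
    have e2 : Integrable (fun x => c * (starRingEnd ℂ) (f j x) - c * (starRingEnd ℂ) c) μ :=
      ((hintc j).const_mul _).sub (integrable_const _)
    rw [h1, integral_sub e1 e2,
      integral_sub (hint2 i j) ((hint i).mul_const _),
      integral_sub ((hintc j).const_mul _) (integrable_const _), integral_mul_const, hc i,
      integral_const_mul, h2, integral_const]
    simp
  have hsq : ∀ x, ((‖(n : ℂ)⁻¹ * ∑ i ∈ Finset.range n, f i x - c‖ ^ 2 : ℝ) : ℂ) =
      ((n : ℂ)⁻¹) ^ 2 * ∑ i ∈ Finset.range n, ∑ j ∈ Finset.range n,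
        (f i x - c) * (starRingEnd ℂ) (f j x - c) := by
    intro x
    have h1 : (n : ℂ)⁻¹ * ∑ i ∈ Finset.range n, f i x - c =
        (n : ℂ)⁻¹ * ∑ i ∈ Finset.range n, (f i x - c) := by
      rw [Finset.sum_sub_distrib, Finset.sum_const, Finset.card_range, nsmul_eq_mul, mul_sub,
        ← mul_assoc, inv_mul_cancel₀ hn', one_mul]
    rw [h1]
    have h2 : ∀ z : ℂ, ((‖z‖ ^ 2 : ℝ) : ℂ) = z * (starRingEnd ℂ) z := by
      intro z
      rw [Complex.mul_conj, Complex.normSq_eq_norm_sq]
    rw [h2, map_mul, map_sum, map_inv₀, Complex.conj_natCast, ← Finset.sum_mul_sum]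
    ring
  have hI : ((∫ x, ‖(n : ℂ)⁻¹ * ∑ i ∈ Finset.range n, f i x - c‖ ^ 2 ∂μ : ℝ) : ℂ) =
      ((n : ℂ)⁻¹) ^ 2 * ∑ i ∈ Finset.range n, ∑ j ∈ Finset.range n,
        (∫ x, f i x * (starRingEnd ℂ) (f j x) ∂μ - c * (starRingEnd ℂ) c) := by
    rw [← integral_complex_ofReal]
    simp only [hsq]
    rw [integral_const_mul, integral_finsetSum _ fun i _ => integrable_finsetSum _ fun j _ => hg i j]
    congr 1
    refine Finset.sum_congr rfl fun i _ => ?_
    rw [integral_finsetSum _ fun j _ => hg i j]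
    exact Finset.sum_congr rfl fun j _ => hgi i j
  have hterm : ∀ i j, ‖∫ x, f i x * (starRingEnd ℂ) (f j x) ∂μ - c * (starRingEnd ℂ) c‖ ≤
      (if j ≤ i then r (i - j) else r (j - i)) := by
    intro i j
    split_ifs with h
    · have := hcorr j (i - j)
      rwa [Nat.add_sub_cancel' h] at this
    · have h3 := hcorr i (j - i)
      rw [Nat.add_sub_cancel' (not_le.mp h).le] at h3
      have h4 : ∫ x, f i x * (starRingEnd ℂ) (f j x) ∂μ - c * (starRingEnd ℂ) c =
          (starRingEnd ℂ) (∫ x, f j x * (starRingEnd ℂ) (f i x) ∂μ - c * (starRingEnd ℂ) c) := by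
        rw [map_sub, ← integral_conj, map_mul, Complex.conj_conj, mul_comm c]
        congr 1
        refine integral_congr_ae (Eventually.of_forall fun x => ?_)
        show _ = (starRingEnd ℂ) (f j x * (starRingEnd ℂ) (f i x))
        rw [map_mul, Complex.conj_conj, mul_comm]
      rw [h4, RCLike.norm_conj]
      exact h3
  have hrow : ∀ i, ∑ j ∈ Finset.range n, (if j ≤ i then r (i - j) else r (j - i)) ≤
      2 * ∑' k, r k := by
    intro i
    rw [Finset.sum_ite, two_mul]
    refine add_le_add ?_ ?_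
    · rw [← Finset.sum_image (f := r) (g := fun j => i - j)]
      · exact hr.sum_le_tsum _ fun k _ => hr0 k
      · intro x hx y hy hxy
        simp only [Finset.coe_filter, Set.mem_ofPred_eq] at hx hy
        have : i - x = i - y := hxy
        omega
    · rw [← Finset.sum_image (f := r) (g := fun j => j - i)]
      · exact hr.sum_le_tsum _ fun k _ => hr0 k
      · intro x hx y hy hxy
        simp only [Finset.coe_filter, Set.mem_ofPred_eq] at hx hy
        have : x - i = y - i := hxy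
        omega
  have hnn : 0 ≤ ∫ x, ‖(n : ℂ)⁻¹ * ∑ i ∈ Finset.range n, f i x - c‖ ^ 2 ∂μ :=
    integral_nonneg fun x => by positivity
  have h5 : ∫ x, ‖(n : ℂ)⁻¹ * ∑ i ∈ Finset.range n, f i x - c‖ ^ 2 ∂μ =
      ‖((∫ x, ‖(n : ℂ)⁻¹ * ∑ i ∈ Finset.range n, f i x - c‖ ^ 2 ∂μ : ℝ) : ℂ)‖ := by
    rw [Complex.norm_real, Real.norm_of_nonneg hnn]
  rw [h5, hI, norm_mul, norm_pow, norm_inv, Complex.norm_natCast]
  have h6 : ‖∑ i ∈ Finset.range n, ∑ j ∈ Finset.range n,
        (∫ x, f i x * (starRingEnd ℂ) (f j x) ∂μ - c * (starRingEnd ℂ) c)‖ ≤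
      n * (2 * ∑' k, r k) := by
    refine (norm_sum_le _ _).trans ?_
    have : ∀ i ∈ Finset.range n, ‖∑ j ∈ Finset.range n,
        (∫ x, f i x * (starRingEnd ℂ) (f j x) ∂μ - c * (starRingEnd ℂ) c)‖ ≤ 2 * ∑' k, r k :=
      fun i _ => (norm_sum_le _ _).trans
        ((Finset.sum_le_sum fun j _ => hterm i j).trans (hrow i))
    refine (Finset.sum_le_card_nsmul _ _ _ this).trans ?_
    rw [Finset.card_range, nsmul_eq_mul]
  calc ((n : ℝ)⁻¹) ^ 2 * ‖∑ i ∈ Finset.range n, ∑ j ∈ Finset.range n,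
        (∫ x, f i x * (starRingEnd ℂ) (f j x) ∂μ - c * (starRingEnd ℂ) c)‖
      ≤ ((n : ℝ)⁻¹) ^ 2 * (n * (2 * ∑' k, r k)) := by gcongr
    _ = 2 * (∑' k, r k) / n := by
        field_simp

private theorem binEntropy_le (x : ℝ) (hx1 : x ≤ 1 / 2) :
    Real.binEntropy x ≤ x * Real.log x⁻¹ + x := by
  unfold Real.binEntropy
  have h1 : 0 < (1 - x)⁻¹ := by
    apply inv_pos.mpr; linarith
  have h2 := Real.log_le_sub_one_of_pos h1
  have h3 : (1 - x) * Real.log (1 - x)⁻¹ ≤ (1 - x) * ((1 - x)⁻¹ - 1) :=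
    mul_le_mul_of_nonneg_left h2 (by linarith)
  have h4 : (1 - x) * ((1 - x)⁻¹ - 1) = x := by
    rw [mul_sub, mul_inv_cancel₀ (by linarith)]; ring
  linarith

/-- the entropy term for a small proportion of bad points -/
private theorem ent_term (b : ℕ) (K : ℝ) (hK : 1 ≤ K) (j : ℕ) (hj : 2 ≤ j)
    (hKj : K / j ≤ 1 / 2) (β : ℝ) (hβ0 : 0 ≤ β) (hβ : β ≤ K / j) :
    Real.binEntropy β + β * Real.log b ≤
      K * (1 + (1 + Real.log b) / Real.log 2) * (Real.log j / j) := by
  have hj0 : (0 : ℝ) < j := by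
    have : (2 : ℝ) ≤ j := by exact_mod_cast hj
    linarith
  have hK0 : 0 < K := by linarith
  have hx0 : 0 < K / j := by positivity
  have hlb : 0 ≤ Real.log b := Real.log_natCast_nonneg b
  have h1 : Real.binEntropy β ≤ Real.binEntropy (K / j) :=
    Real.binEntropy_strictMonoOn.monotoneOn ⟨hβ0, by linarith⟩
      ⟨hx0.le, by linarith⟩ hβ
  have h2 := binEntropy_le (K / j) hKj
  have h3 : Real.log (K / j)⁻¹ ≤ Real.log j := by
    rw [inv_div]
    apply Real.log_le_log (by positivity)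
    exact div_le_self hj0.le hK
  have h4 : K / j * Real.log (K / j)⁻¹ ≤ K / j * Real.log j :=
    mul_le_mul_of_nonneg_left h3 hx0.le
  have h5 : β * Real.log b ≤ K / j * Real.log b := mul_le_mul_of_nonneg_right hβ hlb
  have hl2 : 0 < Real.log 2 := Real.log_pos (by norm_num)
  have h6 : Real.log 2 ≤ Real.log j := Real.log_le_log (by norm_num) (by exact_mod_cast hj)
  have h7 : K / j * (1 + Real.log b) ≤
      K / j * ((1 + Real.log b) / Real.log 2 * Real.log j) := by
    refine mul_le_mul_of_nonneg_left ?_ hx0.le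
    rw [div_mul_eq_mul_div, le_div_iff₀ hl2]
    exact mul_le_mul_of_nonneg_left h6 (by linarith)
  calc Real.binEntropy β + β * Real.log b
      ≤ K / j * Real.log j + K / j + K / j * Real.log b := by linarith
    _ = K / j * Real.log j + K / j * (1 + Real.log b) := by ring
    _ ≤ K / j * Real.log j + K / j * ((1 + Real.log b) / Real.log 2 * Real.log j) := by
        linarith
    _ = K * (1 + (1 + Real.log b) / Real.log 2) * (Real.log j / j) := by
        field_simp

/-- increments of size `log j / j` sum to `log² j` -/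
private theorem log_sq_of_incr (h : ℕ → ℝ) (K : ℝ) (hK : 0 ≤ K) (j₁ : ℕ) (hj₁ : 2 ≤ j₁)
    (hinc : ∀ j, j₁ ≤ j → h (j + 1) - h j ≤ K * (Real.log j / j)) :
    ∃ C : ℝ, ∀ j : ℕ, 2 ≤ j → h j ≤ C * Real.log j ^ 2 := by
  have hl2 : 0 < Real.log 2 := Real.log_pos (by norm_num)
  set S : ℝ := ∑ i ∈ Finset.range (j₁ + 1), |h i| with hS
  have hS0 : 0 ≤ S := Finset.sum_nonneg fun _ _ => abs_nonneg _
  have hlog : ∀ j : ℕ, 2 ≤ j → Real.log 2 ≤ Real.log j := fun j hj =>
    Real.log_le_log (by norm_num) (by exact_mod_cast hj)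
  have hsmall : ∀ j : ℕ, 2 ≤ j → j ≤ j₁ → h j ≤ (K + S / Real.log 2 ^ 2) * Real.log j ^ 2 := by
    intro j hj hjj
    have h1 : h j ≤ S := (le_abs_self _).trans
      (Finset.single_le_sum (f := fun i => |h i|) (fun _ _ => abs_nonneg _)
        (Finset.mem_range.mpr (by omega)))
    have h2 : Real.log 2 ^ 2 ≤ Real.log j ^ 2 := pow_le_pow_left₀ hl2.le (hlog j hj) 2
    have h3 : S ≤ S / Real.log 2 ^ 2 * Real.log j ^ 2 := by
      rw [div_mul_eq_mul_div, le_div_iff₀ (by positivity)]
      exact mul_le_mul_of_nonneg_left h2 hS0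
    have h4 : 0 ≤ K * Real.log j ^ 2 := by positivity
    calc h j ≤ S := h1
      _ ≤ S / Real.log 2 ^ 2 * Real.log j ^ 2 := h3
      _ ≤ (K + S / Real.log 2 ^ 2) * Real.log j ^ 2 := by rw [add_mul]; linarith
  refine ⟨K + S / Real.log 2 ^ 2, ?_⟩
  intro j hj
  rcases le_total j j₁ with hjj | hjj
  · exact hsmall j hj hjj
  induction j, hjj using Nat.le_induction with
  | base => exact hsmall j₁ hj₁ le_rfl
  | succ m hm ih =>
    have hm2 : 2 ≤ m := hj₁.trans hm
    have h1 := ih hm2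
    have h2 := hinc m hm
    have hm0 : (0 : ℝ) < m := by
      have : (2 : ℝ) ≤ m := by exact_mod_cast hm2
      linarith
    have hlm : 0 < Real.log m := lt_of_lt_of_le hl2 (hlog m hm2)
    set C : ℝ := K + S / Real.log 2 ^ 2 with hC
    have hKC : K ≤ C := by
      rw [hC]
      have : 0 ≤ S / Real.log 2 ^ 2 := by positivity
      linarith
    have hC0 : 0 ≤ C := hK.trans hKC
    -- the increment of the square of the logarithm
    have h3 : Real.log m / m ≤ Real.log ((m + 1 : ℕ) : ℝ) ^ 2 - Real.log m ^ 2 := by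
      have h4 : 1 / ((m : ℝ) + 1) ≤ Real.log ((m + 1 : ℕ) : ℝ) - Real.log m := by
        have h5 := Real.one_sub_inv_le_log_of_pos (x := ((m : ℝ) + 1) / m) (by positivity)
        rw [Real.log_div (by positivity) hm0.ne'] at h5
        have h6 : 1 - (((m : ℝ) + 1) / m)⁻¹ = 1 / ((m : ℝ) + 1) := by
          field_simp
          ring
        rw [h6] at h5
        push_cast
        exact h5
      have h7 : Real.log m ≤ Real.log ((m + 1 : ℕ) : ℝ) :=
        Real.log_le_log hm0 (by push_cast; linarith)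
      have h8 : 1 / (m : ℝ) ≤ 1 / ((m : ℝ) + 1) * 2 := by
        have : (1 : ℝ) ≤ m := by
          have : (2 : ℝ) ≤ m := by exact_mod_cast hm2
          linarith
        rw [div_mul_eq_mul_div, div_le_div_iff₀ hm0 (by positivity)]
        linarith
      calc Real.log m / m = Real.log m * (1 / m) := by ring
        _ ≤ Real.log m * (1 / ((m : ℝ) + 1) * 2) := mul_le_mul_of_nonneg_left h8 hlm.le
        _ = (1 / ((m : ℝ) + 1)) * (Real.log m + Real.log m) := by ring
        _ ≤ (Real.log ((m + 1 : ℕ) : ℝ) - Real.log m) *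
            (Real.log ((m + 1 : ℕ) : ℝ) + Real.log m) := by
            refine mul_le_mul h4 (by linarith) (by linarith) (by linarith)
        _ = _ := by ring
    have h9 : 0 ≤ Real.log m / m := by positivity
    calc h (m + 1) ≤ h m + K * (Real.log m / m) := by linarith
      _ ≤ C * Real.log m ^ 2 + C * (Real.log m / m) :=
          add_le_add h1 (mul_le_mul_of_nonneg_right hKC h9)
      _ ≤ C * Real.log m ^ 2 +
          C * (Real.log ((m + 1 : ℕ) : ℝ) ^ 2 - Real.log m ^ 2) :=
          add_le_add le_rfl (mul_le_mul_of_nonneg_left h3 hC0)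
      _ = C * Real.log ((m + 1 : ℕ) : ℝ) ^ 2 := by ring

private theorem fourier_zsmul (N s : ℤ) (x : UnitAddCircle) :
    fourier N (s • x) = fourier (N * s) x := by
  rw [fourier_apply, fourier_apply, mul_smul]

private theorem norm_fourier_apply (N : ℤ) (x : UnitAddCircle) : ‖(fourier N x : ℂ)‖ = 1 := by
  rw [fourier_apply]
  exact Circle.norm_coe _

theorem log_entropy (a b : ℕ) (ha : 2 ≤ a) (hb : 2 ≤ b) (hab : Nat.Coprime a b)
    (μ : Measure UnitAddCircle) [IsProbabilityMeasure μ] (hA : μ.map (fun x => a • x) = μ)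
    (hB : μ.map (fun x => b • x) = μ) (N : ℤ) (hN : N ≠ 0)
    (hc : ∫ x, fourier N x ∂μ ≠ 0)
    (hcorr : Summable fun n : ℕ => ‖(∫ x, fourier (N * ((a : ℤ) ^ n - 1)) x ∂μ) -
      (∫ x, fourier N x ∂μ) * (starRingEnd ℂ) (∫ x, fourier N x ∂μ)‖) :
    ∃ C : ℝ, ∀ j : ℕ, 2 ≤ j → arcEnt b j μ ≤ C * Real.log j ^ 2 := by
  set c : ℂ := ∫ x, fourier N x ∂μ with hcdef
  have hc0 : 0 < ‖c‖ := norm_pos_iff.mpr hc
  obtain ⟨l, j₀, δ, hl, hδ, hrate⟩ := rate_entropy b hb N hN ‖c‖ (1 / 2) hc0 (by norm_num)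
  -- Euler
  set M : ℕ := Nat.totient (b ^ l) with hM
  have hMpos : 0 < M := Nat.totient_pos.mpr (pow_pos (by omega) l)
  have haM : (a : ℤ) ^ M ≡ 1 [ZMOD (b : ℤ) ^ l] := by
    have h1 : a ^ M ≡ 1 [MOD b ^ l] := Nat.ModEq.pow_totient (hab.pow_right l)
    have h2 := (Int.natCast_modEq_iff (a := a ^ M) (b := 1) (n := b ^ l)).mpr h1
    push_cast at h2
    exact h2
  have hMr : (0 : ℝ) < M := by exact_mod_cast hMpos
  have hla : 0 < Real.log a := Real.log_pos (by exact_mod_cast ha)
  have hlb : 0 < Real.log b := Real.log_pos (by exact_mod_cast hb)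
  have ha0 : (0 : ℝ) < a := by
    have : (2 : ℝ) ≤ a := by exact_mod_cast ha
    linarith
  have hb0 : (0 : ℝ) < b := by
    have : (2 : ℝ) ≤ b := by exact_mod_cast hb
    linarith
  set κ : ℝ := Real.log b / (2 * M * Real.log a) with hκ
  have hκ0 : 0 < κ := by positivity
  -- invariance under the powers of `a`
  have hmap : ∀ k : ℕ, μ.map (fun x : UnitAddCircle => ((a : ℤ) ^ k) • x) = μ := by
    intro k
    induction k with
    | zero =>
      have : (fun x : UnitAddCircle => ((a : ℤ) ^ 0) • x) = id := by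
        funext x; simp
      rw [this, Measure.map_id]
    | succ m ih =>
      have h1 : (fun x : UnitAddCircle => ((a : ℤ) ^ (m + 1)) • x) =
          (fun x : UnitAddCircle => ((a : ℤ) ^ m) • x) ∘ (fun x => a • x) := by
        funext x
        show ((a : ℤ) ^ (m + 1)) • x = ((a : ℤ) ^ m) • (a • x)
        rw [pow_succ, mul_smul, natCast_zsmul]
      rw [h1, ← Measure.map_map (continuous_zsmul _).measurable
        (continuous_nsmul _).measurable, hA, ih]
  -- the functions
  let f : ℕ → UnitAddCircle → ℂ := fun i x => fourier N (((a : ℤ) ^ (M * i)) • x)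
  have hfc : ∀ i, Continuous (f i) := fun i =>
    (fourier N).continuous.comp (continuous_zsmul _)
  have hfint : ∀ i, ∫ x, f i x ∂μ = c := by
    intro i
    rw [hcdef]
    conv_rhs => rw [← hmap (M * i)]
    rw [integral_map (continuous_zsmul _).measurable.aemeasurable
      (fourier N).continuous.aestronglyMeasurable]
  let r : ℕ → ℝ := fun k => ‖(∫ x, fourier (N * ((a : ℤ) ^ (M * k) - 1)) x ∂μ) -
      c * (starRingEnd ℂ) c‖
  have hr : Summable r := by
    have hinj : Function.Injective (fun k : ℕ => M * k) := fun x y hxy =>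
      Nat.eq_of_mul_eq_mul_left hMpos hxy
    exact hcorr.comp_injective hinj
  have hfcorr : ∀ i k, ‖∫ x, f (i + k) x * (starRingEnd ℂ) (f i x) ∂μ -
      c * (starRingEnd ℂ) c‖ ≤ r k := by
    intro i k
    have h1 : ∫ x, f (i + k) x * (starRingEnd ℂ) (f i x) ∂μ =
        ∫ x, fourier (N * ((a : ℤ) ^ (M * k) - 1)) x ∂μ := by
      conv_rhs => rw [← hmap (M * i)]
      rw [integral_map (continuous_zsmul _).measurable.aemeasurable
        (fourier _).continuous.aestronglyMeasurable]
      refine integral_congr_ae (Eventually.of_forall fun x => ?_)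
      show fourier N (((a : ℤ) ^ (M * (i + k))) • x) *
        (starRingEnd ℂ) (fourier N (((a : ℤ) ^ (M * i)) • x)) = fourier _ _
      rw [← fourier_neg, fourier_zsmul, fourier_zsmul, fourier_zsmul, ← fourier_add]
      congr 2
      rw [mul_add, pow_add]
      ring
    rw [h1]
  have hvar := fun (n : ℕ) (hn : 0 < n) => var_general μ f
    (fun i => (hfc i).aestronglyMeasurable) (fun i x => (norm_fourier_apply _ _).le) c hfint r hr
    (fun k => norm_nonneg _) hfcorr n hn
  set R : ℝ := ∑' k, r k with hR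
  have hR0 : 0 ≤ R := tsum_nonneg fun k => norm_nonneg _
  -- the samples
  let F : ℕ → Finset ℤ := fun n => (Finset.range n).image fun i => (a : ℤ) ^ (M * i)
  have hFinj : Function.Injective fun i : ℕ => (a : ℤ) ^ (M * i) := by
    intro x y hxy
    have h1 : (1 : ℤ) < a := by exact_mod_cast (by omega : 1 < a)
    have h2 : M * x = M * y := (pow_right_injective₀ (by linarith) h1.ne') hxy
    exact Nat.eq_of_mul_eq_mul_left hMpos h2
  have hcavg : ∀ n x, cavg (F n) N x = (n : ℂ)⁻¹ * ∑ i ∈ Finset.range n, f i x := by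
    intro n x
    unfold cavg
    rw [Finset.card_image_of_injective _ hFinj, Finset.card_range,
      Finset.sum_image fun x _ y _ h => hFinj h]
  -- Chebyshev
  have hcheb : ∀ n : ℕ, 0 < n → μ.real {x | δ < ‖cavg (F n) N x - c‖} ≤
      2 * R / (δ ^ 2 * n) := by
    intro n hn
    have hcont : Continuous fun x => ‖(n : ℂ)⁻¹ * ∑ i ∈ Finset.range n, f i x - c‖ ^ 2 :=
      (((continuous_const.mul (continuous_finsetSum _ fun i _ => hfc i)).sub
        continuous_const).norm).pow 2
    have hbd : ∀ x, ‖(‖(n : ℂ)⁻¹ * ∑ i ∈ Finset.range n, f i x - c‖ ^ 2 : ℝ)‖ ≤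
        (1 + ‖c‖) ^ 2 := by
      intro x
      have hnr : (0 : ℝ) < n := by exact_mod_cast hn
      have h1 : ‖(n : ℂ)⁻¹ * ∑ i ∈ Finset.range n, f i x‖ ≤ 1 := by
        rw [norm_mul, norm_inv, Complex.norm_natCast]
        have h2 : ‖∑ i ∈ Finset.range n, f i x‖ ≤ n := by
          refine (norm_sum_le _ _).trans ?_
          refine (Finset.sum_le_card_nsmul _ _ 1 fun i _ => (norm_fourier_apply _ _).le).trans ?_
          simp
        calc (n : ℝ)⁻¹ * ‖∑ i ∈ Finset.range n, f i x‖ ≤ (n : ℝ)⁻¹ * n := by gcongr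
          _ = 1 := inv_mul_cancel₀ hnr.ne'
      rw [Real.norm_of_nonneg (by positivity)]
      have h3 : ‖(n : ℂ)⁻¹ * ∑ i ∈ Finset.range n, f i x - c‖ ≤ 1 + ‖c‖ :=
        (norm_sub_le _ _).trans (by linarith)
      exact pow_le_pow_left₀ (norm_nonneg _) h3 2
    have hint : Integrable (fun x => ‖(n : ℂ)⁻¹ * ∑ i ∈ Finset.range n, f i x - c‖ ^ 2) μ :=
      Integrable.of_bound hcont.aestronglyMeasurable _ (Eventually.of_forall hbd)
    have h4 := mul_meas_ge_le_integral_of_nonneg
      (Eventually.of_forall fun x => by positivity) hint (δ ^ 2)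
    have h5 : μ.real {x | δ < ‖cavg (F n) N x - c‖} ≤
        μ.real {x | δ ^ 2 ≤ ‖(n : ℂ)⁻¹ * ∑ i ∈ Finset.range n, f i x - c‖ ^ 2} := by
      refine measureReal_mono ?_
      intro x hx
      have hx' : δ < ‖cavg (F n) N x - c‖ := hx
      rw [hcavg] at hx'
      exact pow_le_pow_left₀ hδ.le hx'.le 2
    have h6 : δ ^ 2 * μ.real {x | δ < ‖cavg (F n) N x - c‖} ≤ 2 * R / n :=
      (mul_le_mul_of_nonneg_left h5 (by positivity)).trans (h4.trans (hvar n hn))
    have hnr : (0 : ℝ) < n := by exact_mod_cast hn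
    rw [le_div_iff₀ (by positivity)]
    rw [le_div_iff₀ hnr] at h6
    linarith
  -- the constants
  set K : ℝ := max 1 (4 * R / (δ ^ 2 * κ)) with hK
  have hK1 : 1 ≤ K := le_max_left _ _
  set j₁ : ℕ := max (max j₀ 2) (max ⌈2 / κ⌉₊ ⌈2 * K⌉₊) with hj₁
  have hinc : ∀ j, j₁ ≤ j → arcEnt b (j + 1) μ - arcEnt b j μ ≤
      K * (1 + (1 + Real.log b) / Real.log 2) * (Real.log j / j) := by
    intro j hj
    have hj0 : j₀ ≤ j := ((le_max_left _ _).trans (le_max_left _ _)).trans hj
    have hj2 : 2 ≤ j := ((le_max_right _ _).trans (le_max_left _ _)).trans hj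
    have hjκ : 2 / κ ≤ j := by
      have : (⌈2 / κ⌉₊ : ℝ) ≤ j := by
        exact_mod_cast ((le_max_left _ _).trans (le_max_right _ _)).trans hj
      exact (Nat.le_ceil _).trans this
    have hjK : 2 * K ≤ j := by
      have : (⌈2 * K⌉₊ : ℝ) ≤ j := by
        exact_mod_cast ((le_max_right _ _).trans (le_max_right _ _)).trans hj
      exact (Nat.le_ceil _).trans this
    have hjr : (2 : ℝ) ≤ j := by exact_mod_cast hj2
    have hjpos : (0 : ℝ) < j := by linarith
    set n : ℕ := ⌊κ * j⌋₊ with hn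
    have hκj : 2 ≤ κ * j := by
      rw [div_le_iff₀ hκ0] at hjκ
      linarith
    have hn1 : κ * j / 2 ≤ (n : ℝ) := by
      have := Nat.lt_floor_add_one (κ * j)
      rw [← hn] at this
      linarith
    have hnle : (n : ℝ) ≤ κ * j := Nat.floor_le (by positivity)
    have hnpos : 0 < n := by
      have : (0 : ℝ) < n := by linarith
      exact_mod_cast this
    have hβ := hcheb n hnpos
    have hFne : (F n).Nonempty := (Finset.nonempty_range_iff.mpr hnpos.ne').image _
    have hFprop : ∀ s ∈ F n, s ≡ 1 [ZMOD (b : ℤ) ^ l] ∧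
        |(s : ℝ)| ≤ (b : ℝ) ^ ((1 - 1 / 2) * (j : ℝ)) := by
      intro s hs
      simp only [F, Finset.mem_image, Finset.mem_range] at hs
      obtain ⟨i, hi, rfl⟩ := hs
      constructor
      · rw [pow_mul]
        simpa using haM.pow i
      · push_cast
        rw [abs_of_nonneg (by positivity), ← Real.rpow_natCast, Real.rpow_def_of_pos ha0,
          Real.rpow_def_of_pos hb0]
        apply Real.exp_le_exp.mpr
        have hi' : (i : ℝ) ≤ κ * j := by
          have : (i : ℝ) ≤ n := by exact_mod_cast hi.le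
          linarith
        have h7 : κ * (2 * M * Real.log a) = Real.log b := by
          rw [hκ, div_mul_cancel₀ _ (by positivity)]
        push_cast
        have h8 : Real.log a * (M * i) ≤ Real.log a * (M * (κ * j)) := by
          gcongr
        nlinarith
    have h9 := hrate μ hB j hj0 (F n) hFne hFprop c le_rfl
    refine h9.trans ?_
    refine ent_term b K hK1 j hj2 ?_ _ measureReal_nonneg ?_
    · rw [div_le_iff₀ hjpos]
      linarith
    · refine hβ.trans ?_
      have h10 : 2 * R / (δ ^ 2 * n) ≤ 2 * R / (δ ^ 2 * (κ * j / 2)) := by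
        refine div_le_div_of_nonneg_left (by positivity) (by positivity) ?_
        exact mul_le_mul_of_nonneg_left hn1 (by positivity)
      have h11 : 2 * R / (δ ^ 2 * (κ * j / 2)) = 4 * R / (δ ^ 2 * κ) / j := by
        field_simp
        ring
      have h12 : 4 * R / (δ ^ 2 * κ) / j ≤ K / j := by
        gcongr
        exact le_max_right _ _
      linarith
  have hl2 : 0 < Real.log 2 := Real.log_pos (by norm_num)
  exact log_sq_of_incr (fun j => arcEnt b j μ) _ (by positivity) j₁
    ((le_max_right _ _).trans (le_max_left _ _)) hinc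

end Pool.Agent.Work.MP_67388f_an.OG
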