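import Pool.Agent.Work.MP_67388f_an.OG.Bas

/-! # Module Erg (M): ergodic measures with a coset of positive measure

PROOF. The cosets of `H` are disjoint closed sets, so for each `δ > 0` at most `1/δ` of them have measure
`≥ δ`; hence the maximal measure `m₀ > 0` of a coset is attained and only finitely many cosets `C_1, ..., C_r` have
measure `m₀`; `U` = their union (closed). For `T ∈ 𝒯` and a coset `C = x + H` of measure `m₀`: `act T` maps `C` into
`C' = act T x + H`, so `C ⊆ (act T)⁻¹' C'` and `μ C' = μ ((act T)⁻¹' C') ≥ m₀` (invariance), so `C'` is one of the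
`C_i`: `act T` maps `U` into `U`. The same for all `T` in the submonoid `𝒮` generated by `𝒯` (countable since `Mat d`
is countable; commutative; `act_mul`, `act_one`; its elements preserve `μ`). Let `E = ⋃_{S ∈ 𝒮} (act S)⁻¹' U`, a Borel set.
`(act T)⁻¹' E = E` for `T ∈ 𝒯`: `⊆` because `act S (act T x) = act (S * T) x`; `⊇`: if `act S x ∈ U` then
`act S (act T x) = act T (act S x) ∈ U`. `μ E = μ U`: `(act S)⁻¹' U ⊇ U` and has the same measure, so
`(act S)⁻¹' U \ U` is null, countable union. `μ U ≥ m₀ > 0`, so `μ E = 1` by ergodicity and `μ U = 1`. -/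

set_option autoImplicit false

namespace Pool.Agent.Work.MP_67388f_an.OG

open MeasureTheory Filter Topology
open scoped NNReal

theorem erg_finite {d : ℕ} (μ : Measure (Tor d)) [IsProbabilityMeasure μ] (𝒯 : Set (Mat d))
    (hcomm : ∀ S ∈ 𝒯, ∀ T ∈ 𝒯, Commute S T) (hinv : ∀ T ∈ 𝒯, μ.map (act T) = μ)
    (H : AddSubgroup (Tor d)) (hH : IsClosed (H : Set (Tor d)))
    (hTH : ∀ T ∈ 𝒯, ∀ h ∈ H, act T h ∈ H) (hpos : ∃ x : Tor d, 0 < μ {y | y - x ∈ H})
    (herg : ∀ E : Set (Tor d), MeasurableSet E → (∀ T ∈ 𝒯, act T ⁻¹' E = E) →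
      μ E = 0 ∨ μ E = 1) :
    ∃ F : Finset (Tor d), μ {y | ∃ x ∈ F, y - x ∈ H} = 1 := by
  classical
  have hcount : Countable (Mat d) := inferInstanceAs (Countable (Fin d → Fin d → ℤ))
  -- the cosets
  set C : (Tor d ⧸ H) → Set (Tor d) := fun q => {y | (QuotientAddGroup.mk y : Tor d ⧸ H) = q}
    with hC
  have hmem : ∀ (x y : Tor d), y ∈ C (QuotientAddGroup.mk x) ↔ y - x ∈ H := fun x y =>
    QuotientAddGroup.eq_iff_sub_mem
  have hCm : ∀ q, MeasurableSet (C q) := by
    intro q
    obtain ⟨x, rfl⟩ := QuotientAddGroup.mk_surjective q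
    have : C (QuotientAddGroup.mk x) = (fun y => y - x) ⁻¹' (H : Set (Tor d)) := by
      ext y
      exact hmem x y
    rw [this]
    exact (hH.preimage (continuous_id.sub continuous_const)).measurableSet
  have hCd : Pairwise (Function.onFun Disjoint C) := by
    intro q q' hne
    refine Set.disjoint_left.2 fun y hy hy' => hne ?_
    exact hy.symm.trans hy'
  have hfin : ∀ δ : ENNReal, 0 < δ → {q | δ ≤ μ (C q)}.Finite := fun δ hδ =>
    Measure.finite_const_le_meas_of_disjoint_iUnion μ hδ hCm hCd (measure_ne_top _ _)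
  obtain ⟨x0, hx0⟩ := hpos
  have hq0 : 0 < μ (C (QuotientAddGroup.mk x0)) := by
    have : C (QuotientAddGroup.mk x0) = {y | y - x0 ∈ H} := by
      ext y
      exact hmem x0 y
    rw [this]
    exact hx0
  obtain ⟨q1, hq1, hmax⟩ := Set.exists_max_image _ (fun q => μ (C q)) (hfin _ hq0)
    ⟨QuotientAddGroup.mk x0, le_refl (μ (C (QuotientAddGroup.mk x0)))⟩
  set m0 : ENNReal := μ (C q1) with hm0
  have hm0pos : 0 < m0 := lt_of_lt_of_le hq0 hq1
  -- the union of the cosets of maximal measure
  set Q : Set (Tor d ⧸ H) := {q | m0 ≤ μ (C q)} with hQ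
  have hQfin : Q.Finite := hfin m0 hm0pos
  set U : Set (Tor d) := {y | (QuotientAddGroup.mk y : Tor d ⧸ H) ∈ Q} with hU
  have hUeq : U = ⋃ q ∈ Q, C q := by
    ext y
    simp only [hU, hC, Set.mem_setOf_eq, Set.mem_iUnion, exists_prop, exists_eq_right']
  have hUm : MeasurableSet U := by
    rw [hUeq]
    exact hQfin.measurableSet_biUnion fun q _ => hCm q
  have hUpos : 0 < μ U := by
    refine lt_of_lt_of_le hm0pos (measure_mono ?_)
    intro y hy
    change (QuotientAddGroup.mk y : Tor d ⧸ H) ∈ Q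
    have hy' : (QuotientAddGroup.mk y : Tor d ⧸ H) = q1 := hy
    rw [hy']
    exact le_refl (μ (C q1))
  have hst : ∀ T : Mat d, (∀ h ∈ H, act T h ∈ H) → μ.map (act T) = μ → ∀ y ∈ U,
      act T y ∈ U := by
    intro T hT hTμ y hy
    change m0 ≤ μ (C (QuotientAddGroup.mk (act T y)))
    have h1 : m0 ≤ μ (C (QuotientAddGroup.mk y)) := hy
    refine h1.trans ?_
    have h2 : μ (C (QuotientAddGroup.mk (act T y))) =
        μ (act T ⁻¹' C (QuotientAddGroup.mk (act T y))) := by
      conv_lhs => rw [← hTμ]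
      rw [Measure.map_apply (measurable_act T) (hCm _)]
    rw [h2]
    refine measure_mono fun z hz => ?_
    rw [Set.mem_preimage, hmem, ← act_sub]
    exact hT _ ((hmem y z).1 hz)
  -- the monoid generated by `𝒯`
  set M : Submonoid (Mat d) := Submonoid.closure 𝒯 with hM
  have hMp : ∀ S ∈ M, (∀ h ∈ H, act S h ∈ H) ∧ μ.map (act S) = μ ∧ ∀ T ∈ 𝒯, Commute S T := by
    intro S hS
    induction hS using Submonoid.closure_induction with
    | mem S hS => exact ⟨hTH S hS, hinv S hS, fun T hT => hcomm S hS T hT⟩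
    | one =>
      refine ⟨fun h hh => by rw [act_one]; exact hh, ?_, fun T _ => Commute.one_left T⟩
      have : act (1 : Mat d) = id := funext fun x => act_one x
      rw [this, Measure.map_id]
    | mul S S' _ _ h1 h2 =>
      refine ⟨fun h hh => by rw [act_mul]; exact h1.1 _ (h2.1 h hh), ?_, fun T hT =>
        Commute.mul_left (h1.2.2 T hT) (h2.2.2 T hT)⟩
      have : act (S * S') = act S ∘ act S' := funext fun x => act_mul S S' x
      rw [this, ← Measure.map_map (measurable_act S) (measurable_act S'), h2.2.1, h1.2.1]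
  set E : Set (Tor d) := ⋃ S ∈ (M : Set (Mat d)), act S ⁻¹' U with hE
  have hEm : MeasurableSet E :=
    MeasurableSet.biUnion (Set.to_countable _) fun S _ => measurable_act S hUm
  have hEi : ∀ T ∈ 𝒯, act T ⁻¹' E = E := by
    intro T hT
    ext x
    simp only [hE, Set.mem_preimage, Set.mem_iUnion, SetLike.mem_coe, exists_prop]
    constructor
    · rintro ⟨S, hS, hx⟩
      refine ⟨S * T, M.mul_mem hS (Submonoid.subset_closure hT), ?_⟩
      rw [act_mul]
      exact hx
    · rintro ⟨S, hS, hx⟩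
      refine ⟨S, hS, ?_⟩
      have h1 := hst T (hTH T hT) (hinv T hT) _ hx
      rw [← act_mul, ← ((hMp S hS).2.2 T hT).eq, act_mul] at h1
      exact h1
  have hUE : U ⊆ E := by
    intro x hx
    simp only [hE, Set.mem_preimage, Set.mem_iUnion, SetLike.mem_coe, exists_prop]
    exact ⟨1, M.one_mem, by rw [act_one]; exact hx⟩
  have hE1 : μ E = 1 := by
    rcases herg E hEm hEi with h | h
    · exact absurd (measure_mono_null hUE h) hUpos.ne'
    · exact h
  have hEU : μ (E \ U) = 0 := by
    have h1 : E \ U ⊆ ⋃ S ∈ (M : Set (Mat d)), (act S ⁻¹' U \ U) := by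
      rintro x ⟨hx, hxU⟩
      simp only [hE, Set.mem_preimage, Set.mem_iUnion, SetLike.mem_coe, exists_prop] at hx
      obtain ⟨S, hS, hx⟩ := hx
      simp only [Set.mem_iUnion, SetLike.mem_coe, exists_prop]
      exact ⟨S, hS, hx, hxU⟩
    refine measure_mono_null h1 ?_
    rw [measure_biUnion_null_iff (Set.to_countable _)]
    intro S hS
    have h2 : U ⊆ act S ⁻¹' U := fun x hx => hst S (hMp S hS).1 (hMp S hS).2.1 x hx
    rw [measure_sdiff h2 hUm.nullMeasurableSet (measure_ne_top _ _)]
    have h3 : μ (act S ⁻¹' U) = μ U := by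
      conv_rhs => rw [← (hMp S hS).2.1]
      rw [Measure.map_apply (measurable_act S) hUm]
    rw [h3, tsub_self]
  have hU1 : μ U = 1 := by
    refine le_antisymm prob_le_one ?_
    calc (1 : ENNReal) = μ E := hE1.symm
      _ ≤ μ (U ∪ (E \ U)) := measure_mono fun x hx => by
          by_cases h : x ∈ U
          · exact Or.inl h
          · exact Or.inr ⟨hx, h⟩
      _ ≤ μ U + μ (E \ U) := measure_union_le _ _
      _ = μ U := by rw [hEU, add_zero]
  refine ⟨hQfin.toFinset.image Quotient.out, ?_⟩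
  have hset : {y | ∃ x ∈ hQfin.toFinset.image Quotient.out, y - x ∈ H} = U := by
    ext y
    simp only [Finset.mem_image, Set.Finite.mem_toFinset, Set.mem_setOf_eq]
    constructor
    · rintro ⟨x, ⟨q, hq, rfl⟩, hy⟩
      have h1 : (QuotientAddGroup.mk y : Tor d ⧸ H) = q := by
        have h2 := (hmem (Quotient.out q) y).2 hy
        have h3 : (QuotientAddGroup.mk (Quotient.out q) : Tor d ⧸ H) = q := Quotient.out_eq q
        rw [h3] at h2
        exact h2
      change (QuotientAddGroup.mk y : Tor d ⧸ H) ∈ Q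
      rw [h1]
      exact hq
    · intro hy
      refine ⟨Quotient.out (QuotientAddGroup.mk y : Tor d ⧸ H), ⟨_, hy, rfl⟩, ?_⟩
      rw [← hmem]
      exact (Quotient.out_eq (QuotientAddGroup.mk y : Tor d ⧸ H)).symm
  rw [hset]
  exact hU1

end Pool.Agent.Work.MP_67388f_an.OG
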