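import Pool.Agent.Work.MP_67388f_an.OG.Bas

/-! # Module Uni (S-M): uniqueness of Fourier coefficients on the torus

PROOF. Both sides are probability measures with the same integrals of characters:
`∫ ch N d(map) = ∫ ch N (x + h) dμ = ch N h * ∫ ch N dμ` (`ch_add`, `integral_map`), and either
`∫ ch N dμ = 0`, or `N ∈ spt μ`, `pr N h = 0` and `ch N h = 1` (`ch_eq`). Two finite Borel measures
on the compact space `Tor d` with the same integrals of all `UnitAddTorus.mFourier N` agree: the span
of these functions is dense in `C(Tor d, ℂ)` (`UnitAddTorus.span_mFourier_closure_eq_top`) and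
`f ↦ ∫ f dμ` is continuous, so the integrals of all continuous complex, hence of all bounded continuous
real functions agree; then e.g. `MeasureTheory.ext_of_forall_integral_eq_of_IsFiniteMeasure`. -/

set_option autoImplicit false

namespace Pool.Agent.Work.MP_67388f_an.OG

open MeasureTheory Filter Topology
open scoped NNReal

private theorem int_cont {d : ℕ} (μ : Measure (Tor d)) [IsFiniteMeasure μ] (f : C(Tor d, ℂ)) :
    Integrable f μ := by
  refine Integrable.of_bound f.continuous.aestronglyMeasurable ‖f‖ ?_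
  exact Filter.Eventually.of_forall fun x => f.norm_coe_le_norm x

private theorem ext_ch {d : ℕ} (μ ν : Measure (Tor d)) [IsFiniteMeasure μ] [IsFiniteMeasure ν]
    (h : ∀ N, ∫ x, ch N x ∂μ = ∫ x, ch N x ∂ν) : μ = ν := by
  have h1 : ∀ f ∈ Submodule.span ℂ (Set.range (UnitAddTorus.mFourier (d := Fin d))),
      ∫ x, f x ∂μ = ∫ x, f x ∂ν := by
    intro f hf
    induction hf using Submodule.span_induction with
    | mem x hx =>
      obtain ⟨N, rfl⟩ := hx
      exact h N
    | zero => simp
    | add f g _ _ hf hg =>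
      have e1 : ∀ ρ : Measure (Tor d), IsFiniteMeasure ρ →
          ∫ x, (f + g) x ∂ρ = ∫ x, f x ∂ρ + ∫ x, g x ∂ρ := by
        intro ρ hρ
        have := integral_add (int_cont ρ f) (int_cont ρ g)
        simpa using this
      rw [e1 μ inferInstance, e1 ν inferInstance, hf, hg]
    | smul c f _ hf =>
      have e1 : ∀ ρ : Measure (Tor d), ∫ x, (c • f) x ∂ρ = c * ∫ x, f x ∂ρ := by
        intro ρ
        have := integral_const_mul (μ := ρ) c (fun x => f x)
        simpa using this
      rw [e1, e1, hf]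
  have h2 : ∀ f : C(Tor d, ℂ), ∫ x, f x ∂μ = ∫ x, f x ∂ν := by
    intro f
    by_contra hne
    have hpos : 0 < ‖∫ x, f x ∂μ - ∫ x, f x ∂ν‖ := norm_pos_iff.2 (sub_ne_zero.2 hne)
    set a := ‖∫ x, f x ∂μ - ∫ x, f x ∂ν‖ with ha
    set T : ℝ := μ.real Set.univ + ν.real Set.univ + 1 with hT
    have hT1 : 0 < T := by positivity
    have hcl : f ∈ closure ((Submodule.span ℂ
        (Set.range (UnitAddTorus.mFourier (d := Fin d))) : Submodule ℂ C(Tor d, ℂ)) :
          Set C(Tor d, ℂ)) := by
      have h3 := UnitAddTorus.span_mFourier_closure_eq_top (d := Fin d)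
      have h4 : f ∈ (Submodule.span ℂ
        (Set.range (UnitAddTorus.mFourier (d := Fin d)))).topologicalClosure := by
        rw [h3]
        exact Submodule.mem_top
      rwa [← SetLike.mem_coe, Submodule.topologicalClosure_coe] at h4
    obtain ⟨p, hp, hfp⟩ := Metric.mem_closure_iff.1 hcl (a / (2 * T)) (by positivity)
    have hb : ∀ ρ : Measure (Tor d), IsFiniteMeasure ρ →
        ‖∫ x, f x ∂ρ - ∫ x, p x ∂ρ‖ ≤ (a / (2 * T)) * ρ.real Set.univ := by
      intro ρ hρ
      rw [← integral_sub (int_cont ρ f) (int_cont ρ p)]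
      refine norm_integral_le_of_norm_le_const (Filter.Eventually.of_forall fun x => ?_)
      rw [dist_eq_norm] at hfp
      exact ((f - p).norm_coe_le_norm x).trans hfp.le
    have h5 := hb μ inferInstance
    have h6 := hb ν inferInstance
    have h7 := h1 p hp
    have h8 : a ≤ ‖∫ x, f x ∂μ - ∫ x, p x ∂μ‖ + ‖∫ x, f x ∂ν - ∫ x, p x ∂ν‖ := by
      have : ∫ x, f x ∂μ - ∫ x, f x ∂ν =
          (∫ x, f x ∂μ - ∫ x, p x ∂μ) - (∫ x, f x ∂ν - ∫ x, p x ∂ν) := by
        rw [h7]; ring
      rw [ha, this]
      exact norm_sub_le _ _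
    have h9 : a ≤ (a / (2 * T)) * (T - 1) := by
      have : (a / (2 * T)) * (T - 1) =
          (a / (2 * T)) * μ.real Set.univ + (a / (2 * T)) * ν.real Set.univ := by
        rw [hT]; ring
      rw [this]
      linarith
    have h10 : (a / (2 * T)) * (T - 1) < a := by
      have h11 : (a / (2 * T)) * (T - 1) < (a / (2 * T)) * (2 * T) :=
        mul_lt_mul_of_pos_left (by linarith) (by positivity)
      have h12 : (a / (2 * T)) * (2 * T) = a := by field_simp
      linarith
    linarith
  refine ext_of_forall_integral_eq_of_IsFiniteMeasure fun f => ?_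
  have h3 := h2 ⟨fun x => ((f x : ℝ) : ℂ), Complex.continuous_ofReal.comp f.continuous⟩
  have h4 : ∀ ρ : Measure (Tor d), ∫ x, ((f x : ℝ) : ℂ) ∂ρ = ((∫ x, f x ∂ρ : ℝ) : ℂ) :=
    fun ρ => integral_ofReal
  have h5 : ((∫ x, f x ∂μ : ℝ) : ℂ) = ((∫ x, f x ∂ν : ℝ) : ℂ) := by
    rw [← h4, ← h4]
    exact h3
  exact_mod_cast h5

theorem map_add_eq {d : ℕ} (μ : Measure (Tor d)) [IsProbabilityMeasure μ] (h : Tor d)
    (hh : ∀ N ∈ spt μ, pr N h = 0) : μ.map (fun x => x + h) = μ := by
  have hm : Measurable (fun x : Tor d => x + h) := (continuous_id.add continuous_const).measurable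
  have : IsProbabilityMeasure (μ.map (fun x => x + h)) :=
    Measure.isProbabilityMeasure_map hm.aemeasurable
  refine ext_ch _ _ fun N => ?_
  rw [integral_map hm.aemeasurable (continuous_ch N).aestronglyMeasurable]
  have h1 : ∀ x, ch N (x + h) = ch N h * ch N x := fun x => by rw [ch_add, mul_comm]
  simp_rw [h1]
  rw [integral_const_mul]
  by_cases hN : ∫ x, ch N x ∂μ = 0
  · rw [hN, mul_zero]
  · have h2 : ch N h = 1 := by
      rw [ch_eq, hh N hN]
      simp
    rw [h2, one_mul]

end Pool.Agent.Work.MP_67388f_an.OG
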