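import Pool.Agent.Work.MP_67388f_an.OG.Spt
import Pool.Agent.Work.MP_67388f_an.OG.Uni
import Pool.Agent.Work.MP_67388f_an.OG.Cnn

/-! # Module Fll: a measure with convergent averages and a coset of positive measure lives on one coset
of a connected group (helper64) -/

set_option autoImplicit false

namespace Pool.Agent.Work.MP_67388f_an.OG

open MeasureTheory Filter Topology
open scoped NNReal

/-- the endomorphism as a homomorphism -/
private def actHom {d : ℕ} (T : Mat d) : Tor d →+ Tor d where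
  toFun := act T
  map_zero' := act_zero T
  map_add' := act_add T

private theorem el_nsmul {s d : ℕ} (A : Multiplicative (Fin s → ℕ) →* Mat d) (M : ℕ)
    (m : Fin s → ℕ) : el A (M • m) = el A m ^ M := by
  show A (Multiplicative.ofAdd (M • m)) = A (Multiplicative.ofAdd m) ^ M
  rw [ofAdd_nsmul, map_pow]

/-- a probability for which the integral of a character has modulus one -/
private theorem ae_of_int {d : ℕ} (μ : Measure (Tor d)) [IsProbabilityMeasure μ] (N : Fin d → ℤ)
    (x : Tor d) (h : ∫ y, ch N y ∂μ = ch N x) : ∀ᵐ y ∂μ, pr N (y - x) = 0 := by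
  have hint : Integrable (fun y => ch N (y - x)) μ := by
    refine Integrable.of_bound ((continuous_ch N).comp
      (continuous_id.sub continuous_const)).aestronglyMeasurable 1 (Eventually.of_forall fun y => ?_)
    exact (norm_ch N _).le
  have h1 : ∫ y, ch N (y - x) ∂μ = 1 := by
    have e : ∀ y, ch N (y - x) = ch N y * ch N (-x) := fun y => by
      rw [sub_eq_add_neg, ch_add]
    simp_rw [e]
    rw [integral_mul_const, h, ← ch_add, add_neg_cancel, ch_zero]
  have h2 : ∫ y, (1 - (ch N (y - x)).re) ∂μ = 0 := by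
    have hri : Integrable (fun y => (ch N (y - x)).re) μ := hint.re
    rw [integral_sub (integrable_const _) hri]
    have h3 := integral_re (𝕜 := ℂ) hint
    simp only [RCLike.re_to_complex] at h3 ⊢
    rw [h3, h1]
    simp
  have hnn : ∀ y, 0 ≤ 1 - (ch N (y - x)).re := fun y => by
    have := (Complex.re_le_norm (ch N (y - x))).trans (norm_ch N _).le
    linarith
  rw [integral_eq_zero_iff_of_nonneg hnn ((integrable_const _).sub hint.re)] at h2
  filter_upwards [h2] with y hy
  have hre : (ch N (y - x)).re = 1 := by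
    have : 1 - (ch N (y - x)).re = 0 := hy
    linarith
  have hone : ch N (y - x) = 1 := by
    have hn := norm_ch N (y - x)
    have hsq : (ch N (y - x)).re ^ 2 + (ch N (y - x)).im ^ 2 = 1 := by
      have := Complex.sq_norm (ch N (y - x))
      rw [hn, Complex.normSq_apply] at this
      nlinarith
    rw [hre] at hsq
    have him : (ch N (y - x)).im = 0 := by
      have : (ch N (y - x)).im ^ 2 = 0 := by linarith
      exact pow_eq_zero_iff (two_ne_zero) |>.mp this
    exact Complex.ext (by rw [hre]; simp) (by rw [him]; simp)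
  rw [ch_eq] at hone
  have h4 : AddCircle.toCircle (pr N (y - x)) = AddCircle.toCircle (0 : UnitAddCircle) := by
    rw [AddCircle.toCircle_zero]
    exact Circle.ext (by rw [hone]; simp)
  exact AddCircle.injective_toCircle one_ne_zero h4

theorem coset_one {s d : ℕ} (A : Multiplicative (Fin s → ℕ) →* Mat d)
    (μ : Measure (Tor d)) [IsProbabilityMeasure μ] (hAinv : ∀ m, μ.map (act (el A m)) = μ)
    (hconv : ∀ (N : Fin d → ℤ) (M : ℕ) (ε : ℝ), 0 < M → 0 < ε →
      ∃ F : Finset (Fin s → ℕ), F.Nonempty ∧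
        μ.real {x | ε < ‖favg A M F N x - ∫ z, ch N z ∂μ‖} < ε)
    (P : Set (Fin d → ℤ)) (hAP : ∀ m, ∀ h ∈ ann P, act (el A m) h ∈ ann P)
    (hpos : ∃ x : Tor d, 0 < μ {y | y - x ∈ ann P}) :
    ∃ x : Tor d, μ {y | y - x ∈ ann P} = 1 := by
  classical
  set H : AddSubgroup (Tor d) := ann P with hHdef
  have hH : IsClosed (H : Set (Tor d)) := isClosed_ann P
  set C : (Tor d ⧸ H) → Set (Tor d) := fun q => {y | (QuotientAddGroup.mk y : Tor d ⧸ H) = q}
    with hC
  have hmem : ∀ (x y : Tor d), y ∈ C (QuotientAddGroup.mk x) ↔ y - x ∈ H := fun x y =>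
    QuotientAddGroup.eq_iff_sub_mem
  have hCm : ∀ q, MeasurableSet (C q) := by
    intro q
    obtain ⟨x, rfl⟩ := QuotientAddGroup.mk_surjective q
    have : C (QuotientAddGroup.mk x) = (fun y => y - x) ⁻¹' (H : Set (Tor d)) := by
      ext y
      exact hmem x y
    rw [this]
    exact (hH.preimage (continuous_id.sub continuous_const)).measurableSet
  have hCd : Pairwise (Function.onFun Disjoint C) := by
    intro q q' hne
    refine Set.disjoint_left.2 fun y hy hy' => hne ?_
    exact hy.symm.trans hy'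
  have hfin : ∀ δ : ENNReal, 0 < δ → {q | δ ≤ μ (C q)}.Finite := fun δ hδ =>
    Measure.finite_const_le_meas_of_disjoint_iUnion μ hδ hCm hCd (measure_ne_top _ _)
  obtain ⟨x0, hx0⟩ := hpos
  have hq0 : 0 < μ (C (QuotientAddGroup.mk x0)) := by
    have : C (QuotientAddGroup.mk x0) = {y | y - x0 ∈ H} := by
      ext y
      exact hmem x0 y
    rw [this]
    exact hx0
  obtain ⟨q1, hq1, hmax⟩ := Set.exists_max_image _ (fun q => μ (C q)) (hfin _ hq0)
    ⟨QuotientAddGroup.mk x0, le_refl (μ (C (QuotientAddGroup.mk x0)))⟩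
  set m0 : ENNReal := μ (C q1) with hm0
  have hm0pos : 0 < m0 := lt_of_lt_of_le hq0 hq1
  set Q : Set (Tor d ⧸ H) := {q | m0 ≤ μ (C q)} with hQ
  have hQfin : Q.Finite := hfin m0 hm0pos
  have hQeq : ∀ q ∈ Q, μ (C q) = m0 := fun q hq =>
    le_antisymm (hmax q (show μ (C (QuotientAddGroup.mk x0)) ≤ μ (C q) from
      le_trans (show μ (C (QuotientAddGroup.mk x0)) ≤ μ (C q1) from hq1) hq)) hq
  have hq1Q : q1 ∈ Q := le_refl (μ (C q1))
  -- the induced maps
  let t : Mat d → (Tor d ⧸ H) → (Tor d ⧸ H) := fun T q =>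
    if hT : ∀ h ∈ H, act T h ∈ H then QuotientAddGroup.map H H (actHom T) hT q else q
  have ht : ∀ T : Mat d, (∀ h ∈ H, act T h ∈ H) → ∀ y : Tor d,
      t T (QuotientAddGroup.mk y) = QuotientAddGroup.mk (act T y) := by
    intro T hT y
    show (if hT : ∀ h ∈ H, act T h ∈ H then QuotientAddGroup.map H H (actHom T) hT
      (QuotientAddGroup.mk y) else QuotientAddGroup.mk y) = _
    rw [dif_pos hT]
    rfl
  have hsub : ∀ T : Mat d, (∀ h ∈ H, act T h ∈ H) → ∀ q, C q ⊆ act T ⁻¹' C (t T q) := by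
    intro T hT q y hy
    have hy' : (QuotientAddGroup.mk y : Tor d ⧸ H) = q := hy
    show (QuotientAddGroup.mk (act T y) : Tor d ⧸ H) = t T q
    rw [← hy', ht T hT]
  have hpre : ∀ T : Mat d, μ.map (act T) = μ → ∀ q, μ (act T ⁻¹' C q) = μ (C q) := by
    intro T hT q
    conv_rhs => rw [← hT]
    rw [Measure.map_apply (measurable_act T) (hCm _)]
  have hmaps : ∀ T : Mat d, (∀ h ∈ H, act T h ∈ H) → μ.map (act T) = μ →
      Set.MapsTo (t T) Q Q := by
    intro T hT hTμ q hq
    show m0 ≤ μ (C (t T q))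
    rw [← hpre T hTμ]
    exact le_trans hq (measure_mono (hsub T hT q))
  have hinj : ∀ T : Mat d, (∀ h ∈ H, act T h ∈ H) → μ.map (act T) = μ →
      Set.InjOn (t T) Q := by
    intro T hT hTμ q hq q' hq' he
    by_contra hne
    have h1 : μ (C q ∪ C q') ≤ μ (act T ⁻¹' C (t T q)) := by
      refine measure_mono (Set.union_subset (hsub T hT q) ?_)
      rw [he]
      exact hsub T hT q'
    rw [measure_union (hCd hne) (hCm _), hpre T hTμ, hQeq q hq, hQeq q' hq',
      hQeq _ (hmaps T hT hTμ hq)] at h1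
    have h2 : m0 < m0 + m0 := ENNReal.lt_add_right (measure_ne_top _ _) hm0pos.ne'
    exact absurd h1 (not_le.2 h2)
  have : Finite Q := hQfin
  set M : ℕ := Nat.card (Equiv.Perm Q) with hM
  have hMpos : 0 < M := Nat.card_pos
  have hiter : ∀ T : Mat d, (∀ h ∈ H, act T h ∈ H) → μ.map (act T) = μ → ∀ q ∈ Q,
      (t T)^[M] q = q := by
    intro T hT hTμ q hq
    let f : Q → Q := (hmaps T hT hTμ).restrict
    have hf : Function.Injective f := by
      intro z z' hz
      apply Subtype.ext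
      exact hinj T hT hTμ z.2 z'.2 (congrArg Subtype.val hz)
    let σ : Equiv.Perm Q := Equiv.ofBijective f (Finite.injective_iff_bijective.1 hf)
    have h1 : σ ^ M = 1 := pow_card_eq_one'
    have h2 : ∀ n : ℕ, ∀ z : Q, (((σ ^ n) z : Q) : Tor d ⧸ H) = (t T)^[n] (z : Tor d ⧸ H) := by
      intro n
      induction n with
      | zero => intro z; rfl
      | succ n ih =>
        intro z
        rw [pow_succ, Equiv.Perm.mul_apply, ih, Function.iterate_succ_apply]
        rfl
    have h3 := h2 M ⟨q, hq⟩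
    rw [h1] at h3
    exact h3.symm
  have hfix : ∀ (m : Fin s → ℕ) (y : Tor d), y ∈ C q1 → act (el A (M • m)) y ∈ C q1 := by
    intro m y hy
    have hy' : (QuotientAddGroup.mk y : Tor d ⧸ H) = q1 := hy
    have h1 : ∀ n : ℕ, (QuotientAddGroup.mk ((act (el A m))^[n] y) : Tor d ⧸ H) =
        (t (el A m))^[n] (QuotientAddGroup.mk y) := by
      intro n
      induction n with
      | zero => rfl
      | succ n ih =>
        rw [Function.iterate_succ_apply', Function.iterate_succ_apply', ← ih, ht _ (hAP m)]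
    show (QuotientAddGroup.mk (act (el A (M • m)) y) : Tor d ⧸ H) = q1
    rw [el_nsmul, act_pow, h1, hy', hiter _ (hAP m) (hAinv m) q1 hq1Q]
  obtain ⟨x1, hx1⟩ := QuotientAddGroup.mk_surjective q1
  have hc1 : ∀ y, y ∈ C q1 → y - x1 ∈ H := by
    intro y hy
    rw [← hx1] at hy
    exact (hmem x1 y).1 hy
  have hval : ∀ N ∈ P, ∀ y ∈ C q1, ch N y = ch N x1 := by
    intro N hN y hy
    have h1 : pr N (y - x1) = 0 := hc1 y hy N hN
    have h2 : y = (y - x1) + x1 := by abel
    rw [h2, ch_add, ch_eq N (y - x1), h1]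
    simp
  have hint : ∀ N ∈ P, ∫ y, ch N y ∂μ = ch N x1 := by
    intro N hN
    have hm0r : 0 < μ.real (C q1) := ENNReal.toReal_pos hm0pos.ne' (measure_ne_top _ _)
    have hall : ∀ ε : ℝ, 0 < ε → ‖ch N x1 - ∫ y, ch N y ∂μ‖ ≤ ε := by
      intro ε hε
      obtain ⟨F, hF, hFm⟩ := hconv N M (min ε (μ.real (C q1))) hMpos (lt_min hε hm0r)
      have h1 : ¬ C q1 ⊆ {x | min ε (μ.real (C q1)) < ‖favg A M F N x - ∫ z, ch N z ∂μ‖} := by
        intro hsub'
        have h2 := measureReal_mono (μ := μ) hsub' (measure_ne_top _ _)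
        have h3 := lt_of_le_of_lt h2 hFm
        exact absurd (min_le_right ε (μ.real (C q1))) (not_le.2 h3)
      obtain ⟨y, hy, hy'⟩ := Set.not_subset.1 h1
      have hy' : ‖favg A M F N y - ∫ z, ch N z ∂μ‖ ≤ min ε (μ.real (C q1)) := not_lt.1 hy'
      have h4 : favg A M F N y = ch N x1 := by
        have h5 : ∀ m ∈ F, ch N (act (el A (M • m)) y) = ch N x1 := fun m _ =>
          hval N hN _ (hfix m y hy)
        unfold favg
        rw [Finset.sum_congr rfl h5, Finset.sum_const, nsmul_eq_mul, ← mul_assoc,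
          inv_mul_cancel₀, one_mul]
        exact_mod_cast hF.card_pos.ne'
      rw [h4] at hy'
      exact hy'.trans (min_le_left _ _)
    have h0 : ‖ch N x1 - ∫ y, ch N y ∂μ‖ ≤ 0 := le_of_forall_pos_le_add fun ε hε => by
      rw [zero_add]
      exact hall ε hε
    have h1 := norm_le_zero_iff.1 h0
    exact (sub_eq_zero.1 h1).symm
  refine ⟨x1, ?_⟩
  have hae : ∀ᵐ y ∂μ, ∀ N ∈ P, pr N (y - x1) = 0 :=
    (ae_ball_iff (Set.to_countable P)).2 fun N hN => ae_of_int μ N x1 (hint N hN)
  have hmeas : MeasurableSet {y : Tor d | y - x1 ∈ H} :=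
    (hH.preimage (continuous_id.sub continuous_const)).measurableSet
  exact (mem_ae_iff_prob_eq_one hmeas).1 hae

/-- the saturation of the annihilated frequencies -/
private def satu {d : ℕ} (P : Set (Fin d → ℤ)) : Submodule ℤ (Fin d → ℤ) where
  carrier := {N | ∃ k : ℤ, k ≠ 0 ∧ ∀ h ∈ ann P, pr (k • N) h = 0}
  add_mem' := by
    rintro a b ⟨k, hk, ha⟩ ⟨l, hl, hb⟩
    refine ⟨k * l, mul_ne_zero hk hl, fun h hh => ?_⟩
    have h1 : (k * l) • (a + b) = l • (k • a) + k • (l • b) := by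
      rw [smul_add, mul_comm k l, mul_smul, mul_comm l k, mul_smul]
    rw [h1, add_pr, zsmul_pr l, zsmul_pr k (l • b), ha h hh, hb h hh, smul_zero, smul_zero, add_zero]
  zero_mem' := ⟨1, one_ne_zero, fun h _ => by simp [pr]⟩
  smul_mem' := by
    rintro z a ⟨k, hk, ha⟩
    refine ⟨k, hk, fun h hh => ?_⟩
    rw [smul_comm, zsmul_pr, ha h hh, smul_zero]

private theorem mem_satu {d : ℕ} {P : Set (Fin d → ℤ)} {N : Fin d → ℤ} :
    N ∈ satu P ↔ ∃ k : ℤ, k ≠ 0 ∧ ∀ h ∈ ann P, pr (k • N) h = 0 := Iff.rfl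

private theorem sat_pos {d : ℕ} (μ : Measure (Tor d)) (P : Set (Fin d → ℤ))
    (hpos : ∃ x : Tor d, 0 < μ {y | y - x ∈ ann P}) :
    ∃ x : Tor d, 0 < μ {y | y - x ∈ ann (satu P : Set (Fin d → ℤ))} := by
  classical
  obtain ⟨x, hx⟩ := hpos
  have hfg : (satu P).FG := IsNoetherian.noetherian _
  obtain ⟨S, hS⟩ := hfg
  have hSk : ∀ N : S, ∃ k : ℤ, k ≠ 0 ∧ ∀ h ∈ ann P, pr (k • (N : Fin d → ℤ)) h = 0 := by
    intro N
    have : (N : Fin d → ℤ) ∈ satu P := by
      rw [← hS]
      exact Submodule.subset_span N.2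
    exact this
  choose k hk0 hk using hSk
  let V : S → Set UnitAddCircle := fun N => {u | (k N).natAbs • u = 0}
  have hV : ∀ N, (V N).Finite := fun N =>
    AddCircle.finite_torsion (1 : ℝ) (Int.natAbs_pos.2 (hk0 N))
  have hT : (Set.pi Set.univ V).Finite := Set.Finite.pi hV
  let D : (S → UnitAddCircle) → Set (Tor d) := fun v => {y | ∀ N : S, pr (N : Fin d → ℤ) (y - x) = v N}
  have hcov : {y | y - x ∈ ann P} ⊆ ⋃ v ∈ Set.pi Set.univ V, D v := by
    intro y hy
    have hy' : y - x ∈ ann P := hy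
    refine Set.mem_iUnion₂.2 ⟨fun N => pr (N : Fin d → ℤ) (y - x), ?_, fun N => rfl⟩
    intro N _
    show (k N).natAbs • pr (N : Fin d → ℤ) (y - x) = 0
    have h1 := hk N _ hy'
    rw [zsmul_pr] at h1
    rcases Int.natAbs_eq (k N) with h2 | h2
    · rw [h2] at h1
      rw [natCast_zsmul] at h1
      exact h1
    · rw [h2, neg_smul, natCast_zsmul, neg_eq_zero] at h1
      exact h1
  by_contra hno
  push Not at hno
  have hD : ∀ v ∈ Set.pi Set.univ V, μ (D v) = 0 := by
    intro v _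
    by_cases hne : (D v).Nonempty
    · obtain ⟨y1, hy1⟩ := hne
      refine measure_mono_null ?_ (nonpos_iff_eq_zero.1 (hno y1))
      intro y hy
      show y - y1 ∈ ann (satu P : Set (Fin d → ℤ))
      intro N hN
      have hN' : N ∈ satu P := hN
      rw [← hS] at hN'
      clear hN
      induction hN' using Submodule.span_induction with
      | mem a ha =>
        have h1 := hy ⟨a, ha⟩
        have h2 := hy1 ⟨a, ha⟩
        have h3 : y - y1 = (y - x) - (y1 - x) := by abel
        rw [h3, pr_sub, h1, h2, sub_self]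
      | zero => simp [pr]
      | add a b _ _ ha hb => rw [add_pr, ha, hb, add_zero]
      | smul z a _ ha => rw [zsmul_pr, ha, smul_zero]
    · rw [Set.not_nonempty_iff_eq_empty.1 hne, measure_empty]
  have h0 : μ {y | y - x ∈ ann P} = 0 :=
    measure_mono_null hcov ((measure_biUnion_null_iff hT.countable).2 hD)
  exact hx.ne' h0

theorem coset_conn {s d : ℕ} (A : Multiplicative (Fin s → ℕ) →* Mat d)
    (μ : Measure (Tor d)) [IsProbabilityMeasure μ] (hAinv : ∀ m, μ.map (act (el A m)) = μ)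
    (hconv : ∀ (N : Fin d → ℤ) (M : ℕ) (ε : ℝ), 0 < M → 0 < ε →
      ∃ F : Finset (Fin s → ℕ), F.Nonempty ∧
        μ.real {x | ε < ‖favg A M F N x - ∫ z, ch N z ∂μ‖} < ε)
    (hpos : ∃ x : Tor d, 0 < μ {y | y - x ∈ ann (spt μ)}) :
    IsConnected ((ann (spt μ) : AddSubgroup (Tor d)) : Set (Tor d)) ∧
      ∃ x : Tor d, μ {y | y - x ∈ ann (spt μ)} = 1 := by
  classical
  set P : Set (Fin d → ℤ) := spt μ with hP
  have hAP : ∀ m, ∀ h ∈ ann P, act (el A m) h ∈ ann P := fun m =>
    act_mem_ann_spt μ _ (hAinv m)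
  have hAS : ∀ m, ∀ h ∈ ann (satu P : Set (Fin d → ℤ)),
      act (el A m) h ∈ ann (satu P : Set (Fin d → ℤ)) := by
    intro m h hh N hN
    rw [pr_act]
    refine hh _ ?_
    obtain ⟨k, hk, hkN⟩ := hN
    refine ⟨k, hk, fun g hg => ?_⟩
    have h1 := hkN _ (hAP m g hg)
    rw [zsmul_pr, pr_act, ← zsmul_pr] at h1
    exact h1
  obtain ⟨x1, hx1⟩ := coset_one A μ hAinv hconv (satu P : Set (Fin d → ℤ)) hAS (sat_pos μ P hpos)
  have hPS : P ⊆ (satu P : Set (Fin d → ℤ)) := by
    intro N hN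
    exact ⟨1, one_ne_zero, fun h hh => by rw [one_smul]; exact hh N hN⟩
  have hle1 : ∀ h ∈ ann (satu P : Set (Fin d → ℤ)), h ∈ ann P := fun h hh N hN => hh N (hPS hN)
  have hmeas : MeasurableSet {y : Tor d | y - x1 ∈ ann (satu P : Set (Fin d → ℤ))} :=
    ((isClosed_ann _).preimage (continuous_id.sub continuous_const)).measurableSet
  have hle2 : ∀ h ∈ ann P, h ∈ ann (satu P : Set (Fin d → ℤ)) := by
    intro h hh
    have h1 : ∀ᵐ y ∂μ, y - x1 ∈ ann (satu P : Set (Fin d → ℤ)) :=
      (mem_ae_iff_prob_eq_one hmeas).2 hx1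
    have h2 : ∀ᵐ y ∂μ, (y + h) - x1 ∈ ann (satu P : Set (Fin d → ℤ)) := by
      have hm : μ.map (fun x => x + h) = μ := map_add_eq μ h fun N hN => hh N hN
      have hme : Measurable (fun x : Tor d => x + h) :=
        (continuous_id.add continuous_const).measurable
      have h3 : ∀ᵐ y ∂(μ.map (fun x => x + h)), y - x1 ∈ ann (satu P : Set (Fin d → ℤ)) := by
        rw [hm]
        exact h1
      exact (ae_map_iff hme.aemeasurable hmeas).1 h3
    obtain ⟨y, hy1, hy2⟩ := (h1.and h2).exists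
    have h3 : h = ((y + h) - x1) - (y - x1) := by abel
    rw [h3]
    exact AddSubgroup.sub_mem _ hy2 hy1
  refine ⟨ann_connected P fun k N hk hkN h hh => ?_, x1, ?_⟩
  · exact hle2 h hh N ⟨k, hk, hkN⟩
  · have he : {y : Tor d | y - x1 ∈ ann P} = {y | y - x1 ∈ ann (satu P : Set (Fin d → ℤ))} := by
      ext y
      exact ⟨fun hy => hle2 _ hy, fun hy => hle1 _ hy⟩
    rw [he]
    exact hx1

end Pool.Agent.Work.MP_67388f_an.OG
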