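import Pool.Agent.Work.MP_67388f_an.OG.Bas

/-! # Module Mixc (M): a mixing measure with a coset of positive measure lives on one coset

PROOF. (1) `x₀` with `m = μ (x₀ + H) > 0`. The cosets `C_i = act (A^i) x₀ + H` satisfy
`C_i ⊆ (act A)⁻¹' C_(i+1)` (as `act A H ⊆ H`), so `μ C_(i+1) = μ ((act A)⁻¹' C_(i+1)) ≥ μ C_i ≥ m`. Distinct
cosets are disjoint, total mass `1`, so `C_i = C_(i+p)` for some `i` and `p ≥ 1`. Put `E = C_i`, closed, and
`E ⊆ (act (A^p))⁻¹' E`, hence `E ⊆ (act (A^(p n)))⁻¹' E` for all `n`. (2) For `k ≥ 1` let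
`f_k x = max 0 (1 - k * infDist x E)` (`k`-Lipschitz, values in `[0, 1]`, `= 1` on `E`, decreasing to the
indicator of the closed set `E`). `∫ f_k(x) f_k(act A^[p n] x) dμ ≥ μ E` (the integrand is `1` on `E`), and by
`MixRate` (constant fixed, `exp (-c (p n)^γ) → 0` as `γ > 0`) it tends to `(∫ f_k)²` as `n → ∞`. So
`(∫ f_k)² ≥ μ E`; `k → ∞` (dominated convergence): `(μ E)² ≥ μ E`, so `μ E = 1`. -/

set_option autoImplicit false

namespace Pool.Agent.Work.MP_67388f_an.OG

open MeasureTheory Filter Topology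
open scoped NNReal

private theorem mixc_coset {d : ℕ} (A : Mat d) (μ : Measure (Tor d)) [IsProbabilityMeasure μ]
    (hA : μ.map (act A) = μ) (H : AddSubgroup (Tor d)) (hH : IsClosed (H : Set (Tor d)))
    (hAH : ∀ h ∈ H, act A h ∈ H) {x : Tor d} (hx : 0 < μ {y | y - x ∈ H}) :
    ∃ (z : Tor d) (p : ℕ), 0 < p ∧ 0 < μ {y | y - z ∈ H} ∧
      ∀ y, y - z ∈ H → ∀ n : ℕ, (act A)^[p * n] y - z ∈ H := by
  set T : Tor d → Tor d := act A with hT
  set C : ℕ → Set (Tor d) := fun i => {y | y - T^[i] x ∈ H} with hC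
  have hcl : ∀ i, IsClosed (C i) := fun i =>
    hH.preimage (continuous_id.sub continuous_const)
  have hit : ∀ (n i : ℕ) (y : Tor d), y ∈ C i → T^[n] y ∈ C (i + n) := by
    intro n
    induction n with
    | zero => intro i y hy; exact hy
    | succ n ih =>
      intro i y hy
      have h1 := ih i y hy
      have h2 : act A (T^[n] y) - act A (T^[i + n] x) ∈ H := by
        rw [← act_sub]
        exact hAH _ h1
      show T^[n + 1] y - T^[i + (n + 1)] x ∈ H
      rw [← add_assoc, Function.iterate_succ_apply', Function.iterate_succ_apply']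
      exact h2
  have hle : ∀ i, μ (C 0) ≤ μ (C i) := by
    intro i
    induction i with
    | zero => exact le_rfl
    | succ i ih =>
      refine ih.trans ?_
      calc μ (C i) ≤ μ (T ⁻¹' C (i + 1)) := by
            refine measure_mono fun y hy => ?_
            exact hit 1 i y hy
        _ = μ (C (i + 1)) := by
            rw [← Measure.map_apply (measurable_act A) (hcl _).measurableSet, hA]
  have hex : ∃ i j : ℕ, i < j ∧ (C i ∩ C j).Nonempty := by
    by_contra hno
    push Not at hno
    have hdis : Pairwise (Function.onFun Disjoint C) := by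
      intro i j hij
      rw [Function.onFun, Set.disjoint_iff_inter_eq_empty]
      rcases lt_or_gt_of_ne hij with h | h
      · exact hno i j h
      · rw [Set.inter_comm]; exact hno j i h
    have h1 := measure_iUnion hdis (fun i => (hcl i).measurableSet) (μ := μ)
    have h2 : (⊤ : ENNReal) ≤ ∑' i, μ (C i) := by
      have h3 : ∑' _ : ℕ, μ (C 0) = ⊤ := ENNReal.tsum_const_eq_top_of_ne_zero hx.ne'
      rw [← h3]
      exact ENNReal.tsum_le_tsum hle
    rw [← h1] at h2
    exact (measure_ne_top μ _) (top_le_iff.1 h2)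
  obtain ⟨i, j, hij, w, hwi, hwj⟩ := hex
  have hij' : T^[j] x - T^[i] x ∈ H := by
    have h1 : (w - T^[i] x) - (w - T^[j] x) ∈ H := H.sub_mem hwi hwj
    have h2 : (w - T^[i] x) - (w - T^[j] x) = T^[j] x - T^[i] x := by abel
    rwa [h2] at h1
  have hji : C j ⊆ C i := by
    intro y hy
    have h1 : (y - T^[j] x) + (T^[j] x - T^[i] x) ∈ H := H.add_mem hy hij'
    have h2 : (y - T^[j] x) + (T^[j] x - T^[i] x) = y - T^[i] x := by abel
    rwa [h2] at h1
  have hp : ∀ y ∈ C i, T^[j - i] y ∈ C i := by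
    intro y hy
    have h1 := hit (j - i) i y hy
    rw [show i + (j - i) = j by omega] at h1
    exact hji h1
  refine ⟨T^[i] x, j - i, by omega, lt_of_lt_of_le hx (hle i), fun y hy n => ?_⟩
  rw [Function.iterate_mul]
  have h1 : ∀ n : ℕ, (T^[j - i])^[n] y ∈ C i := by
    intro n
    induction n with
    | zero => exact hy
    | succ n ih =>
      rw [Function.iterate_succ_apply']
      exact hp _ ih
  exact h1 n

private theorem mixc_lip {d : ℕ} (E : Set (Tor d)) (k : ℕ) :
    LipschitzWith (k : ℝ≥0) fun x : Tor d => max (1 - (k : ℝ) * Metric.infDist x E) 0 := by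
  refine LipschitzWith.of_dist_le_mul fun x y => ?_
  rw [Real.dist_eq]
  have h1 : |max (1 - (k : ℝ) * Metric.infDist x E) 0 - max (1 - (k : ℝ) * Metric.infDist y E) 0| ≤
      |(1 - (k : ℝ) * Metric.infDist x E) - (1 - (k : ℝ) * Metric.infDist y E)| :=
    abs_max_sub_max_le_abs _ _ _
  refine h1.trans ?_
  have h2 : (1 - (k : ℝ) * Metric.infDist x E) - (1 - (k : ℝ) * Metric.infDist y E) =
      (k : ℝ) * (Metric.infDist y E - Metric.infDist x E) := by ring
  rw [h2, abs_mul, Nat.abs_cast]
  refine mul_le_mul_of_nonneg_left ?_ (Nat.cast_nonneg k)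
  have h3 := (Metric.lipschitz_infDist_pt E).dist_le_mul y x
  rw [Real.dist_eq, NNReal.coe_one, one_mul, dist_comm] at h3
  exact h3

theorem coset_full {d : ℕ} (A : Mat d) (μ : Measure (Tor d)) [IsProbabilityMeasure μ]
    (hA : μ.map (act A) = μ) (γ : ℝ) (hγ : 0 < γ) (hmix : MixRate (act A) μ γ)
    (H : AddSubgroup (Tor d)) (hH : IsClosed (H : Set (Tor d))) (hAH : ∀ h ∈ H, act A h ∈ H)
    (hpos : ∃ x : Tor d, 0 < μ {y | y - x ∈ H}) :
    ∃ x : Tor d, μ {y | y - x ∈ H} = 1 := by
  obtain ⟨x, hx⟩ := hpos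
  obtain ⟨z, p, hp, hz, hinv⟩ := mixc_coset A μ hA H hH hAH hx
  obtain ⟨C, c, hc, hM⟩ := hmix
  set E : Set (Tor d) := {y | y - z ∈ H} with hE
  have hEc : IsClosed E := hH.preimage (continuous_id.sub continuous_const)
  have hEn : E.Nonempty := ⟨z, by simp [hE]⟩
  set f : ℕ → Tor d → ℝ := fun k x => max (1 - (k : ℝ) * Metric.infDist x E) 0 with hf
  have hf0 : ∀ k x, 0 ≤ f k x := fun k x => le_max_right _ _
  have hf1 : ∀ k x, f k x ≤ 1 := by
    intro k x
    refine max_le ?_ zero_le_one
    have := mul_nonneg (Nat.cast_nonneg k : (0 : ℝ) ≤ k) (Metric.infDist_nonneg (x := x) (s := E))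
    linarith
  have hfE : ∀ k, ∀ x ∈ E, f k x = 1 := by
    intro k x hx
    simp [hf, Metric.infDist_zero_of_mem hx]
  have hfc : ∀ k, Continuous (f k) := fun k => (mixc_lip E k).continuous
  have hfi : ∀ k, Integrable (f k) μ := fun k =>
    Integrable.of_bound (hfc k).aestronglyMeasurable 1
      (Eventually.of_forall fun x => by
        rw [Real.norm_eq_abs, abs_of_nonneg (hf0 k x)]; exact hf1 k x)
  have hEr : ∫ x, E.indicator (fun _ => (1 : ℝ)) x ∂μ = μ.real E := by
    rw [integral_indicator_const _ hEc.measurableSet]; simp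
  have hEi : Integrable (E.indicator fun _ => (1 : ℝ)) μ :=
    (integrable_const 1).indicator hEc.measurableSet
  -- the key inequality
  have hkey : ∀ k : ℕ, 1 ≤ k → μ.real E ≤ (∫ x, f k x ∂μ) * ∫ x, f k x ∂μ := by
    intro k hk
    have hb : ∀ x, |f k x| ≤ ((k : ℝ≥0) : ℝ) := by
      intro x
      rw [abs_of_nonneg (hf0 k x), NNReal.coe_natCast]
      exact (hf1 k x).trans (by exact_mod_cast hk)
    have h1 : ∀ n : ℕ, μ.real E - (∫ x, f k x ∂μ) * ∫ x, f k x ∂μ ≤
        C * (k : ℝ≥0) * (k : ℝ≥0) * Real.exp (-c * (((p * n : ℕ) : ℝ)) ^ γ) := by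
      intro n
      have h2 := hM k k (f k) (f k) (mixc_lip E k) (mixc_lip E k) hb hb (p * n)
      have h3 := (abs_le.1 h2).2
      have hTc : Continuous fun x => f k ((act A)^[p * n] x) :=
        (hfc k).comp ((continuous_act A).iterate (p * n))
      have h4 : μ.real E ≤ ∫ x, f k x * f k ((act A)^[p * n] x) ∂μ := by
        rw [← hEr]
        refine integral_mono hEi ?_ fun x => ?_
        · refine Integrable.of_bound ((hfc k).mul hTc).aestronglyMeasurable 1
            (Eventually.of_forall fun x => ?_)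
          rw [Real.norm_eq_abs, abs_mul, abs_of_nonneg (hf0 k _), abs_of_nonneg (hf0 k _)]
          exact mul_le_one₀ (hf1 k _) (hf0 k _) (hf1 k _)
        · by_cases hxE : x ∈ E
          · have hxn : (act A)^[p * n] x ∈ E := hinv x hxE n
            simp only [Set.indicator_of_mem hxE]
            rw [hfE k x hxE, hfE k _ hxn, mul_one]
          · simp only [Set.indicator_of_notMem hxE]
            exact mul_nonneg (hf0 k _) (hf0 k _)
      linarith
    have hlim : Tendsto (fun n : ℕ => C * (k : ℝ≥0) * (k : ℝ≥0) *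
        Real.exp (-c * (((p * n : ℕ) : ℝ)) ^ γ)) atTop (𝓝 0) := by
      have h5 : Tendsto (fun n : ℕ => ((p * n : ℕ) : ℝ)) atTop atTop := by
        refine tendsto_natCast_atTop_atTop.comp ?_
        exact tendsto_id.const_mul_atTop' hp
      have h6 : Tendsto (fun n : ℕ => (((p * n : ℕ) : ℝ)) ^ γ) atTop atTop :=
        (tendsto_rpow_atTop hγ).comp h5
      have h7 : Tendsto (fun n : ℕ => -c * (((p * n : ℕ) : ℝ)) ^ γ) atTop atBot :=
        h6.const_mul_atTop_of_neg (by linarith)
      have h8 := (Real.tendsto_exp_atBot.comp h7).const_mul (C * (k : ℝ≥0) * (k : ℝ≥0))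
      rw [mul_zero] at h8
      exact h8
    have h9 := ge_of_tendsto' hlim h1
    linarith
  have hlimf : Tendsto (fun k : ℕ => ∫ x, f k x ∂μ) atTop (𝓝 (μ.real E)) := by
    rw [← hEr]
    refine tendsto_integral_of_dominated_convergence (fun _ => (1 : ℝ))
      (fun k => (hfc k).aestronglyMeasurable) (integrable_const 1)
      (fun k => Eventually.of_forall fun x => ?_) (Eventually.of_forall fun x => ?_)
    · rw [Real.norm_eq_abs, abs_of_nonneg (hf0 k x)]; exact hf1 k x
    · by_cases hxE : x ∈ E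
      · simp only [Set.indicator_of_mem hxE]
        simp_rw [hfE _ x hxE]
        exact tendsto_const_nhds
      · simp only [Set.indicator_of_notMem hxE]
        have hr : 0 < Metric.infDist x E := (hEc.notMem_iff_infDist_pos hEn).1 hxE
        obtain ⟨K, hK⟩ := exists_nat_gt (1 / Metric.infDist x E)
        refine tendsto_const_nhds.congr' ?_
        filter_upwards [eventually_ge_atTop K] with k hk
        symm
        refine max_eq_right ?_
        rw [div_lt_iff₀ hr] at hK
        have h1 : (K : ℝ) * Metric.infDist x E ≤ k * Metric.infDist x E :=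
          mul_le_mul_of_nonneg_right (by exact_mod_cast hk) hr.le
        linarith
  have hfin : μ.real E ≤ μ.real E * μ.real E := by
    refine ge_of_tendsto (hlimf.mul hlimf) ?_
    filter_upwards [eventually_ge_atTop 1] with k hk
    exact hkey k hk
  have hEpos : 0 < μ.real E := by
    rw [Measure.real, ENNReal.toReal_pos_iff]
    exact ⟨hz, measure_lt_top _ _⟩
  have h1 : 1 ≤ μ.real E := by
    by_contra h
    push Not at h
    nlinarith
  refine ⟨z, ?_⟩
  have h2 : μ.real E = 1 := le_antisymm measureReal_le_one h1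
  calc μ E = ENNReal.ofReal (μ.real E) := (ENNReal.ofReal_toReal (measure_ne_top _ _)).symm
    _ = ENNReal.ofReal 1 := congrArg _ h2
    _ = 1 := ENNReal.ofReal_one

end Pool.Agent.Work.MP_67388f_an.OG
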