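import Pool.Agent.Work.MP_67388f_an.OG.Spt
import Pool.Agent.Work.MP_67388f_an.OG.Lip

/-! # Module Sat (M): the annihilator of the support is saturated under mixing

PROOF. `H = ann (spt μ)`, `Λ = {N | ∀ h ∈ H, pr N h = 0}` (a subgroup of `ℤ^d`). Let `k • N ∈ Λ`, `k ≠ 0`. If
`∫ ch N dμ ≠ 0` then `N ∈ spt μ`, so `N ∈ Λ` by definition of `ann`. Suppose `∫ ch N dμ = 0`; we derive a
contradiction. Let `N_n = vecMul N (A ^ n)`. `k • N_n ∈ Λ` because `act (A^n) h ∈ H` for `h ∈ H` (`act_mem_ann_spt`,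
`pr_act`). The group `{N' | k • N' ∈ Λ} / Λ` is finitely generated (subquotient of `ℤ^d`) and torsion, so
finite (`Module.finite_of_fg_torsion` / `AddCommGroup.finite_of_fg_torsion`-type lemma; or: `Λ' = {N' | k • N' ∈ Λ}` is
finitely generated and `k Λ' ⊆ Λ`). Pigeonhole: there is `n₀` such that `N_n - N_(n₀) ∈ Λ` for infinitely many `n > n₀`.
For such `n`, the function `ch (N_n - N_(n₀))` is constant on the coset `x₀ + H`, which has full measure, so
`‖∫ ch N_n(x) * conj (ch N_(n₀)(x)) dμ‖ = 1`. But it equals `∫ ch N (act A^[n] x) conj (ch N (act A^[n₀] x)) dμ =`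
`∫ ch N (act A^[n - n₀] x) conj (ch N x) dμ` by invariance, which tends to `‖∫ ch N dμ‖² = 0` as `n → ∞` by `MixRate`
(applied to real and imaginary parts of `ch N` and its conjugate, Lipschitz by `norm_ch_sub_le`). Contradiction. -/

set_option autoImplicit false

namespace Pool.Agent.Work.MP_67388f_an.OG

open MeasureTheory Filter Topology
open scoped NNReal

/-- real and imaginary parts of a character are Lipschitz -/
private theorem lip_parts {d : ℕ} (N : Fin d → ℤ) : ∃ K : ℝ≥0, 1 ≤ K ∧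
    LipschitzWith K (fun x : Tor d => (ch N x).re) ∧
    LipschitzWith K (fun x : Tor d => (ch N x).im) := by
  have h0 : 0 ≤ 2 * Real.pi * vs N := mul_nonneg Real.two_pi_pos.le (vs_nonneg N)
  have hK : ((1 + Real.toNNReal (2 * Real.pi * vs N) : ℝ≥0) : ℝ) = 1 + 2 * Real.pi * vs N := by
    push_cast
    rw [Real.coe_toNNReal _ h0]
  have hb : ∀ x y : Tor d, ‖ch N x - ch N y‖ ≤
      ((1 + Real.toNNReal (2 * Real.pi * vs N) : ℝ≥0) : ℝ) * dist x y := by
    intro x y
    refine (norm_ch_sub_le N x y).trans ?_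
    refine mul_le_mul_of_nonneg_right ?_ dist_nonneg
    rw [hK]
    linarith
  refine ⟨1 + Real.toNNReal (2 * Real.pi * vs N), le_self_add, ?_, ?_⟩
  · refine LipschitzWith.of_dist_le_mul fun x y => ?_
    refine le_trans ?_ (hb x y)
    rw [Real.dist_eq, ← Complex.sub_re]
    exact Complex.abs_re_le_norm _
  · refine LipschitzWith.of_dist_le_mul fun x y => ?_
    refine le_trans ?_ (hb x y)
    rw [Real.dist_eq, ← Complex.sub_im]
    exact Complex.abs_im_le_norm _

/-- under a mixing rate the self correlations of a character of zero integral tend to zero -/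
private theorem corr_tendsto {d : ℕ} (A : Mat d) (μ : Measure (Tor d)) [IsProbabilityMeasure μ]
    (γ : ℝ) (hγ : 0 < γ) (hmix : MixRate (act A) μ γ) (N : Fin d → ℤ)
    (h0 : ∫ x, ch N x ∂μ = 0) :
    Tendsto (fun n : ℕ => ∫ x, ch N (act (A ^ n) x) * (starRingEnd ℂ) (ch N x) ∂μ) atTop
      (𝓝 0) := by
  obtain ⟨C, c, hc, hm⟩ := hmix
  obtain ⟨K, hK1, hre, him⟩ := lip_parts N
  have hK1' : (1 : ℝ) ≤ (K : ℝ) := by exact_mod_cast hK1
  have hbre : ∀ x : Tor d, |(ch N x).re| ≤ (K : ℝ) := fun x =>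
    (Complex.abs_re_le_norm _).trans ((norm_ch N x).le.trans hK1')
  have hbim : ∀ x : Tor d, |(ch N x).im| ≤ (K : ℝ) := fun x =>
    (Complex.abs_im_le_norm _).trans ((norm_ch N x).le.trans hK1')
  have hmeas : ∀ (M : Fin d → ℤ), Continuous fun x : Tor d => ch M x := continuous_ch
  have hint : Integrable (fun x => ch N x) μ := by
    refine Integrable.of_bound (hmeas N).aestronglyMeasurable 1 (Eventually.of_forall fun x => ?_)
    exact (norm_ch N x).le
  have hre0 : ∫ x, (ch N x).re ∂μ = 0 := by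
    have := integral_re (𝕜 := ℂ) hint
    simp only [RCLike.re_to_complex] at this
    rw [this, h0]; simp
  have him0 : ∫ x, (ch N x).im ∂μ = 0 := by
    have := integral_im (𝕜 := ℂ) hint
    simp only [RCLike.im_to_complex] at this
    rw [this, h0]; simp
  -- the real correlations
  have hE : Tendsto (fun n : ℕ => C * K * K * Real.exp (-c * (n : ℝ) ^ γ)) atTop (𝓝 0) := by
    have h1 : Tendsto (fun n : ℕ => (n : ℝ) ^ γ) atTop atTop :=
      (tendsto_rpow_atTop hγ).comp tendsto_natCast_atTop_atTop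
    have h2 : Tendsto (fun n : ℕ => -c * (n : ℝ) ^ γ) atTop atBot :=
      h1.const_mul_atTop_of_neg (by linarith)
    have h3 := (Real.tendsto_exp_atBot.comp h2).const_mul (C * K * K)
    rw [mul_zero] at h3
    exact h3
  have key : ∀ f g : Tor d → ℝ, LipschitzWith K f → LipschitzWith K g → (∀ x, |f x| ≤ K) →
      (∀ x, |g x| ≤ K) → ∫ x, f x ∂μ = 0 →
      Tendsto (fun n : ℕ => ∫ x, f x * g (act (A ^ n) x) ∂μ) atTop (𝓝 0) := by
    intro f g hf hg hbf hbg hf0
    refine squeeze_zero_norm (fun n => ?_) hE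
    have := hm K K f g hf hg hbf hbg n
    rw [hf0, zero_mul, sub_zero] at this
    simpa only [act_pow, Real.norm_eq_abs] using this
  have hcont : ∀ n : ℕ, Continuous fun x : Tor d => ch N (act (A ^ n) x) := fun n =>
    (continuous_ch N).comp (continuous_act _)
  have hI : ∀ (f g : Tor d → ℝ), Continuous f → Continuous g → (∀ x, |f x| ≤ K) →
      (∀ x, |g x| ≤ K) → Integrable (fun x => f x * g x) μ := by
    intro f g hf hg hbf hbg
    refine Integrable.of_bound (hf.mul hg).aestronglyMeasurable (K * K)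
      (Eventually.of_forall fun x => ?_)
    rw [norm_mul, Real.norm_eq_abs, Real.norm_eq_abs]
    exact mul_le_mul (hbf x) (hbg x) (abs_nonneg _) K.coe_nonneg
  have hre_c : Continuous fun x : Tor d => (ch N x).re := Complex.continuous_re.comp (continuous_ch N)
  have him_c : Continuous fun x : Tor d => (ch N x).im := Complex.continuous_im.comp (continuous_ch N)
  have hEq : ∀ n : ℕ, ∫ x, ch N (act (A ^ n) x) * (starRingEnd ℂ) (ch N x) ∂μ =
      (((∫ x, (ch N x).re * (ch N (act (A ^ n) x)).re ∂μ) +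
        ∫ x, (ch N x).im * (ch N (act (A ^ n) x)).im ∂μ : ℝ) : ℂ) +
      (((∫ x, (ch N x).re * (ch N (act (A ^ n) x)).im ∂μ) -
        ∫ x, (ch N x).im * (ch N (act (A ^ n) x)).re ∂μ : ℝ) : ℂ) * Complex.I := by
    intro n
    have hren : Continuous fun x : Tor d => (ch N (act (A ^ n) x)).re :=
      Complex.continuous_re.comp (hcont n)
    have himn : Continuous fun x : Tor d => (ch N (act (A ^ n) x)).im :=
      Complex.continuous_im.comp (hcont n)
    have hbren : ∀ x : Tor d, |(ch N (act (A ^ n) x)).re| ≤ (K : ℝ) := fun x => hbre _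
    have hbimn : ∀ x : Tor d, |(ch N (act (A ^ n) x)).im| ≤ (K : ℝ) := fun x => hbim _
    rw [← integral_add (hI _ _ hre_c hren hbre hbren) (hI _ _ him_c himn hbim hbimn),
      ← integral_sub (hI _ _ hre_c himn hbre hbimn) (hI _ _ him_c hren hbim hbren),
      ← integral_complex_ofReal, ← integral_complex_ofReal, ← integral_mul_const, ← integral_add]
    · refine integral_congr_ae (Eventually.of_forall fun x => ?_)
      apply Complex.ext
      · simp
        ring
      · simp
        ring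
    · exact ((hI _ _ hre_c hren hbre hbren).add (hI _ _ him_c himn hbim hbimn)).ofReal
    · exact (((hI _ _ hre_c himn hbre hbimn).sub (hI _ _ him_c hren hbim hbren)).ofReal).mul_const _
  simp only [hEq]
  have h1 := key _ _ hre hre hbre hbre hre0
  have h2 := key _ _ him him hbim hbim him0
  have h3 := key _ _ hre him hbre hbim hre0
  have h4 := key _ _ him hre hbim hbre him0
  have h5 := (Complex.continuous_ofReal.tendsto _).comp (h1.add h2)
  have h6 := ((Complex.continuous_ofReal.tendsto _).comp (h3.sub h4)).mul_const Complex.I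
  have h7 := h5.add h6
  simpa using h7

theorem spt_saturated {d : ℕ} (A : Mat d) (μ : Measure (Tor d)) [IsProbabilityMeasure μ]
    (hA : μ.map (act A) = μ) (γ : ℝ) (hγ : 0 < γ) (hmix : MixRate (act A) μ γ)
    (x₀ : Tor d) (hx₀ : μ {y | y - x₀ ∈ ann (spt μ)} = 1) (k : ℤ) (N : Fin d → ℤ) (hk : k ≠ 0)
    (hkN : ∀ h ∈ ann (spt μ), pr (k • N) h = 0) : ∀ h ∈ ann (spt μ), pr N h = 0 := by
  by_cases hN : N ∈ spt μ
  · intro h hh
    exact hh N hN
  have h0 : ∫ x, ch N x ∂μ = 0 := by
    by_contra hne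
    exact hN hne
  exfalso
  -- the group of the frequencies killing `H`
  let Λ : Submodule ℤ (Fin d → ℤ) :=
    { carrier := {N | ∀ h ∈ ann (spt μ), pr N h = 0}
      add_mem' := by
        intro a b ha hb h hh
        rw [add_pr, ha h hh, hb h hh, add_zero]
      zero_mem' := by
        intro h _
        simp [pr]
      smul_mem' := by
        intro z a ha h hh
        rw [zsmul_pr, ha h hh, smul_zero] }
  have hΛ : ∀ a : Fin d → ℤ, a ∈ Λ ↔ ∀ h ∈ ann (spt μ), pr a h = 0 := fun a => Iff.rfl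
  have hHn : ∀ (n : ℕ), ∀ h ∈ ann (spt μ), act (A ^ n) h ∈ ann (spt μ) := by
    intro n
    induction n with
    | zero => intro h hh; rw [pow_zero, act_one]; exact hh
    | succ n ih =>
      intro h hh
      rw [pow_succ, act_mul]
      exact ih _ (act_mem_ann_spt μ A hA h hh)
  let Q := (Fin d → ℤ) ⧸ Λ
  have hfin : Finite (Submodule.torsionBy ℤ Q k) := by
    have : Module.Finite ℤ (Submodule.torsionBy ℤ Q k) := inferInstance
    refine Module.finite_of_fg_torsion _ ?_
    rintro ⟨q, hq⟩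
    refine ⟨⟨k, mem_nonZeroDivisors_of_ne_zero hk⟩, ?_⟩
    apply Subtype.ext
    simpa using hq
  have hmem : ∀ n : ℕ, (Submodule.Quotient.mk (Matrix.vecMul N (A ^ n)) : Q) ∈
      Submodule.torsionBy ℤ Q k := by
    intro n
    rw [Submodule.mem_torsionBy_iff, ← Submodule.Quotient.mk_smul, Submodule.Quotient.mk_eq_zero,
      hΛ]
    intro h hh
    rw [zsmul_pr, ← pr_act, ← zsmul_pr]
    exact hkN _ (hHn n h hh)
  obtain ⟨q, hq⟩ := Finite.exists_infinite_fiber
    (fun n : ℕ => (⟨_, hmem n⟩ : Submodule.torsionBy ℤ Q k))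
  have hS : Set.Infinite ((fun n : ℕ => (⟨_, hmem n⟩ : Submodule.torsionBy ℤ Q k)) ⁻¹' {q}) :=
    Set.infinite_coe_iff.mp hq
  obtain ⟨n₀, hn₀⟩ := hS.nonempty
  have hdiff : ∀ n ∈ (fun n : ℕ => (⟨_, hmem n⟩ : Submodule.torsionBy ℤ Q k)) ⁻¹' {q},
      Matrix.vecMul N (A ^ n) - Matrix.vecMul N (A ^ n₀) ∈ Λ := by
    intro n hn
    have h1 : (⟨_, hmem n⟩ : Submodule.torsionBy ℤ Q k) = ⟨_, hmem n₀⟩ := by
      rw [Set.mem_preimage, Set.mem_singleton_iff] at hn hn₀
      rw [hn, hn₀]
    have h2 := congrArg Subtype.val h1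
    exact (Submodule.Quotient.eq Λ).mp h2
  have hlim := corr_tendsto A μ γ hγ hmix N h0
  rw [Metric.tendsto_atTop] at hlim
  obtain ⟨m₀, hm₀⟩ := hlim 1 one_pos
  obtain ⟨n, hnS, hn⟩ := hS.exists_gt (n₀ + m₀)
  have hd := hdiff n hnS
  have hlt := hm₀ (n - n₀) (by omega)
  rw [dist_zero_right] at hlt
  have hsplit : n = (n - n₀) + n₀ := by omega
  have e1 : ∫ x, ch N (act (A ^ (n - n₀)) x) * (starRingEnd ℂ) (ch N x) ∂μ =
      ∫ x, ch (Matrix.vecMul N (A ^ n) - Matrix.vecMul N (A ^ n₀)) x ∂μ := by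
    have hmap : μ.map (act (A ^ n₀)) = μ := by
      clear hdiff hn₀ hd hsplit hlt hn hS
      induction n₀ with
      | zero =>
        have : (act (A ^ 0) : Tor d → Tor d) = id := by
          funext x; rw [pow_zero, act_one]; rfl
        rw [this, Measure.map_id]
      | succ m ih =>
        have : (act (A ^ (m + 1)) : Tor d → Tor d) = act (A ^ m) ∘ act A := by
          funext x; rw [pow_succ, act_mul]; rfl
        rw [this, ← Measure.map_map (measurable_act _) (measurable_act _), hA, ih]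
    have hc : Continuous fun x : Tor d =>
        ch N (act (A ^ (n - n₀)) x) * (starRingEnd ℂ) (ch N x) :=
      ((continuous_ch N).comp (continuous_act _)).mul
        (Complex.continuous_conj.comp (continuous_ch N))
    conv_lhs => rw [← hmap]
    rw [integral_map (measurable_act _).aemeasurable hc.aestronglyMeasurable]
    refine integral_congr_ae (Eventually.of_forall fun x => ?_)
    show ch N (act (A ^ (n - n₀)) (act (A ^ n₀) x)) * (starRingEnd ℂ) (ch N (act (A ^ n₀) x)) = _
    rw [← act_mul, ← pow_add, ← hsplit, ch_act, ch_act]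
    have hne : ch (Matrix.vecMul N (A ^ n₀)) x ≠ 0 := by
      rw [← norm_ne_zero_iff, norm_ch]; exact one_ne_zero
    have h3 : ch (Matrix.vecMul N (A ^ n)) x =
        ch (Matrix.vecMul N (A ^ n) - Matrix.vecMul N (A ^ n₀)) x *
          ch (Matrix.vecMul N (A ^ n₀)) x := by
      rw [← add_ch, sub_add_cancel]
    have h4 : ch (Matrix.vecMul N (A ^ n₀)) x *
        (starRingEnd ℂ) (ch (Matrix.vecMul N (A ^ n₀)) x) = 1 := by
      rw [Complex.mul_conj, Complex.normSq_eq_norm_sq, norm_ch]; simp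
    rw [h3, mul_assoc, h4, mul_one]
  have e2 : ∫ x, ch (Matrix.vecMul N (A ^ n) - Matrix.vecMul N (A ^ n₀)) x ∂μ =
      ch (Matrix.vecMul N (A ^ n) - Matrix.vecMul N (A ^ n₀)) x₀ := by
    have hae : ∀ᵐ y ∂μ, ch (Matrix.vecMul N (A ^ n) - Matrix.vecMul N (A ^ n₀)) y =
        ch (Matrix.vecMul N (A ^ n) - Matrix.vecMul N (A ^ n₀)) x₀ := by
      have hmeas : MeasurableSet {y : Tor d | y - x₀ ∈ ann (spt μ)} := by
        have : {y : Tor d | y - x₀ ∈ ann (spt μ)} =
            (fun y => y - x₀) ⁻¹' ((ann (spt μ) : AddSubgroup (Tor d)) : Set (Tor d)) := rfl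
        rw [this]
        exact ((isClosed_ann (spt μ)).preimage (continuous_id.sub continuous_const)).measurableSet
      have h5 : ∀ᵐ y ∂μ, y ∈ {y : Tor d | y - x₀ ∈ ann (spt μ)} :=
        (mem_ae_iff_prob_eq_one hmeas).mpr hx₀
      filter_upwards [h5] with y hy
      have h6 : pr (Matrix.vecMul N (A ^ n) - Matrix.vecMul N (A ^ n₀)) (y - x₀) = 0 :=
        hd _ hy
      have h7 : y = (y - x₀) + x₀ := by abel
      conv_lhs => rw [h7]
      rw [ch_add, ch_eq _ (y - x₀), h6]
      simp
    rw [integral_congr_ae hae, integral_const]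
    simp
  rw [e1, e2, norm_ch] at hlt
  exact lt_irrefl _ hlt

end Pool.Agent.Work.MP_67388f_an.OG
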