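import Pool.Agent.Work.MP_67388f_an.OG.SmC2

/-! # Module SmC3 (M): a mixing rate of one matrix implies the sampling property (three blocks)

`powHom A` sends the exponent vector `m : Fin 1 → ℕ` to `A ^ (m 0)`.

PROOF. Given `N, M, ε, κ` and `C, c₀, Λ` from `two_blocks` (with this `N, M, ε`). WLOG `κ ≤ 1` (replace `κ` by `min κ 1`)
and `γ ≤ 1` (not needed if you do not want). For `j` let `τ = ⌊κ j / 4⌋₊`,
`n = ⌊η (j : ℝ)^γ'⌋₊ + 1` with `γ' = min γ 1` and `η > 0` small, blocks `i = 0, 1, 2`: times `M (i τ + m)`, `m < n`.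
For `j ≥ j₀`: `2 τ + n ≤ κ j` (as `η ≤ κ/4`, `n ≤ η j + 1`), `τ ≥ κ j / 8 ≥ 1`. Bad event of block `i`:
`ε < ‖bavg A M n N (act (A^(M i τ)) x) - c‖`. By invariance and `two_blocks` (`D = M τ` or `2 M τ`, both with
`D^γ ≥ (κ j/8)^γ`), each pair is bad with probability `≤ (C/n)² + C Λ^n exp (-c₀ (κ j/8)^γ)`
`≤ C² η^(-2) j^(-2γ') + C Λ exp (η log Λ j^γ' - c₀ (κ/8)^γ j^γ)`, and for `η` small (`η log Λ ≤ (c₀/2) (κ/8)^γ`, `j ≥ 1`)
the last exponential is `≤ exp (-(c₀/2) (κ/8)^γ j^γ)`, summable; the first is summable because `2 γ' > 1`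
(`γ > 1/2`). `G j` = set where at most one of the three blocks is bad (for `j < j₀`: `G j = ∅`). Measurable. For
`x, y ∈ G j` some block `i` is good for both (each has at most one bad block out of three);
`F = {m : Fin 1 → ℕ | m 0 ∈ [i τ, i τ + n)}` (image of `Finset.range n`), `favg (powHom A) M F N x = bavg A M n N (act (A^(M i τ)) x)`
(`A ^ (M (i τ + m)) = A ^ (M m) * A ^ (M i τ)`, `act_mul`), `m 0 ≤ 2 τ + n ≤ κ j`. -/

set_option autoImplicit false

namespace Pool.Agent.Work.MP_67388f_an.OG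

open MeasureTheory Filter Topology
open scoped NNReal

/-- the homomorphism `m ↦ A ^ (m 0)` -/
def powHom {d : ℕ} (A : Mat d) : Multiplicative (Fin 1 → ℕ) →* Mat d where
  toFun m := A ^ (Multiplicative.toAdd m 0)
  map_one' := by simp
  map_mul' := by
    intro x y
    simp [pow_add]

private theorem summable_exp_rpow (a γ : ℝ) (ha : 0 < a) (hγ : 0 < γ) :
    Summable fun j : ℕ => Real.exp (-a * (j : ℝ) ^ γ) := by
  have h1 : Tendsto (fun n : ℕ => (n : ℝ) ^ γ) atTop atTop :=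
    (tendsto_rpow_atTop hγ).comp tendsto_natCast_atTop_atTop
  have h2 := (isLittleO_exp_neg_mul_rpow_atTop ha (-2 / γ)).comp_tendsto h1
  refine summable_of_isBigO_nat (g := fun j : ℕ => (j : ℝ) ^ (-2 : ℝ))
    (Real.summable_nat_rpow.mpr (by norm_num)) ?_
  refine h2.isBigO.congr_right fun j => ?_
  show ((j : ℝ) ^ γ) ^ (-2 / γ) = (j : ℝ) ^ (-2 : ℝ)
  rw [← Real.rpow_mul (Nat.cast_nonneg j)]
  congr 1
  field_simp

private theorem favg_block {d : ℕ} (A : Mat d) (M n τ : ℕ) (N : Fin d → ℤ) (x : Tor d) :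
    favg (powHom A) M ((Finset.range n).image (fun m => (fun _ : Fin 1 => τ + m))) N x =
      bavg A M n N (act (A ^ (M * τ)) x) := by
  have hinj : Function.Injective (fun m : ℕ => (fun _ : Fin 1 => τ + m)) := by
    intro a b hab
    have := congrFun hab 0
    simpa using this
  unfold favg bavg
  rw [Finset.card_image_of_injective _ hinj, Finset.card_range, Finset.sum_image
    (fun a _ b _ h => hinj h)]
  congr 1
  refine Finset.sum_congr rfl fun m _ => ?_
  have : el (powHom A) (M • (fun _ : Fin 1 => τ + m)) = A ^ (M * m) * A ^ (M * τ) := by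
    show A ^ ((M • (fun _ : Fin 1 => τ + m)) 0) = _
    rw [← pow_add, Pi.smul_apply, smul_eq_mul]
    congr 1
    ring
  rw [this, act_mul]

private theorem continuous_bavg {d : ℕ} (A : Mat d) (M n : ℕ) (N : Fin d → ℤ) :
    Continuous (bavg A M n N) := by
  unfold bavg
  exact continuous_const.mul (continuous_finsetSum _ fun m _ =>
    (continuous_ch N).comp (continuous_act _))

private theorem map_act_pow {d : ℕ} (A : Mat d) (μ : Measure (Tor d)) (hA : μ.map (act A) = μ)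
    (n : ℕ) : μ.map (act (A ^ n)) = μ := by
  induction n with
  | zero =>
    have : (act (A ^ 0) : Tor d → Tor d) = id := by
      funext x; rw [pow_zero, act_one]; rfl
    rw [this, Measure.map_id]
  | succ m ih =>
    have : (act (A ^ (m + 1)) : Tor d → Tor d) = act (A ^ m) ∘ act A := by
      funext x; rw [pow_succ, act_mul]; rfl
    rw [this, ← Measure.map_map (measurable_act _) (measurable_act _), hA, ih]

/-- the set where the block of length `n` starting at time `M t` is bad -/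
private def bd {d : ℕ} (A : Mat d) (μ : Measure (Tor d)) (M n : ℕ) (N : Fin d → ℤ) (ε : ℝ)
    (t : ℕ) : Set (Tor d) :=
  {x | ε < ‖bavg A M n N (act (A ^ (M * t)) x) - ∫ z, ch N z ∂μ‖}

private theorem measurable_bd {d : ℕ} (A : Mat d) (μ : Measure (Tor d)) (M n : ℕ)
    (N : Fin d → ℤ) (ε : ℝ) (t : ℕ) : MeasurableSet (bd A μ M n N ε t) := by
  have : Continuous fun x : Tor d => ‖bavg A M n N (act (A ^ (M * t)) x) - ∫ z, ch N z ∂μ‖ :=
    (((continuous_bavg A M n N).comp (continuous_act _)).sub continuous_const).norm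
  exact measurableSet_lt measurable_const this.measurable

private theorem bd_inter {d : ℕ} (A : Mat d) (μ : Measure (Tor d)) (hA : μ.map (act A) = μ)
    (M n : ℕ) (N : Fin d → ℤ) (ε : ℝ) (t u : ℕ) :
    μ.real (bd A μ M n N ε t ∩ bd A μ M n N ε (t + u)) =
      μ.real {x | ε < ‖bavg A M n N x - ∫ z, ch N z ∂μ‖ ∧
          ε < ‖bavg A M n N (act (A ^ (M * u)) x) - ∫ z, ch N z ∂μ‖} := by
  have hm : MeasurableSet {x | ε < ‖bavg A M n N x - ∫ z, ch N z ∂μ‖ ∧
          ε < ‖bavg A M n N (act (A ^ (M * u)) x) - ∫ z, ch N z ∂μ‖} := by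
    have h1 := measurable_bd A μ M n N ε 0
    have h2 := measurable_bd A μ M n N ε u
    have h3 := h1.inter h2
    have : {x | ε < ‖bavg A M n N x - ∫ z, ch N z ∂μ‖ ∧
          ε < ‖bavg A M n N (act (A ^ (M * u)) x) - ∫ z, ch N z ∂μ‖} =
        bd A μ M n N ε 0 ∩ bd A μ M n N ε u := by
      ext x
      simp only [bd, Set.mem_ofPred_eq, Set.mem_inter_iff, mul_zero, pow_zero, act_one]
    rw [this]
    exact h3
  have h4 : bd A μ M n N ε t ∩ bd A μ M n N ε (t + u) = act (A ^ (M * t)) ⁻¹'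
      {x | ε < ‖bavg A M n N x - ∫ z, ch N z ∂μ‖ ∧
          ε < ‖bavg A M n N (act (A ^ (M * u)) x) - ∫ z, ch N z ∂μ‖} := by
    ext x
    simp only [bd, Set.mem_ofPred_eq, Set.mem_inter_iff, Set.mem_preimage]
    rw [← act_mul, ← pow_add, mul_add, add_comm (M * u)]
  rw [h4, measureReal_def, ← Measure.map_apply (measurable_act _) hm, map_act_pow A μ hA,
    ← measureReal_def]

private theorem three_prop {x0 x1 x2 y0 y1 y2 : Prop}
    (hx : ¬((x0 ∧ x1 ∨ x0 ∧ x2) ∨ x1 ∧ x2)) (hy : ¬((y0 ∧ y1 ∨ y0 ∧ y2) ∨ y1 ∧ y2)) :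
    (¬x0 ∧ ¬y0) ∨ (¬x1 ∧ ¬y1) ∨ (¬x2 ∧ ¬y2) := by
  by_cases h0 : x0 <;> by_cases h1 : x1 <;> by_cases h2 : x2 <;>
    by_cases k0 : y0 <;> by_cases k1 : y1 <;> by_cases k2 : y2 <;> simp_all

theorem samp_of_mix {d : ℕ} (A : Mat d) (μ : Measure (Tor d)) [IsProbabilityMeasure μ]
    (hA : μ.map (act A) = μ) (γ : ℝ) (hγ : 1 / 2 < γ) (hmix : MixRate (act A) μ γ) :
    Samp (powHom A) μ := by
  intro N M ε κ hM hε hκ
  have hγ0 : 0 < γ := by linarith
  obtain ⟨C, c₀, Λ, hC, hc₀, hΛ, hbd⟩ := two_blocks A μ hA γ hγ0 hmix N M hM ε hε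
  set γ' : ℝ := min γ 1 with hγ'
  have hγ'1 : γ' ≤ 1 := min_le_right _ _
  have hγ'γ : γ' ≤ γ := min_le_left _ _
  have hγ'2 : 1 / 2 < γ' := lt_min hγ (by norm_num)
  have hlog : 0 ≤ Real.log Λ := Real.log_nonneg hΛ
  set a : ℝ := c₀ / 2 * (κ / 8) ^ γ with ha
  have hκ8 : 0 < (κ / 8) ^ γ := Real.rpow_pos_of_pos (by positivity) _
  have ha0 : 0 < a := by positivity
  set η : ℝ := min (κ / 4) (a / (Real.log Λ + 1)) with hη
  have hη0 : 0 < η := lt_min (by positivity) (by positivity)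
  have hηκ : η ≤ κ / 4 := min_le_left _ _
  have hηa : η * Real.log Λ ≤ a := by
    have h1 : η ≤ a / (Real.log Λ + 1) := min_le_right _ _
    have h2 : η * (Real.log Λ + 1) ≤ a := by
      rwa [le_div_iff₀ (by positivity)] at h1
    nlinarith
  -- the scales
  let τ : ℕ → ℕ := fun j => ⌊κ * j / 4⌋₊
  let n : ℕ → ℕ := fun j => ⌊η * (j : ℝ) ^ γ'⌋₊ + 1
  let J : ℕ := ⌈8 / κ⌉₊ + 1
  have hJ : ∀ j : ℕ, J ≤ j → 1 ≤ (j : ℝ) ∧ 8 / κ ≤ j := by
    intro j hj
    have h1 : (J : ℝ) ≤ j := by exact_mod_cast hj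
    have h2 : 8 / κ ≤ (⌈8 / κ⌉₊ : ℝ) := Nat.le_ceil _
    have h3 : (J : ℝ) = (⌈8 / κ⌉₊ : ℝ) + 1 := by simp [J]
    have h4 : (0 : ℝ) ≤ (⌈8 / κ⌉₊ : ℝ) := Nat.cast_nonneg _
    constructor <;> linarith
  let G : ℕ → Set (Tor d) := fun j => if J ≤ j then
    ((bd A μ M (n j) N ε 0 ∩ bd A μ M (n j) N ε (0 + τ j)) ∪
     (bd A μ M (n j) N ε 0 ∩ bd A μ M (n j) N ε (0 + 2 * τ j)) ∪
     (bd A μ M (n j) N ε (τ j) ∩ bd A μ M (n j) N ε (τ j + τ j)))ᶜ else ∅
  refine ⟨G, ?_, ?_, ?_⟩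
  · intro j
    by_cases hj : J ≤ j
    · simp only [G, if_pos hj]
      exact ((((measurable_bd ..).inter (measurable_bd ..)).union
        ((measurable_bd ..).inter (measurable_bd ..))).union
        ((measurable_bd ..).inter (measurable_bd ..))).compl
    · simp only [G, if_neg hj]
      exact MeasurableSet.empty
  · -- summability
    have hpair : ∀ j : ℕ, J ≤ j → ∀ D : ℕ, τ j ≤ D →
        (C / (n j : ℕ)) ^ 2 + C * Λ ^ (n j) * Real.exp (-c₀ * (D : ℝ) ^ γ) ≤
          C ^ 2 / η ^ 2 * (j : ℝ) ^ (-(2 * γ')) + C * Λ * Real.exp (-a * (j : ℝ) ^ γ) := by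
      intro j hj D hD
      obtain ⟨hj1, hj8⟩ := hJ j hj
      have hj0 : (0 : ℝ) < j := by linarith
      have hjg : (0 : ℝ) < (j : ℝ) ^ γ' := Real.rpow_pos_of_pos hj0 _
      have hn1 : η * (j : ℝ) ^ γ' ≤ (n j : ℝ) := by
        have := (Nat.lt_floor_add_one (η * (j : ℝ) ^ γ')).le
        simpa [n] using this
      have hn2 : (n j : ℝ) ≤ η * (j : ℝ) ^ γ' + 1 := by
        have := Nat.floor_le (mul_nonneg hη0.le hjg.le)
        have h3 : (n j : ℝ) = (⌊η * (j : ℝ) ^ γ'⌋₊ : ℝ) + 1 := by simp [n]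
        rw [h3]; linarith
      have hn0 : (0 : ℝ) < (n j : ℝ) := lt_of_lt_of_le (mul_pos hη0 hjg) hn1
      refine add_le_add ?_ ?_
      · rw [div_pow]
        have h5 : (C ^ 2 / η ^ 2 * (j : ℝ) ^ (-(2 * γ'))) = C ^ 2 / (η * (j : ℝ) ^ γ') ^ 2 := by
          have h6 : (j : ℝ) ^ (-(2 * γ')) = (((j : ℝ) ^ γ') ^ 2)⁻¹ := by
            rw [Real.rpow_neg hj0.le, mul_comm, Real.rpow_mul hj0.le]
            norm_num
          rw [h6, mul_pow]
          field_simp
        rw [h5]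
        have h7 : (η * (j : ℝ) ^ γ') ^ 2 ≤ (n j : ℝ) ^ 2 :=
          pow_le_pow_left₀ (mul_pos hη0 hjg).le hn1 2
        exact div_le_div_of_nonneg_left (by positivity) (by positivity) h7
      · have hΛ0 : 0 < Λ := by linarith
        have h8 : Λ ^ (n j) ≤ Λ * Real.exp (a * (j : ℝ) ^ γ) := by
          have h9 : Λ ^ (n j) = Real.exp (Real.log Λ * (n j : ℝ)) := by
            rw [← Real.rpow_natCast, Real.rpow_def_of_pos hΛ0]
          have h10 : Λ * Real.exp (a * (j : ℝ) ^ γ) =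
              Real.exp (Real.log Λ + a * (j : ℝ) ^ γ) := by
            rw [Real.exp_add, Real.exp_log hΛ0]
          rw [h9, h10]
          apply Real.exp_le_exp.mpr
          have h11 : (j : ℝ) ^ γ' ≤ (j : ℝ) ^ γ := Real.rpow_le_rpow_of_exponent_le hj1 hγ'γ
          calc Real.log Λ * (n j : ℝ) ≤ Real.log Λ * (η * (j : ℝ) ^ γ' + 1) :=
                mul_le_mul_of_nonneg_left hn2 hlog
            _ = Real.log Λ + (η * Real.log Λ) * (j : ℝ) ^ γ' := by ring
            _ ≤ Real.log Λ + a * (j : ℝ) ^ γ' := by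
                gcongr
            _ ≤ Real.log Λ + a * (j : ℝ) ^ γ := by
                gcongr
        have hτ : κ * j / 8 ≤ (D : ℝ) := by
          have h12 : κ * j / 4 - 1 ≤ (τ j : ℝ) := by
            have := Nat.lt_floor_add_one (κ * j / 4)
            simp only [τ]; linarith
          have h13 : (τ j : ℝ) ≤ (D : ℝ) := by exact_mod_cast hD
          have h14 : 8 ≤ κ * j := by
            rw [div_le_iff₀ hκ] at hj8
            linarith
          linarith
        have h15 : (κ / 8) ^ γ * (j : ℝ) ^ γ ≤ (D : ℝ) ^ γ := by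
          rw [← Real.mul_rpow (by positivity) hj0.le]
          refine Real.rpow_le_rpow (by positivity) ?_ hγ0.le
          linarith
        have h16 : Real.exp (-c₀ * (D : ℝ) ^ γ) ≤ Real.exp (-(2 * a) * (j : ℝ) ^ γ) := by
          apply Real.exp_le_exp.mpr
          have : c₀ * ((κ / 8) ^ γ * (j : ℝ) ^ γ) ≤ c₀ * (D : ℝ) ^ γ :=
            mul_le_mul_of_nonneg_left h15 hc₀.le
          have h17 : 2 * a = c₀ * (κ / 8) ^ γ := by rw [ha]; ring
          rw [h17]
          nlinarith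
        calc C * Λ ^ (n j) * Real.exp (-c₀ * (D : ℝ) ^ γ)
            ≤ C * (Λ * Real.exp (a * (j : ℝ) ^ γ)) * Real.exp (-(2 * a) * (j : ℝ) ^ γ) := by
              gcongr
          _ = C * Λ * (Real.exp (a * (j : ℝ) ^ γ) * Real.exp (-(2 * a) * (j : ℝ) ^ γ)) := by ring
          _ = C * Λ * Real.exp (-a * (j : ℝ) ^ γ) := by
              rw [← Real.exp_add]
              congr 2
              ring
    have hsum : Summable fun j : ℕ => 3 * (C ^ 2 / η ^ 2 * (j : ℝ) ^ (-(2 * γ')) +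
        C * Λ * Real.exp (-a * (j : ℝ) ^ γ)) := by
      refine Summable.mul_left _ (Summable.add (Summable.mul_left _ ?_)
        (Summable.mul_left _ (summable_exp_rpow a γ ha0 hγ0)))
      exact Real.summable_nat_rpow.mpr (by linarith)
    refine Summable.of_norm_bounded_eventually_nat hsum ?_
    filter_upwards [eventually_ge_atTop J] with j hj
    rw [Real.norm_of_nonneg measureReal_nonneg]
    simp only [G, if_pos hj, compl_compl]
    have hn : 0 < n j := Nat.succ_pos _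
    have hM1 : 1 ≤ M := hM
    have hle1 : τ j ≤ M * τ j := Nat.le_mul_of_pos_left _ hM
    have hle2 : τ j ≤ M * (2 * τ j) := by nlinarith
    refine (measureReal_union_le _ _).trans ?_
    have h20 := measureReal_union_le (μ := μ)
      (bd A μ M (n j) N ε 0 ∩ bd A μ M (n j) N ε (0 + τ j))
      (bd A μ M (n j) N ε 0 ∩ bd A μ M (n j) N ε (0 + 2 * τ j))
    have h21 := (bd_inter A μ hA M (n j) N ε 0 (τ j)).le.trans
      ((hbd (n j) (M * τ j) hn).trans (hpair j hj _ hle1))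
    have h22 := (bd_inter A μ hA M (n j) N ε 0 (2 * τ j)).le.trans
      ((hbd (n j) (M * (2 * τ j)) hn).trans (hpair j hj _ hle2))
    have h23 := (bd_inter A μ hA M (n j) N ε (τ j) (τ j)).le.trans
      ((hbd (n j) (M * τ j) hn).trans (hpair j hj _ hle1))
    linarith
  · intro j x hx y hy
    by_cases hj : J ≤ j
    swap
    · simp [G, if_neg hj] at hx
    obtain ⟨hj1, hj8⟩ := hJ j hj
    have hj0 : (0 : ℝ) < j := by linarith
    simp only [G, if_pos hj, Set.mem_compl_iff, Set.mem_union, Set.mem_inter_iff, zero_add] at hx hy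
    -- a common good block
    have hex : ∃ t : ℕ, t ≤ 2 * τ j ∧ x ∉ bd A μ M (n j) N ε t ∧ y ∉ bd A μ M (n j) N ε t := by
      have h2 : τ j + τ j = 2 * τ j := by ring
      rw [h2] at hx hy
      rcases three_prop hx hy with h | h | h
      · exact ⟨0, Nat.zero_le _, h.1, h.2⟩
      · exact ⟨τ j, by omega, h.1, h.2⟩
      · exact ⟨2 * τ j, le_rfl, h.1, h.2⟩
    obtain ⟨t, ht, hxt, hyt⟩ := hex
    refine ⟨(Finset.range (n j)).image (fun m => (fun _ : Fin 1 => t + m)), ?_, ?_, ?_, ?_⟩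
    · exact (Finset.nonempty_range_iff.mpr (Nat.succ_ne_zero _)).image _
    · intro m hm
      rw [Finset.mem_image] at hm
      obtain ⟨m', hm', rfl⟩ := hm
      rw [Finset.mem_range] at hm'
      have h1 : m' ≤ ⌊η * (j : ℝ) ^ γ'⌋₊ := Nat.lt_succ_iff.mp hm'
      have h2 : (m' : ℝ) ≤ η * (j : ℝ) ^ γ' :=
        (Nat.cast_le.mpr h1).trans (Nat.floor_le (by positivity))
      have h3 : (j : ℝ) ^ γ' ≤ j := by
        conv_rhs => rw [← Real.rpow_one (j : ℝ)]
        exact Real.rpow_le_rpow_of_exponent_le hj1 hγ'1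
      have h4 : (t : ℝ) ≤ 2 * (τ j : ℝ) := by exact_mod_cast ht
      have h5 : (τ j : ℝ) ≤ κ * j / 4 := Nat.floor_le (by positivity)
      have h6 : η * (j : ℝ) ^ γ' ≤ κ / 4 * j := mul_le_mul hηκ h3 (by positivity) (by positivity)
      have h7 : ((∑ _i : Fin 1, (t + m') : ℕ) : ℝ) = t + m' := by simp
      rw [h7]
      nlinarith
    · rw [favg_block]
      exact not_lt.mp hxt
    · rw [favg_block]
      exact not_lt.mp hyt

end Pool.Agent.Work.MP_67388f_an.OG
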