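import Pool.Agent.Work.MP_67388f_an.OG.Bas

/-! # Module SmD (M): summable correlations and at least two generators imply complete convergence

`corr A μ N k` is the correlation for the difference vector `k ∈ ℤ^s`.

PROOF. `c = ∫ ch N dμ`. For `m, m' ∈ ℕ^s`: `∫ ch N (act (el A m) x) * conj (ch N (act (el A m') x)) dμ` depends only
on `k = m - m'`: with `p = min m m'`, `m = p + k⁺`, `m' = p + k⁻` (`k⁺ = toNat k`, `k⁻ = toNat (-k)`), `el A m = el A k⁺ * el A p`
(`el_add`, and commutativity of the exponent vectors) and `μ` is invariant under `act (el A p)`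
(`act_mul`, `integral_map`). So `∫ ‖favg A M (box s n) N - c‖² dμ = (n+1)^(-2s) ∑_{m, m' ∈ box} corr (M (m - m'))`
(expand the square; `∫ ‖f - c‖² = ∫ ‖f‖² - ‖c‖²` because `∫ f = c`), and
`≤ (n+1)^(-2s) (n+1)^s ∑_k ‖corr (M k)‖ ≤ C (n+1)^(-s)` (for fixed `m'`, `m ↦ M (m - m')` is injective).
Chebyshev: `μ.real {ε < ‖favg - c‖} ≤ C ε^(-2) (n+1)^(-s)`, summable as `s ≥ 2`. -/

set_option autoImplicit false

namespace Pool.Agent.Work.MP_67388f_an.OG

open MeasureTheory Filter Topology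
open scoped NNReal

/-- the correlation of the character `N` for the difference vector `k` -/
noncomputable def corr {s d : ℕ} (A : Multiplicative (Fin s → ℕ) →* Mat d)
    (μ : Measure (Tor d)) (N : Fin d → ℤ) (k : Fin s → ℤ) : ℂ :=
  (∫ x, ch N (act (el A fun i => (k i).toNat) x) *
    (starRingEnd ℂ) (ch N (act (el A fun i => (-k i).toNat) x)) ∂μ) -
    (∫ x, ch N x ∂μ) * (starRingEnd ℂ) (∫ x, ch N x ∂μ)

section

variable {s d : ℕ}

private theorem cont_f (A : Multiplicative (Fin s → ℕ) →* Mat d) (N : Fin d → ℤ) (m : Fin s → ℕ) :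
    Continuous fun x : Tor d => ch N (act (el A m) x) := (continuous_ch N).comp (continuous_act _)

private theorem integ {μ : Measure (Tor d)} [IsProbabilityMeasure μ] {f : Tor d → ℂ} (hf : Continuous f) :
    Integrable f μ := by
  obtain ⟨C, hC⟩ := (isCompact_range hf).isBounded.exists_norm_le
  exact (integrable_const C).mono' hf.aestronglyMeasurable
    (Eventually.of_forall fun x => hC _ (Set.mem_range_self x))

private theorem int_comp (A : Multiplicative (Fin s → ℕ) →* Mat d) (μ : Measure (Tor d))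
    (hAinv : ∀ m, μ.map (act (el A m)) = μ) (m : Fin s → ℕ) {g : Tor d → ℂ} (hg : Continuous g) :
    ∫ x, g (act (el A m) x) ∂μ = ∫ x, g x ∂μ := by
  conv_rhs => rw [← hAinv m]
  rw [integral_map (measurable_act _).aemeasurable hg.aestronglyMeasurable]

private theorem int_pair (A : Multiplicative (Fin s → ℕ) →* Mat d) (μ : Measure (Tor d))
    (hAinv : ∀ m, μ.map (act (el A m)) = μ) (N : Fin d → ℤ) (m m' : Fin s → ℕ) (k : Fin s → ℤ)
    (hk : ∀ i, k i = (m i : ℤ) - (m' i : ℤ)) :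
    ∫ x, ch N (act (el A m) x) * (starRingEnd ℂ) (ch N (act (el A m') x)) ∂μ =
      ∫ x, ch N (act (el A fun i => (k i).toNat) x) *
        (starRingEnd ℂ) (ch N (act (el A fun i => (-k i).toNat) x)) ∂μ := by
  let p : Fin s → ℕ := fun i => min (m i) (m' i)
  have e1 : m = (fun i => (k i).toNat) + p := by
    funext i
    have := hk i
    simp only [Pi.add_apply, p]
    omega
  have e2 : m' = (fun i => (-k i).toNat) + p := by
    funext i
    have := hk i
    simp only [Pi.add_apply, p]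
    omega
  have h1 : ∀ x, act (el A m) x = act (el A fun i => (k i).toNat) (act (el A p) x) := by
    intro x
    conv_lhs => rw [e1]
    rw [el_add, act_mul]
  have h2 : ∀ x, act (el A m') x = act (el A fun i => (-k i).toNat) (act (el A p) x) := by
    intro x
    conv_lhs => rw [e2]
    rw [el_add, act_mul]
  simp only [h1, h2]
  exact int_comp A μ hAinv p (g := fun y => ch N (act (el A fun i => (k i).toNat) y) *
    (starRingEnd ℂ) (ch N (act (el A fun i => (-k i).toNat) y)))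
    ((cont_f A N _).mul (Complex.continuous_conj.comp (cont_f A N _)))

private theorem int_g (A : Multiplicative (Fin s → ℕ) →* Mat d) (μ : Measure (Tor d)) [IsProbabilityMeasure μ]
    (hAinv : ∀ m, μ.map (act (el A m)) = μ) (N : Fin d → ℤ) (m m' : Fin s → ℕ) (k : Fin s → ℤ)
    (hk : ∀ i, k i = (m i : ℤ) - (m' i : ℤ)) (c : ℂ) (hc : c = ∫ x, ch N x ∂μ) :
    ∫ x, (ch N (act (el A m) x) - c) * (starRingEnd ℂ) (ch N (act (el A m') x) - c) ∂μ = corr A μ N k := by
  have i1 := integ (μ := μ) (cont_f A N m)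
  have i2 : Integrable (fun x => (starRingEnd ℂ) (ch N (act (el A m') x))) μ :=
    integ (Complex.continuous_conj.comp (cont_f A N m'))
  have i3 : Integrable (fun x => ch N (act (el A m) x) * (starRingEnd ℂ) (ch N (act (el A m') x))) μ :=
    integ ((cont_f A N m).mul (Complex.continuous_conj.comp (cont_f A N m')))
  have e1 : ∫ x, ch N (act (el A m) x) ∂μ = c := by
    rw [int_comp A μ hAinv m (continuous_ch N), hc]
  have e2 : ∫ x, (starRingEnd ℂ) (ch N (act (el A m') x)) ∂μ = (starRingEnd ℂ) c := by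
    rw [integral_conj, int_comp A μ hAinv m' (continuous_ch N), hc]
  have e3 : ∀ x, (ch N (act (el A m) x) - c) * (starRingEnd ℂ) (ch N (act (el A m') x) - c) =
      (ch N (act (el A m) x) * (starRingEnd ℂ) (ch N (act (el A m') x)) - ch N (act (el A m) x) * (starRingEnd ℂ) c) -
      (c * (starRingEnd ℂ) (ch N (act (el A m') x)) - c * (starRingEnd ℂ) c) := by
    intro x
    rw [map_sub]
    ring
  simp only [e3]
  have j1 : Integrable (fun x => ch N (act (el A m) x) * (starRingEnd ℂ) c) μ := i1.mul_const _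
  have j2 : Integrable (fun x => c * (starRingEnd ℂ) (ch N (act (el A m') x))) μ := i2.const_mul _
  have j3 : Integrable (fun x : Tor d => c * (starRingEnd ℂ) c) μ := integrable_const _
  have k1 : ∫ x, (ch N (act (el A m) x) * (starRingEnd ℂ) (ch N (act (el A m') x)) - ch N (act (el A m) x) * (starRingEnd ℂ) c) -
      (c * (starRingEnd ℂ) (ch N (act (el A m') x)) - c * (starRingEnd ℂ) c) ∂μ =
      (∫ x, (ch N (act (el A m) x) * (starRingEnd ℂ) (ch N (act (el A m') x)) - ch N (act (el A m) x) * (starRingEnd ℂ) c) ∂μ) -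
      ∫ x, (c * (starRingEnd ℂ) (ch N (act (el A m') x)) - c * (starRingEnd ℂ) c) ∂μ :=
    integral_sub (i3.sub j1) (j2.sub j3)
  rw [k1, integral_sub i3 j1, integral_sub j2 j3, integral_mul_const, integral_const_mul, e1, e2,
    int_pair A μ hAinv N m m' k hk]
  unfold corr
  rw [← hc]
  simp

private theorem sq_bound (A : Multiplicative (Fin s → ℕ) →* Mat d) (μ : Measure (Tor d)) [IsProbabilityMeasure μ]
    (hAinv : ∀ m, μ.map (act (el A m)) = μ) (N : Fin d → ℤ)
    (h : Summable fun k : Fin s → ℤ => ‖corr A μ N k‖) (M : ℕ) (hM : 0 < M) (F : Finset (Fin s → ℕ)) (hF : F.Nonempty) :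
    ∫ x, ‖favg A M F N x - ∫ z, ch N z ∂μ‖ ^ 2 ∂μ ≤ (F.card : ℝ)⁻¹ * ∑' k, ‖corr A μ N k‖ := by
  set c : ℂ := ∫ z, ch N z ∂μ with hc
  have hcard : (0 : ℝ) < F.card := by exact_mod_cast hF.card_pos
  have hcardC : (F.card : ℂ) ≠ 0 := by exact_mod_cast hF.card_pos.ne'
  have e1 : ∀ x, favg A M F N x - c = (F.card : ℂ)⁻¹ * ∑ m ∈ F, (ch N (act (el A (M • m)) x) - c) := by
    intro x
    unfold favg
    rw [Finset.sum_sub_distrib, Finset.sum_const, nsmul_eq_mul, mul_sub, ← mul_assoc, inv_mul_cancel₀ hcardC, one_mul]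
  have e2 : ∀ x, ((‖favg A M F N x - c‖ ^ 2 : ℝ) : ℂ) = ((F.card : ℂ)⁻¹ * (F.card : ℂ)⁻¹) *
      ∑ m ∈ F, ∑ m' ∈ F, (ch N (act (el A (M • m)) x) - c) * (starRingEnd ℂ) (ch N (act (el A (M • m')) x) - c) := by
    intro x
    have h1 : ((‖favg A M F N x - c‖ ^ 2 : ℝ) : ℂ) =
        (favg A M F N x - c) * (starRingEnd ℂ) (favg A M F N x - c) := by
      rw [Complex.mul_conj, Complex.normSq_eq_norm_sq]
    rw [h1, e1, map_mul, map_sum]
    have h2 : (starRingEnd ℂ) ((F.card : ℂ)⁻¹) = (F.card : ℂ)⁻¹ := by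
      rw [map_inv₀, Complex.conj_natCast]
    rw [h2, mul_mul_mul_comm, Finset.sum_mul_sum]
  have e3 : ((∫ x, ‖favg A M F N x - c‖ ^ 2 ∂μ : ℝ) : ℂ) = ((F.card : ℂ)⁻¹ * (F.card : ℂ)⁻¹) *
      ∑ m ∈ F, ∑ m' ∈ F, corr A μ N (fun i => (M : ℤ) * ((m i : ℤ) - (m' i : ℤ))) := by
    rw [← integral_complex_ofReal]
    simp only [e2]
    rw [integral_const_mul]
    congr 1
    have i1 : ∀ m m' : Fin s → ℕ, Integrable (fun x => (ch N (act (el A (M • m)) x) - c) *
        (starRingEnd ℂ) (ch N (act (el A (M • m')) x) - c)) μ := fun m m' =>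
      integ (((cont_f A N _).sub continuous_const).mul
        (Complex.continuous_conj.comp ((cont_f A N _).sub continuous_const)))
    rw [integral_finsetSum _ fun m _ => integrable_finsetSum _ fun m' _ => i1 m m']
    refine Finset.sum_congr rfl fun m _ => ?_
    rw [integral_finsetSum _ fun m' _ => i1 m m']
    refine Finset.sum_congr rfl fun m' _ => ?_
    refine int_g A μ hAinv N _ _ _ (fun i => ?_) c hc
    simp only [Pi.smul_apply, smul_eq_mul]
    push_cast
    ring
  have hnn : 0 ≤ ∫ x, ‖favg A M F N x - c‖ ^ 2 ∂μ := integral_nonneg fun x => by positivity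
  have e4 : ∫ x, ‖favg A M F N x - c‖ ^ 2 ∂μ = ‖((∫ x, ‖favg A M F N x - c‖ ^ 2 ∂μ : ℝ) : ℂ)‖ := by
    rw [Complex.norm_real, Real.norm_of_nonneg hnn]
  rw [e4, e3, norm_mul, norm_mul, norm_inv, Complex.norm_natCast]
  have hinner : ∀ m' : Fin s → ℕ, ∑ m ∈ F, ‖corr A μ N (fun i => (M : ℤ) * ((m i : ℤ) - (m' i : ℤ)))‖ ≤
      ∑' k, ‖corr A μ N k‖ := by
    intro m'
    classical
    have hinj : Function.Injective (fun m : Fin s → ℕ => (fun i => (M : ℤ) * ((m i : ℤ) - (m' i : ℤ)) : Fin s → ℤ)) := by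
      intro m1 m2 h12
      funext i
      have h3 := congrFun h12 i
      simp only at h3
      have hM' : (M : ℤ) ≠ 0 := by exact_mod_cast hM.ne'
      have h4 := mul_left_cancel₀ hM' h3
      omega
    have h5 := Summable.sum_le_tsum (F.image (fun m : Fin s → ℕ => (fun i => (M : ℤ) * ((m i : ℤ) - (m' i : ℤ)) : Fin s → ℤ)))
      (fun k _ => norm_nonneg (corr A μ N k)) h
    rwa [Finset.sum_image fun a _ b _ hab => hinj hab] at h5
  have hsum : ‖∑ m ∈ F, ∑ m' ∈ F, corr A μ N (fun i => (M : ℤ) * ((m i : ℤ) - (m' i : ℤ)))‖ ≤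
      F.card * ∑' k, ‖corr A μ N k‖ := by
    rw [Finset.sum_comm]
    refine (norm_sum_le _ _).trans ?_
    calc ∑ m' ∈ F, ‖∑ m ∈ F, corr A μ N (fun i => (M : ℤ) * ((m i : ℤ) - (m' i : ℤ)))‖
        ≤ ∑ m' ∈ F, ∑' k, ‖corr A μ N k‖ := Finset.sum_le_sum fun m' _ => (norm_sum_le _ _).trans (hinner m')
      _ = F.card * ∑' k, ‖corr A μ N k‖ := by rw [Finset.sum_const, nsmul_eq_mul]
  calc (F.card : ℝ)⁻¹ * (F.card : ℝ)⁻¹ * ‖∑ m ∈ F, ∑ m' ∈ F, corr A μ N (fun i => (M : ℤ) * ((m i : ℤ) - (m' i : ℤ)))‖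
      ≤ (F.card : ℝ)⁻¹ * (F.card : ℝ)⁻¹ * (F.card * ∑' k, ‖corr A μ N k‖) :=
        mul_le_mul_of_nonneg_left hsum (by positivity)
    _ = (F.card : ℝ)⁻¹ * ∑' k, ‖corr A μ N k‖ := by
        field_simp

end

theorem complete_of_corr {s d : ℕ} (hs : 2 ≤ s) (A : Multiplicative (Fin s → ℕ) →* Mat d)
    (μ : Measure (Tor d)) [IsProbabilityMeasure μ] (hAinv : ∀ m, μ.map (act (el A m)) = μ)
    (h : ∀ N : Fin d → ℤ, Summable fun k : Fin s → ℤ => ‖corr A μ N k‖) : CompleteConv A μ := by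
  intro N M ε hM hε
  set c : ℂ := ∫ z, ch N z ∂μ with hc
  set K : ℝ := ∑' k, ‖corr A μ N k‖ with hK
  have hK0 : 0 ≤ K := tsum_nonneg fun k => norm_nonneg _
  have hbound : ∀ n : ℕ, μ.real {x | ε < ‖favg A M (box s n) N x - c‖} ≤ (K / ε ^ 2) * (1 / ((n + 1 : ℕ) : ℝ) ^ 2) := by
    intro n
    have hne : (box s n).Nonempty := ⟨0, by simp [box]⟩
    have hcard : ((box s n).card : ℝ) = ((n + 1 : ℕ) : ℝ) ^ s := by
      simp [box]
    have h1 := sq_bound A μ hAinv N (h N) M hM (box s n) hne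
    have hcont : Continuous fun x : Tor d => ‖favg A M (box s n) N x - c‖ ^ 2 :=
      (((continuous_favg A M (box s n) N).sub continuous_const).norm).pow 2
    have hint : Integrable (fun x : Tor d => ‖favg A M (box s n) N x - c‖ ^ 2) μ := by
      obtain ⟨C, hC⟩ := (isCompact_range hcont).isBounded.exists_norm_le
      exact (integrable_const C).mono' hcont.aestronglyMeasurable
        (Eventually.of_forall fun x => hC _ (Set.mem_range_self x))
    have h2 := mul_meas_ge_le_integral_of_nonneg (μ := μ)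
      (Eventually.of_forall fun x : Tor d => (by positivity : 0 ≤ ‖favg A M (box s n) N x - c‖ ^ 2)) hint (ε ^ 2)
    have h3 : μ.real {x | ε < ‖favg A M (box s n) N x - c‖} ≤
        μ.real {x | ε ^ 2 ≤ ‖favg A M (box s n) N x - c‖ ^ 2} := by
      refine measureReal_mono (fun x hx => ?_) (measure_ne_top _ _)
      have hx' : ε < ‖favg A M (box s n) N x - c‖ := hx
      exact pow_le_pow_left₀ hε.le hx'.le 2
    have h4 : (0 : ℝ) < ε ^ 2 := by positivity
    have h5 : μ.real {x | ε < ‖favg A M (box s n) N x - c‖} ≤ ((box s n).card : ℝ)⁻¹ * K / ε ^ 2 := by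
      rw [le_div_iff₀ h4, mul_comm]
      exact (mul_le_mul_of_nonneg_left h3 h4.le).trans (h2.trans h1)
    have h6 : ((box s n).card : ℝ)⁻¹ ≤ 1 / ((n + 1 : ℕ) : ℝ) ^ 2 := by
      rw [hcard, ← one_div]
      have h7 : (1 : ℝ) ≤ ((n + 1 : ℕ) : ℝ) := by exact_mod_cast Nat.succ_le_succ (Nat.zero_le n)
      exact one_div_le_one_div_of_le (by positivity) (pow_le_pow_right₀ h7 hs)
    refine h5.trans ?_
    have h8 : ((box s n).card : ℝ)⁻¹ * K / ε ^ 2 = (K / ε ^ 2) * ((box s n).card : ℝ)⁻¹ := by ring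
    rw [h8]
    exact mul_le_mul_of_nonneg_left h6 (by positivity)
  refine Summable.of_nonneg_of_le (fun n => measureReal_nonneg) hbound ?_
  refine Summable.mul_left _ ?_
  have h9 : Summable fun n : ℕ => 1 / ((n : ℝ)) ^ 2 := Real.summable_one_div_nat_pow.2 (by norm_num)
  exact (summable_nat_add_iff (f := fun n : ℕ => 1 / ((n : ℝ)) ^ 2) 1).2 h9

end Pool.Agent.Work.MP_67388f_an.OG
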