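import Pool.Agent.Work.MP_67388f_an.OG.Fll
import Pool.Agent.Work.MP_67388f_an.OG.Core
import Pool.Agent.Work.MP_67388f_an.OG.Mixc
import Pool.Agent.Work.MP_67388f_an.OG.Sat
import Pool.Agent.Work.MP_67388f_an.OG.SmD
import Pool.Agent.Work.MP_67388f_an.OG.SmC3

/-! # Module Hmg: assembly of the homogeneity theorem (helper64) -/

set_option autoImplicit false

namespace Pool.Agent.Work.MP_67388f_an.OG

open MeasureTheory Filter Topology
open scoped NNReal

/-- wall convergence: for every frequency `N`, every multiplier `M` and every `ε` there are finite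
samples `F n` of exponent vectors in the box `[0, n]^s` for which the deviations of the averages
have summable probabilities -/
def WallConv {s d : ℕ} (A : Multiplicative (Fin s → ℕ) →* Mat d) (μ : Measure (Tor d)) : Prop :=
  ∀ (N : Fin d → ℤ) (M : ℕ) (ε : ℝ), 0 < M → 0 < ε →
    ∃ F : ℕ → Finset (Fin s → ℕ), (∀ n, (F n).Nonempty ∧ F n ⊆ box s n) ∧
      Summable fun n : ℕ => μ.real {x | ε < ‖favg A M (F n) N x - ∫ z, ch N z ∂μ‖}

theorem wall_of_complete {s d : ℕ} (A : Multiplicative (Fin s → ℕ) →* Mat d)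
    (μ : Measure (Tor d)) (h : CompleteConv A μ) : WallConv A μ := fun N M ε hM hε =>
  ⟨fun n => box s n, fun _ => ⟨Fintype.piFinset_nonempty.2 fun _ =>
    Finset.nonempty_range_iff.2 (Nat.succ_ne_zero _), subset_rfl⟩, h N M ε hM hε⟩

private theorem summable_fib' {f : ℕ → ℝ} (hf : Summable f) (h0 : ∀ n, 0 ≤ f n) (n : ℕ → ℕ)
    (q : ℕ) (hq : ∀ j j', j < j' → n j = n j' → j' - j < q) : Summable fun j => f (n j) := by
  have hq0 : 0 < q + 1 := Nat.succ_pos q
  have h1 : Summable fun x : ℕ × Fin (q + 1) => f x.1 * (fun _ : Fin (q + 1) => (1 : ℝ)) x.2 :=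
    Summable.mul_of_nonneg hf (summable_of_finite_support (Set.toFinite _)) h0
      (fun _ => zero_le_one)
  let g : ℕ → ℕ × Fin (q + 1) := fun j => (n j, ⟨j % (q + 1), Nat.mod_lt _ hq0⟩)
  have key : ∀ j j', j < j' → g j ≠ g j' := by
    intro j j' hlt he
    have e1 : n j = n j' := congrArg Prod.fst he
    have e2 : j % (q + 1) = j' % (q + 1) := congrArg (fun x => (Prod.snd x).val) he
    have e3 := hq j j' hlt e1
    have e4 : (q + 1) ∣ j' - j := (Nat.modEq_iff_dvd' hlt.le).1 e2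
    have e5 := Nat.le_of_dvd (Nat.sub_pos_of_lt hlt) e4
    omega
  have hg : Function.Injective g := by
    intro j j' he
    rcases lt_trichotomy j j' with hlt | heq | hgt
    · exact absurd he (key j j' hlt)
    · exact heq
    · exact absurd he.symm (key j' j hgt)
  have h2 := h1.comp_injective hg
  refine h2.congr fun j => ?_
  simp [g]

theorem samp_of_wall {s d : ℕ} (A : Multiplicative (Fin s → ℕ) →* Mat d)
    (μ : Measure (Tor d)) [IsProbabilityMeasure μ] (h : WallConv A μ) : Samp A μ := by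
  intro N M ε κ hM hε hκ
  have hs : (0 : ℝ) < s + 1 := by positivity
  let n : ℕ → ℕ := fun j => ⌊κ * j / (s + 1)⌋₊
  obtain ⟨F, hF, hf⟩ := h N M ε hM hε
  have hcont : ∀ k : ℕ, Continuous fun x => ‖favg A M (F k) N x - ∫ z, ch N z ∂μ‖ :=
    fun k => ((continuous_favg A M (F k) N).sub continuous_const).norm
  refine ⟨fun j => {x | ‖favg A M (F (n j)) N x - ∫ z, ch N z ∂μ‖ ≤ ε}, fun j => ?_, ?_, ?_⟩
  · exact (isClosed_le (hcont (n j)) continuous_const).measurableSet
  · have e : ∀ j, {x | ‖favg A M (F (n j)) N x - ∫ z, ch N z ∂μ‖ ≤ ε}ᶜ =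
        {x | ε < ‖favg A M (F (n j)) N x - ∫ z, ch N z ∂μ‖} := by
      intro j
      ext x
      simp only [Set.mem_compl_iff, Set.mem_setOf_eq, not_le]
    simp only [e]
    refine summable_fib' hf (fun _ => measureReal_nonneg) n (⌈(s + 1) / κ⌉₊ + 1) ?_
    intro j j' hlt he
    have h1 : κ * j' / (s + 1) < (n j' : ℝ) + 1 := Nat.lt_floor_add_one _
    have h2 : (n j : ℝ) ≤ κ * j / (s + 1) := Nat.floor_le (by positivity)
    rw [← he] at h1
    have h3 : κ * ((j' : ℝ) - j) / (s + 1) < 1 := by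
      have : κ * ((j' : ℝ) - j) / (s + 1) = κ * j' / (s + 1) - κ * j / (s + 1) := by ring
      rw [this]
      linarith
    rw [div_lt_one hs] at h3
    have h4 : (j' : ℝ) - j < (s + 1) / κ := by
      rw [lt_div_iff₀ hκ]
      linarith
    have h5 : ((j' - j : ℕ) : ℝ) < (⌈(s + 1) / κ⌉₊ : ℝ) + 1 := by
      rw [Nat.cast_sub hlt.le]
      have := Nat.le_ceil (((s : ℝ) + 1) / κ)
      linarith
    exact_mod_cast h5
  · intro j x hx y hy
    refine ⟨F (n j), (hF _).1, ?_, hx, hy⟩
    intro m hm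
    have h1 : ∀ i, m i ≤ n j := fun i =>
      Nat.lt_succ_iff.1 (Finset.mem_range.1 (Fintype.mem_piFinset.1 ((hF _).2 hm) i))
    have h2 : ∑ i, m i ≤ s * n j := by
      refine (Finset.sum_le_sum fun i _ => h1 i).trans ?_
      simp
    have h3 : (n j : ℝ) ≤ κ * j / (s + 1) := Nat.floor_le (by positivity)
    have h4 : ((∑ i, m i : ℕ) : ℝ) ≤ s * n j := by exact_mod_cast h2
    have h5 : (s : ℝ) * n j ≤ (s + 1) * (κ * j / (s + 1)) := by
      have h6 : (0 : ℝ) ≤ n j := Nat.cast_nonneg _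
      nlinarith
    have h7 : (s + 1) * (κ * j / (s + 1)) = κ * j := by field_simp
    linarith

theorem conv_of_wall {s d : ℕ} (A : Multiplicative (Fin s → ℕ) →* Mat d)
    (μ : Measure (Tor d)) (h : WallConv A μ) (N : Fin d → ℤ) (M : ℕ) (ε : ℝ) (hM : 0 < M)
    (hε : 0 < ε) : ∃ F : Finset (Fin s → ℕ), F.Nonempty ∧
        μ.real {x | ε < ‖favg A M F N x - ∫ z, ch N z ∂μ‖} < ε := by
  obtain ⟨F, hF, hf⟩ := h N M ε hM hε
  have h1 := hf.tendsto_atTop_zero
  obtain ⟨n, hn⟩ := (h1.eventually (gt_mem_nhds hε)).exists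
  exact ⟨F n, (hF n).1, hn⟩

private theorem el_powHom {d : ℕ} (T : Mat d) (m : Fin 1 → ℕ) : el (powHom T) m = T ^ m 0 := rfl

theorem homogeneous {s d : ℕ} (A : Multiplicative (Fin s → ℕ) →* Mat d) (B : Mat d)
    (hcomm : ∀ m, Commute (el A m) B) (hcop : ∀ m, IsCoprime (el A m).det B.det)
    (hB : IsExpanding B) (μ : Measure (Tor d)) [IsProbabilityMeasure μ]
    (hAinv : ∀ m, μ.map (act (el A m)) = μ) (hBinv : μ.map (act B) = μ)
    (h : WallConv A μ ∨
      (2 ≤ s ∧ ∀ N : Fin d → ℤ, Summable fun k : Fin s → ℤ => ‖corr A μ N k‖) ∨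
      ∃ (m : Fin s → ℕ) (γ : ℝ), 1 / 2 < γ ∧ MixRate (act (el A m)) μ γ) :
    ∃ H : AddSubgroup (Tor d), IsClosed (H : Set (Tor d)) ∧ IsConnected (H : Set (Tor d)) ∧
      (∀ m, ∀ x ∈ H, act (el A m) x ∈ H) ∧ (∀ x ∈ H, act B x ∈ H) ∧
      (∀ x ∈ H, μ.map (fun y => y + x) = μ) ∧ ∃ x : Tor d, μ {y | y - x ∈ H} = 1 := by
  have h' : WallConv A μ ∨
      ∃ (m : Fin s → ℕ) (γ : ℝ), 1 / 2 < γ ∧ MixRate (act (el A m)) μ γ := by
    rcases h with h | ⟨hs, h⟩ | h
    · exact Or.inl h
    · exact Or.inl (wall_of_complete A μ (complete_of_corr hs A μ hAinv h))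
    · exact Or.inr h
  refine ⟨ann (spt μ), isClosed_ann _, ?_⟩
  have key : IsConnected ((ann (spt μ) : AddSubgroup (Tor d)) : Set (Tor d)) ∧
      ∃ x : Tor d, μ {y | y - x ∈ ann (spt μ)} = 1 := by
    rcases h' with h | ⟨m, γ, hγ, hmix⟩
    · exact coset_conn A μ hAinv (conv_of_wall A μ h)
        (core A B hcomm hcop hB μ hAinv hBinv (samp_of_wall A μ h))
    · set T : Mat d := el A m with hT
      have hcommT : ∀ n : Fin 1 → ℕ, Commute (el (powHom T) n) B := fun n => by
        rw [el_powHom]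
        exact (hcomm m).pow_left _
      have hcopT : ∀ n : Fin 1 → ℕ, IsCoprime (el (powHom T) n).det B.det := fun n => by
        rw [el_powHom, Matrix.det_pow]
        exact (hcop m).pow_left
      have hinvT : ∀ n : Fin 1 → ℕ, μ.map (act (el (powHom T) n)) = μ := by
        intro n
        rw [el_powHom]
        generalize n 0 = k
        induction k with
        | zero =>
          have : (act (T ^ 0) : Tor d → Tor d) = id := by
            funext x; rw [pow_zero, act_one]; rfl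
          rw [this, Measure.map_id]
        | succ k ih =>
          have : (act (T ^ (k + 1)) : Tor d → Tor d) = act (T ^ k) ∘ act T := by
            funext x; rw [pow_succ, act_mul]; rfl
          rw [this, ← Measure.map_map (measurable_act _) (measurable_act _), hAinv m, ih]
      have hγ0 : 0 < γ := by linarith
      have hpos := core (powHom T) B hcommT hcopT hB μ hinvT hBinv
        (samp_of_mix T μ (hAinv m) γ hγ hmix)
      obtain ⟨x, hx⟩ := coset_full T μ (hAinv m) γ hγ0 hmix (ann (spt μ)) (isClosed_ann _)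
        (act_mem_ann_spt μ T (hAinv m)) hpos
      exact ⟨ann_connected _ fun k N hk hkN =>
        spt_saturated T μ (hAinv m) γ hγ0 hmix x hx k N hk hkN, x, hx⟩
  exact ⟨key.1, fun m => act_mem_ann_spt μ _ (hAinv m), act_mem_ann_spt μ B hBinv,
    fun x hx => map_add_eq μ x fun N hN => hx N hN, key.2⟩

end Pool.Agent.Work.MP_67388f_an.OG
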