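import Pool.Agent.Work.MP_67388f_an.OG.Bas

/-! # Module SmB (S-M): complete convergence implies the sampling property

PROOF. Given `N, M, ε, κ`, let `n j = ⌊κ j / (s + 1)⌋₊`, `F j = box s (n j)`, `G j = {x | ‖favg A M (F j) N x - c‖ ≤ ε}`
(closed, `continuous_favg`). For `m ∈ F j`: `∑ i, m i ≤ s * n j ≤ κ j`. Complements: `μ.real (G j)ᶜ = f (n j)`
with `f n = μ.real {x | ε < ...}` summable; each value `n` is attained by at most `(s+1)/κ + 1` values of
`j` (the `j` with `⌊κ j/(s+1)⌋ = n` lie in an interval of length `(s+1)/κ`), so `j ↦ f (n j)` is summable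
(e.g. partial sums: `∑_{j < J} f (n j) ≤ ((s+1)/κ + 1) ∑ f`, `summable_of_sum_range_le` with
`Finset.sum_fiberwise`-type counting). -/

set_option autoImplicit false

namespace Pool.Agent.Work.MP_67388f_an.OG

open MeasureTheory Filter Topology
open scoped NNReal

private theorem summable_fib {f : ℕ → ℝ} (hf : Summable f) (h0 : ∀ n, 0 ≤ f n) (n : ℕ → ℕ)
    (q : ℕ) (hq : ∀ j j', j < j' → n j = n j' → j' - j < q) : Summable fun j => f (n j) := by
  have hq0 : 0 < q + 1 := Nat.succ_pos q
  have h1 : Summable fun x : ℕ × Fin (q + 1) => f x.1 * (fun _ : Fin (q + 1) => (1 : ℝ)) x.2 :=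
    Summable.mul_of_nonneg hf (summable_of_finite_support (Set.toFinite _)) h0
      (fun _ => zero_le_one)
  let g : ℕ → ℕ × Fin (q + 1) := fun j => (n j, ⟨j % (q + 1), Nat.mod_lt _ hq0⟩)
  have key : ∀ j j', j < j' → g j ≠ g j' := by
    intro j j' hlt he
    have e1 : n j = n j' := congrArg Prod.fst he
    have e2 : j % (q + 1) = j' % (q + 1) := congrArg (fun x => (Prod.snd x).val) he
    have e3 := hq j j' hlt e1
    have e4 : (q + 1) ∣ j' - j := (Nat.modEq_iff_dvd' hlt.le).1 e2
    have e5 := Nat.le_of_dvd (Nat.sub_pos_of_lt hlt) e4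
    omega
  have hg : Function.Injective g := by
    intro j j' he
    rcases lt_trichotomy j j' with hlt | heq | hgt
    · exact absurd he (key j j' hlt)
    · exact heq
    · exact absurd he.symm (key j' j hgt)
  have h2 := h1.comp_injective hg
  refine h2.congr fun j => ?_
  simp [g]

theorem samp_of_complete {s d : ℕ} (A : Multiplicative (Fin s → ℕ) →* Mat d)
    (μ : Measure (Tor d)) [IsProbabilityMeasure μ] (h : CompleteConv A μ) : Samp A μ := by
  intro N M ε κ hM hε hκ
  have hs : (0 : ℝ) < s + 1 := by positivity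
  let n : ℕ → ℕ := fun j => ⌊κ * j / (s + 1)⌋₊
  have hf := h N M ε hM hε
  have hcont : ∀ k : ℕ, Continuous fun x => ‖favg A M (box s k) N x - ∫ z, ch N z ∂μ‖ :=
    fun k => ((continuous_favg A M (box s k) N).sub continuous_const).norm
  refine ⟨fun j => {x | ‖favg A M (box s (n j)) N x - ∫ z, ch N z ∂μ‖ ≤ ε}, fun j => ?_, ?_, ?_⟩
  · exact (isClosed_le (hcont (n j)) continuous_const).measurableSet
  · have e : ∀ j, {x | ‖favg A M (box s (n j)) N x - ∫ z, ch N z ∂μ‖ ≤ ε}ᶜ =
        {x | ε < ‖favg A M (box s (n j)) N x - ∫ z, ch N z ∂μ‖} := by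
      intro j
      ext x
      simp only [Set.mem_compl_iff, Set.mem_setOf_eq, not_le]
    simp only [e]
    refine summable_fib hf (fun _ => measureReal_nonneg) n (⌈(s + 1) / κ⌉₊ + 1) ?_
    intro j j' hlt he
    have h1 : κ * j' / (s + 1) < (n j' : ℝ) + 1 := Nat.lt_floor_add_one _
    have h2 : (n j : ℝ) ≤ κ * j / (s + 1) := Nat.floor_le (by positivity)
    rw [← he] at h1
    have h3 : κ * ((j' : ℝ) - j) / (s + 1) < 1 := by
      have : κ * ((j' : ℝ) - j) / (s + 1) = κ * j' / (s + 1) - κ * j / (s + 1) := by ring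
      rw [this]
      linarith
    rw [div_lt_one hs] at h3
    have h4 : (j' : ℝ) - j < (s + 1) / κ := by
      rw [lt_div_iff₀ hκ]
      linarith
    have h5 : ((j' - j : ℕ) : ℝ) < (⌈(s + 1) / κ⌉₊ : ℝ) + 1 := by
      rw [Nat.cast_sub hlt.le]
      have := Nat.le_ceil (((s : ℝ) + 1) / κ)
      linarith
    exact_mod_cast h5
  · intro j x hx y hy
    refine ⟨box s (n j), ?_, ?_, hx, hy⟩
    · exact Fintype.piFinset_nonempty.2 fun _ => Finset.nonempty_range_iff.2 (Nat.succ_ne_zero _)
    · intro m hm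
      have h1 : ∀ i, m i ≤ n j := fun i =>
        Nat.lt_succ_iff.1 (Finset.mem_range.1 (Fintype.mem_piFinset.1 hm i))
      have h2 : ∑ i, m i ≤ s * n j := by
        refine (Finset.sum_le_sum fun i _ => h1 i).trans ?_
        simp
      have h3 : (n j : ℝ) ≤ κ * j / (s + 1) := Nat.floor_le (by positivity)
      have h4 : ((∑ i, m i : ℕ) : ℝ) ≤ s * n j := by exact_mod_cast h2
      have h5 : (s : ℝ) * n j ≤ (s + 1) * (κ * j / (s + 1)) := by
        have h6 : (0 : ℝ) ≤ n j := Nat.cast_nonneg _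
        nlinarith
      have h7 : (s + 1) * (κ * j / (s + 1)) = κ * j := by field_simp
      linarith

end Pool.Agent.Work.MP_67388f_an.OG
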