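import Pool.Agent.Work.MP_67388f_an.OG.Bas
import Pool.Agent.Work.MP_67388f_an.OG.Lip

/-! # Module SmC1 (M): variance of the averages under a mixing rate

`bavg A M n N x` is the average of `ch N (act (A ^ (M m)) x)` over `m < n`.

PROOF. `c = ∫ ch N`. (0) The mixing bound for complex functions: apply `MixRate` to real and imaginary parts of
`f = ch N` and `g = conj (ch N)` (Lipschitz with a constant `K ≥ 1` depending on `N`: `norm_ch_sub_le`; bounded by
`1 ≤ K`; real and imaginary parts of a `K`-Lipschitz function are `K`-Lipschitz):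
`‖∫ f (x) * g (T^[k] x) dμ - ∫ f ∫ g‖ ≤ 4 C K² exp (-c₀ k^γ)`. (1) `∑_k exp (-c₀ k^γ) < ∞` for `γ > 0`:
`exp (-c₀ k^γ) ≤ C' k^(-2)` (`k^2 exp (-c₀ k^γ) → 0`, e.g. `tendsto_rpow_mul_exp_neg_mul_atTop_nhds_zero` with
`y = k^γ`). (2) `∫ ‖bavg - c‖² = n^(-2) ∑_{m, m' < n} (∫ ch N (A^(Mm) x) conj ch N (A^(Mm') x) dμ - ‖c‖²)`; by
invariance the term is a correlation at distance `M |m - m'|` (or its conjugate), so the double sum is
`≤ n * 2 ∑_k 4 C K² exp (-c₀ (M k)^γ) ≤ C'' n` with `C''` independent of `M ≥ 1` and `n`. -/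

set_option autoImplicit false

namespace Pool.Agent.Work.MP_67388f_an.OG

open MeasureTheory Filter Topology
open scoped NNReal

/-- average of the character along the powers `A ^ (M m)`, `m < n` -/
noncomputable def bavg {d : ℕ} (A : Mat d) (M n : ℕ) (N : Fin d → ℤ) (x : Tor d) : ℂ :=
  (n : ℂ)⁻¹ * ∑ m ∈ Finset.range n, ch N (act (A ^ (M * m)) x)

private theorem integ {d : ℕ} (μ : Measure (Tor d)) [IsProbabilityMeasure μ] {f : Tor d → ℝ}
    (hf : Continuous f) : Integrable f μ :=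
  hf.integrable_of_hasCompactSupport (HasCompactSupport.of_compactSpace f)

private theorem inv_int {d : ℕ} (A : Mat d) (μ : Measure (Tor d))
    (hA : μ.map (act A) = μ) (k : ℕ) {F : Tor d → ℝ} (hF : Continuous F) :
    ∫ x, F ((act A)^[k] x) ∂μ = ∫ x, F x ∂μ := by
  have hMP : MeasurePreserving (act A) μ μ := ⟨measurable_act A, hA⟩
  have h := hMP.iterate k
  have h2 := integral_map (μ := μ) (φ := (act A)^[k]) (f := F) h.measurable.aemeasurable
    hF.aestronglyMeasurable
  rw [h.map_eq] at h2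
  exact h2.symm

private theorem summable_stretched (c γ : ℝ) (hc : 0 < c) (hγ : 0 < γ) :
    Summable fun k : ℕ => Real.exp (-c * (k : ℝ) ^ γ) := by
  have h1 : Tendsto (fun k : ℕ => ((k : ℝ) ^ γ) ^ (2 / γ) * Real.exp (-c * (k : ℝ) ^ γ)) atTop
      (𝓝 0) :=
    (tendsto_rpow_mul_exp_neg_mul_atTop_nhds_zero (2 / γ) c hc).comp
      ((tendsto_rpow_atTop hγ).comp tendsto_natCast_atTop_atTop)
  refine summable_of_isBigO_nat (g := fun k : ℕ => 1 / (k : ℝ) ^ 2)
    (Real.summable_one_div_nat_pow.2 one_lt_two) ?_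
  refine Asymptotics.IsBigO.of_bound 1 ?_
  have h2 : ∀ᶠ k : ℕ in atTop, ((k : ℝ) ^ γ) ^ (2 / γ) * Real.exp (-c * (k : ℝ) ^ γ) < 1 :=
    h1.eventually_lt_const (by norm_num)
  filter_upwards [h2, eventually_gt_atTop 0] with k hk hk0
  have hk1 : (0 : ℝ) < k := by exact_mod_cast hk0
  rw [← Real.rpow_mul hk1.le, mul_div_cancel₀ _ hγ.ne'] at hk
  have h3 : (k : ℝ) ^ (2 : ℝ) = (k : ℝ) ^ 2 := by norm_cast
  rw [h3] at hk
  have hk2 : (0 : ℝ) < (k : ℝ) ^ 2 := by positivity
  rw [one_mul, Real.norm_of_nonneg (Real.exp_pos _).le, Real.norm_of_nonneg (by positivity),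
    le_div_iff₀ hk2]
  linarith

private theorem anti_stretched (c γ : ℝ) (hc : 0 < c) (hγ : 0 < γ) :
    Antitone fun k : ℕ => Real.exp (-c * (k : ℝ) ^ γ) := by
  intro a b hab
  have h1 : (a : ℝ) ≤ b := by exact_mod_cast hab
  have h2 : (a : ℝ) ^ γ ≤ (b : ℝ) ^ γ := Real.rpow_le_rpow (Nat.cast_nonneg a) h1 hγ.le
  refine Real.exp_le_exp.2 ?_
  nlinarith

private theorem cov_eq {d : ℕ} (A : Mat d) (μ : Measure (Tor d)) [IsProbabilityMeasure μ]
    (hA : μ.map (act A) = μ) {f : Tor d → ℝ} (hf : Continuous f) (p k : ℕ) :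
    ∫ x, (f (act (A ^ p) x) - ∫ z, f z ∂μ) * (f (act (A ^ (p + k)) x) - ∫ z, f z ∂μ) ∂μ =
      ∫ x, f x * f ((act A)^[k] x) ∂μ - (∫ x, f x ∂μ) * ∫ x, f x ∂μ := by
  set c : ℝ := ∫ z, f z ∂μ
  have hTk : Continuous ((act A)^[k]) := (continuous_act A).iterate k
  have h1 : ∀ x, (f (act (A ^ p) x) - c) * (f (act (A ^ (p + k)) x) - c) =
      (fun y => (f y - c) * (f ((act A)^[k] y) - c)) ((act A)^[p] x) := by
    intro x
    simp only [act_pow]
    rw [add_comm p k, Function.iterate_add_apply]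
  rw [integral_congr_ae (Filter.Eventually.of_forall h1),
    inv_int A μ hA p (F := fun y => (f y - c) * (f ((act A)^[k] y) - c))
      ((hf.sub continuous_const).mul ((hf.comp hTk).sub continuous_const))]
  have h2 : ∀ y, (f y - c) * (f ((act A)^[k] y) - c) =
      f y * f ((act A)^[k] y) - c * f ((act A)^[k] y) - c * f y + c * c := by
    intro y; ring
  have i1 : Integrable (fun y => f y * f ((act A)^[k] y)) μ := integ μ (hf.mul (hf.comp hTk))
  have i2 : Integrable (fun y => c * f ((act A)^[k] y)) μ := (integ μ (hf.comp hTk)).const_mul c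
  have i3 : Integrable (fun y => c * f y) μ := (integ μ hf).const_mul c
  have i4 : Integrable (fun y => f y * f ((act A)^[k] y) - c * f ((act A)^[k] y)) μ := i1.sub i2
  have i5 : Integrable (fun y => f y * f ((act A)^[k] y) - c * f ((act A)^[k] y) - c * f y) μ :=
    i4.sub i3
  rw [integral_congr_ae (Filter.Eventually.of_forall h2), integral_add i5 (integrable_const _),
    integral_sub i4 i3, integral_sub i1 i2,
    integral_const_mul, integral_const_mul, inv_int A μ hA k hf]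
  simp only [integral_const, probReal_univ, smul_eq_mul, one_mul]
  change _ - c * c - c * c + c * c = _ - c * c
  ring

private theorem row_sum (e : ℕ → ℝ) (he0 : ∀ k, 0 ≤ e k) (hes : Summable e) (n m : ℕ) :
    ∑ m' ∈ Finset.range n, e (max m m' - min m m') ≤ 2 * ∑' k, e k := by
  have h1 : ∀ m' ∈ Finset.range n, e (max m m' - min m m') ≤
      (if m' ≤ m then e (m - m') else 0) + (if m ≤ m' then e (m' - m) else 0) := by
    intro m' _
    rcases le_total m' m with h | h
    · rw [max_eq_left h, min_eq_right h, if_pos h]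
      split_ifs
      · linarith [he0 (m' - m)]
      · linarith
    · rw [max_eq_right h, min_eq_left h, if_pos h]
      split_ifs
      · linarith [he0 (m - m')]
      · linarith
  refine (Finset.sum_le_sum h1).trans ?_
  rw [Finset.sum_add_distrib, ← Finset.sum_filter, ← Finset.sum_filter, two_mul]
  refine add_le_add ?_ ?_
  · rw [← Finset.sum_image (f := e) (s := (Finset.range n).filter (· ≤ m)) (g := fun m' => m - m')]
    · exact hes.sum_le_tsum _ fun i _ => he0 i
    · intro x hx y hy hxy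
      simp only [Finset.coe_filter, Finset.mem_range, Set.mem_ofPred_eq] at hx hy hxy
      omega
  · rw [← Finset.sum_image (f := e) (s := (Finset.range n).filter (m ≤ ·)) (g := fun m' => m' - m)]
    · exact hes.sum_le_tsum _ fun i _ => he0 i
    · intro x hx y hy hxy
      simp only [Finset.coe_filter, Finset.mem_range, Set.mem_ofPred_eq] at hx hy hxy
      omega

private theorem real_var {d : ℕ} (A : Mat d) (μ : Measure (Tor d)) [IsProbabilityMeasure μ]
    (hA : μ.map (act A) = μ) {f : Tor d → ℝ} (hf : Continuous f) (e : ℕ → ℝ)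
    (he0 : ∀ k, 0 ≤ e k) (hes : Summable e) (hea : Antitone e)
    (hcov : ∀ k, |∫ x, f x * f ((act A)^[k] x) ∂μ - (∫ x, f x ∂μ) * ∫ x, f x ∂μ| ≤ e k)
    (M n : ℕ) (hM : 0 < M) (hn : 0 < n) :
    ∫ x, ((n : ℝ)⁻¹ * ∑ m ∈ Finset.range n, f (act (A ^ (M * m)) x) - ∫ z, f z ∂μ) ^ 2 ∂μ ≤
      2 * (∑' k, e k) / n := by
  have hn0 : (0 : ℝ) < n := by exact_mod_cast hn
  set c : ℝ := ∫ z, f z ∂μ
  have hg : ∀ m : ℕ, Continuous fun x => f (act (A ^ (M * m)) x) - c := fun m =>
    (hf.comp (continuous_act _)).sub continuous_const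
  have h1 : ∀ x, ((n : ℝ)⁻¹ * ∑ m ∈ Finset.range n, f (act (A ^ (M * m)) x) - c) ^ 2 =
      (n : ℝ)⁻¹ ^ 2 * ∑ m ∈ Finset.range n, ∑ m' ∈ Finset.range n,
        (f (act (A ^ (M * m)) x) - c) * (f (act (A ^ (M * m')) x) - c) := by
    intro x
    have h2 : (n : ℝ)⁻¹ * ∑ m ∈ Finset.range n, f (act (A ^ (M * m)) x) - c =
        (n : ℝ)⁻¹ * ∑ m ∈ Finset.range n, (f (act (A ^ (M * m)) x) - c) := by
      rw [Finset.sum_sub_distrib, Finset.sum_const, Finset.card_range, nsmul_eq_mul, mul_sub,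
        ← mul_assoc, inv_mul_cancel₀ hn0.ne', one_mul]
    rw [h2, mul_pow, sq (∑ m ∈ Finset.range n, (f (act (A ^ (M * m)) x) - c)),
      Finset.sum_mul_sum]
  have hgi : ∀ m m' : ℕ, Integrable (fun x => (f (act (A ^ (M * m)) x) - c) *
      (f (act (A ^ (M * m')) x) - c)) μ := fun m m' => integ μ ((hg m).mul (hg m'))
  rw [integral_congr_ae (Filter.Eventually.of_forall h1), integral_const_mul,
    integral_finsetSum _ fun m _ => integrable_finsetSum _ fun m' _ => hgi m m']
  have h3 : ∀ m ∈ Finset.range n, ∫ x, ∑ m' ∈ Finset.range n,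
      (f (act (A ^ (M * m)) x) - c) * (f (act (A ^ (M * m')) x) - c) ∂μ ≤ 2 * ∑' k, e k := by
    intro m _
    rw [integral_finsetSum _ fun m' _ => hgi m m']
    refine le_trans (Finset.sum_le_sum fun m' _ => ?_) (row_sum e he0 hes n m)
    have key : ∀ a b : ℕ, a ≤ b →
        ∫ x, (f (act (A ^ (M * a)) x) - c) * (f (act (A ^ (M * b)) x) - c) ∂μ ≤ e (b - a) := by
      intro a b hab
      have h4 := cov_eq A μ hA hf (M * a) (M * (b - a))
      have h5 : M * a + M * (b - a) = M * b := by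
        rw [← mul_add, Nat.add_sub_cancel' hab]
      rw [h5] at h4
      rw [h4]
      refine (le_abs_self _).trans ((hcov _).trans (hea ?_))
      exact Nat.le_mul_of_pos_left _ hM
    rcases le_total m m' with h | h
    · rw [max_eq_right h, min_eq_left h]
      exact key m m' h
    · rw [max_eq_left h, min_eq_right h]
      have h6 := key m' m h
      refine le_trans (le_of_eq ?_) h6
      exact integral_congr_ae (Filter.Eventually.of_forall fun x => mul_comm _ _)
  have h4 : ∑ m ∈ Finset.range n, ∫ x, ∑ m' ∈ Finset.range n,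
      (f (act (A ^ (M * m)) x) - c) * (f (act (A ^ (M * m')) x) - c) ∂μ ≤
        n * (2 * ∑' k, e k) := by
    refine (Finset.sum_le_sum h3).trans ?_
    rw [Finset.sum_const, Finset.card_range, nsmul_eq_mul]
  calc (n : ℝ)⁻¹ ^ 2 * ∑ m ∈ Finset.range n, ∫ x, ∑ m' ∈ Finset.range n,
      (f (act (A ^ (M * m)) x) - c) * (f (act (A ^ (M * m')) x) - c) ∂μ
      ≤ (n : ℝ)⁻¹ ^ 2 * (n * (2 * ∑' k, e k)) :=
        mul_le_mul_of_nonneg_left h4 (by positivity)
    _ = 2 * (∑' k, e k) / n := by field_simp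

theorem var_bound {d : ℕ} (A : Mat d) (μ : Measure (Tor d)) [IsProbabilityMeasure μ]
    (hA : μ.map (act A) = μ) (γ : ℝ) (hγ : 0 < γ) (hmix : MixRate (act A) μ γ)
    (N : Fin d → ℤ) :
    ∃ C : ℝ, 0 < C ∧ ∀ M n : ℕ, 0 < M → 0 < n →
      ∫ x, ‖bavg A M n N x - ∫ z, ch N z ∂μ‖ ^ 2 ∂μ ≤ C / n := by
  obtain ⟨C, c, hc, H⟩ := hmix
  obtain ⟨K, hK1, hK2⟩ : ∃ K : ℝ≥0, (1 : ℝ) ≤ K ∧ 2 * Real.pi * vs N ≤ K := by
    have h0 : 0 ≤ max 1 (2 * Real.pi * vs N) := zero_le_one.trans (le_max_left _ _)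
    exact ⟨⟨_, h0⟩, le_max_left _ _, le_max_right _ _⟩
  have hint : Integrable (ch N) μ :=
    (continuous_ch N).integrable_of_hasCompactSupport (HasCompactSupport.of_compactSpace _)
  have hcr : Continuous fun x : Tor d => (ch N x).re := Complex.continuous_re.comp (continuous_ch N)
  have hci : Continuous fun x : Tor d => (ch N x).im := Complex.continuous_im.comp (continuous_ch N)
  have hlip : ∀ x y : Tor d, ‖ch N x - ch N y‖ ≤ K * dist x y := fun x y =>
    (norm_ch_sub_le N x y).trans (mul_le_mul_of_nonneg_right hK2 dist_nonneg)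
  have hLr : LipschitzWith K fun x : Tor d => (ch N x).re := by
    refine LipschitzWith.of_dist_le_mul fun x y => ?_
    rw [Real.dist_eq, ← Complex.sub_re]
    exact (Complex.abs_re_le_norm _).trans (hlip x y)
  have hLi : LipschitzWith K fun x : Tor d => (ch N x).im := by
    refine LipschitzWith.of_dist_le_mul fun x y => ?_
    rw [Real.dist_eq, ← Complex.sub_im]
    exact (Complex.abs_im_le_norm _).trans (hlip x y)
  have hbr : ∀ x : Tor d, |(ch N x).re| ≤ K := fun x =>
    (Complex.abs_re_le_norm _).trans ((norm_ch N x).le.trans hK1)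
  have hbi : ∀ x : Tor d, |(ch N x).im| ≤ K := fun x =>
    (Complex.abs_im_le_norm _).trans ((norm_ch N x).le.trans hK1)
  -- the error function
  have hC0 : 0 ≤ C * K * K := by
    have h1 := (abs_nonneg _).trans (H K K _ _ hLr hLr hbr hbr 0)
    have h2 : 0 < Real.exp (-c * ((0 : ℕ) : ℝ) ^ γ) := Real.exp_pos _
    exact nonneg_of_mul_nonneg_left h1 h2
  have he0 : ∀ k : ℕ, 0 ≤ C * K * K * Real.exp (-c * (k : ℝ) ^ γ) := fun k =>
    mul_nonneg hC0 (Real.exp_pos _).le
  have hes : Summable fun k : ℕ => C * K * K * Real.exp (-c * (k : ℝ) ^ γ) :=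
    (summable_stretched c γ hc hγ).mul_left _
  have hea : Antitone fun k : ℕ => C * K * K * Real.exp (-c * (k : ℝ) ^ γ) := fun a b hab =>
    mul_le_mul_of_nonneg_left (anti_stretched c γ hc hγ hab) hC0
  set S : ℝ := ∑' k : ℕ, C * K * K * Real.exp (-c * (k : ℝ) ^ γ)
  have hS0 : 0 ≤ S := tsum_nonneg he0
  refine ⟨4 * S + 1, by linarith, fun M n hM hn => ?_⟩
  have hn0 : (0 : ℝ) < n := by exact_mod_cast hn
  have hr := real_var A μ hA hcr _ he0 hes hea (fun k => H K K _ _ hLr hLr hbr hbr k) M n hM hn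
  have hi := real_var A μ hA hci _ he0 hes hea (fun k => H K K _ _ hLi hLi hbi hbi k) M n hM hn
  have hre : (∫ z, ch N z ∂μ).re = ∫ z, (ch N z).re ∂μ := (integral_re hint).symm
  have him : (∫ z, ch N z ∂μ).im = ∫ z, (ch N z).im ∂μ := (integral_im hint).symm
  have hpt : ∀ x, ‖bavg A M n N x - ∫ z, ch N z ∂μ‖ ^ 2 =
      ((n : ℝ)⁻¹ * ∑ m ∈ Finset.range n, (ch N (act (A ^ (M * m)) x)).re -
        ∫ z, (ch N z).re ∂μ) ^ 2 +
      ((n : ℝ)⁻¹ * ∑ m ∈ Finset.range n, (ch N (act (A ^ (M * m)) x)).im -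
        ∫ z, (ch N z).im ∂μ) ^ 2 := by
    intro x
    have h1 : (n : ℂ)⁻¹ = (((n : ℝ)⁻¹ : ℝ) : ℂ) := by push_cast; rfl
    rw [← Complex.normSq_eq_norm_sq, Complex.normSq_apply, Complex.sub_re, Complex.sub_im, hre,
      him, bavg, h1, Complex.re_ofReal_mul, Complex.im_ofReal_mul, Complex.re_sum, Complex.im_sum]
    ring
  have hcont : ∀ (f : Tor d → ℝ), Continuous f → Continuous fun x : Tor d =>
      ((n : ℝ)⁻¹ * ∑ m ∈ Finset.range n, f (act (A ^ (M * m)) x) - ∫ z, f z ∂μ) ^ 2 := by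
    intro f hf
    exact ((continuous_const.mul (continuous_finsetSum _ fun m _ =>
      hf.comp (continuous_act _))).sub continuous_const).pow 2
  rw [integral_congr_ae (Filter.Eventually.of_forall hpt),
    integral_add (integ μ (hcont _ hcr)) (integ μ (hcont _ hci))]
  have h5 : 2 * S / n + 2 * S / n = 4 * S / n := by ring
  have h6 : 4 * S / n ≤ (4 * S + 1) / n := by
    rw [div_le_div_iff_of_pos_right hn0]; linarith
  linarith

end Pool.Agent.Work.MP_67388f_an.OG
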