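import Pool.Agent.Work.MP_67388f_an.OG.SmC1
import Pool.Agent.Work.MP_67388f_an.OG.Lip

/-! # Module SmC2 (M): two distant blocks are almost independent

PROOF. `c = ∫ ch N`, `F = bavg A M n N`. `ψ (x) = min 1 (max 0 ((2/ε) (‖F x - c‖ - ε/2)))`: values in `[0, 1]`, `ψ = 1`
where `‖F x - c‖ > ε` (`≥ ε`), and `ψ ≤ (4/ε²) ‖F - c‖²` (if `ψ > 0` then `‖F - c‖ > ε/2`), so
`∫ ψ ≤ 4 C₁ / (ε² n)` by `var_bound`. `ψ` is Lipschitz with constant `(2/ε) 2 π vs N L^(M n)` where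
`act (A^(M m))` is `L^(M m)`-Lipschitz, `L ≥ 1` (`exists_growth` for `powHom`-type homomorphism, or directly:
`act A` is `L`-Lipschitz with `L = 1 + ∑ |A i j|` and `act_pow`, `LipschitzWith.iterate`), `norm_ch_sub_le`. Let
`K = 1 + (2/ε) 2 π vs N L^(M n)`. `MixRate`: `∫ ψ(x) ψ(act A^[D] x) dμ ≤ (∫ ψ)² + C K² exp (-c₀ D^γ)`, and the
measure of the set of the statement is at most the left hand side (indicator `≤` product). Finally
`K² ≤ C' (L^(2 M))^n`, so take `Λ = L^(2M)` and `C` large. (`MixRate` has a constant `C` that may be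
negative: replace it by `|C| + 1`.) -/

set_option autoImplicit false

namespace Pool.Agent.Work.MP_67388f_an.OG

open MeasureTheory Filter Topology
open scoped NNReal

private def pwh {d : ℕ} (A : Mat d) : Multiplicative (Fin 1 → ℕ) →* Mat d where
  toFun m := A ^ (Multiplicative.toAdd m 0)
  map_one' := by
    show A ^ 0 = 1
    rw [pow_zero]
  map_mul' m n := by
    show A ^ (Multiplicative.toAdd m 0 + Multiplicative.toAdd n 0) = _
    rw [pow_add]

private theorem growth_pow {d : ℕ} (A : Mat d) :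
    ∃ L : ℝ≥0, 1 ≤ L ∧ ∀ k : ℕ, LipschitzWith (L ^ k) (act (A ^ k)) := by
  obtain ⟨L, hL1, _, hL⟩ := exists_growth (pwh A)
  refine ⟨L, hL1, fun k => ?_⟩
  have h1 := hL (fun _ => k)
  have h2 : ∑ _i : Fin 1, k = k := by simp
  rw [h2] at h1
  exact h1

private theorem continuous_bavg {d : ℕ} (A : Mat d) (M n : ℕ) (N : Fin d → ℤ) :
    Continuous (bavg A M n N) := by
  unfold bavg
  exact continuous_const.mul (continuous_finsetSum _ fun m _ =>
    (continuous_ch N).comp (continuous_act _))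

private theorem norm_bavg_le {d : ℕ} (A : Mat d) (M n : ℕ) (hn : 0 < n) (N : Fin d → ℤ)
    (x : Tor d) : ‖bavg A M n N x‖ ≤ 1 := by
  unfold bavg
  have hn' : (0 : ℝ) < n := by exact_mod_cast hn
  rw [norm_mul, norm_inv, Complex.norm_natCast]
  have h1 : ‖∑ m ∈ Finset.range n, ch N (act (A ^ (M * m)) x)‖ ≤ n := by
    refine (norm_sum_le _ _).trans ?_
    rw [Finset.sum_congr rfl fun m _ => norm_ch N (act (A ^ (M * m)) x)]
    simp
  calc (n : ℝ)⁻¹ * ‖∑ m ∈ Finset.range n, ch N (act (A ^ (M * m)) x)‖ ≤ (n : ℝ)⁻¹ * n :=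
        mul_le_mul_of_nonneg_left h1 (by positivity)
    _ = 1 := inv_mul_cancel₀ hn'.ne'

private theorem bavg_sub_le {d : ℕ} (A : Mat d) (M n : ℕ) (hn : 0 < n) (N : Fin d → ℤ)
    (L : ℝ≥0) (hL1 : 1 ≤ L) (hL : ∀ k : ℕ, LipschitzWith (L ^ k) (act (A ^ k)))
    (x y : Tor d) :
    ‖bavg A M n N x - bavg A M n N y‖ ≤ 2 * Real.pi * vs N * (L : ℝ) ^ (M * n) * dist x y := by
  have hn' : (0 : ℝ) < n := by exact_mod_cast hn
  have hL1' : (1 : ℝ) ≤ L := by exact_mod_cast hL1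
  have hB : 0 ≤ 2 * Real.pi * vs N := mul_nonneg Real.two_pi_pos.le (vs_nonneg N)
  have e1 : bavg A M n N x - bavg A M n N y =
      (n : ℂ)⁻¹ * ∑ m ∈ Finset.range n,
        (ch N (act (A ^ (M * m)) x) - ch N (act (A ^ (M * m)) y)) := by
    unfold bavg
    rw [Finset.sum_sub_distrib, mul_sub]
  rw [e1, norm_mul, norm_inv, Complex.norm_natCast]
  have h1 : ‖∑ m ∈ Finset.range n,
      (ch N (act (A ^ (M * m)) x) - ch N (act (A ^ (M * m)) y))‖ ≤
      ∑ _m ∈ Finset.range n, 2 * Real.pi * vs N * (L : ℝ) ^ (M * n) * dist x y := by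
    refine (norm_sum_le _ _).trans (Finset.sum_le_sum fun m hm => ?_)
    refine (norm_ch_sub_le N _ _).trans ?_
    have h2 : dist (act (A ^ (M * m)) x) (act (A ^ (M * m)) y) ≤
        (L : ℝ) ^ (M * m) * dist x y := by
      have := (hL (M * m)).dist_le_mul x y
      push_cast at this
      exact this
    have h3 : (L : ℝ) ^ (M * m) ≤ (L : ℝ) ^ (M * n) :=
      pow_le_pow_right₀ hL1' (Nat.mul_le_mul_left M (Finset.mem_range.1 hm).le)
    calc 2 * Real.pi * vs N * dist (act (A ^ (M * m)) x) (act (A ^ (M * m)) y) ≤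
        2 * Real.pi * vs N * ((L : ℝ) ^ (M * n) * dist x y) :=
          mul_le_mul_of_nonneg_left
            (h2.trans (mul_le_mul_of_nonneg_right h3 dist_nonneg)) hB
      _ = 2 * Real.pi * vs N * (L : ℝ) ^ (M * n) * dist x y := by ring
  rw [Finset.sum_const, Finset.card_range, nsmul_eq_mul] at h1
  calc (n : ℝ)⁻¹ * ‖∑ m ∈ Finset.range n,
      (ch N (act (A ^ (M * m)) x) - ch N (act (A ^ (M * m)) y))‖ ≤
      (n : ℝ)⁻¹ * (n * (2 * Real.pi * vs N * (L : ℝ) ^ (M * n) * dist x y)) :=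
        mul_le_mul_of_nonneg_left h1 (by positivity)
    _ = 2 * Real.pi * vs N * (L : ℝ) ^ (M * n) * dist x y := by
        rw [← mul_assoc, inv_mul_cancel₀ hn'.ne', one_mul]

theorem two_blocks {d : ℕ} (A : Mat d) (μ : Measure (Tor d)) [IsProbabilityMeasure μ]
    (hA : μ.map (act A) = μ) (γ : ℝ) (hγ : 0 < γ) (hmix : MixRate (act A) μ γ)
    (N : Fin d → ℤ) (M : ℕ) (hM : 0 < M) (ε : ℝ) (hε : 0 < ε) :
    ∃ C c₀ Λ : ℝ, 0 < C ∧ 0 < c₀ ∧ 1 ≤ Λ ∧ ∀ n D : ℕ, 0 < n →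
      μ.real {x | ε < ‖bavg A M n N x - ∫ z, ch N z ∂μ‖ ∧
          ε < ‖bavg A M n N (act (A ^ D) x) - ∫ z, ch N z ∂μ‖} ≤
        (C / n) ^ 2 + C * Λ ^ n * Real.exp (-c₀ * (D : ℝ) ^ γ) := by
  obtain ⟨C₁, hC₁, hvar⟩ := var_bound A μ hA γ hγ hmix N
  obtain ⟨Cm, cm, hcm, hmx⟩ := hmix
  obtain ⟨L, hL1, hL⟩ := growth_pow A
  have hL1' : (1 : ℝ) ≤ L := by exact_mod_cast hL1
  have hB : 0 ≤ 2 * Real.pi * vs N := mul_nonneg Real.two_pi_pos.le (vs_nonneg N)
  set c : ℂ := ∫ z, ch N z ∂μ with hc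
  have hc1 : ‖c‖ ≤ 1 := by
    rw [hc]
    refine (norm_integral_le_integral_norm _).trans ?_
    simp [norm_ch]
  set K₀ : ℝ := (4 / ε ^ 2) * (1 + 2 * Real.pi * vs N) with hK₀
  have hK₀0 : 0 ≤ K₀ := by positivity
  refine ⟨C₁ / ε ^ 2 + (|Cm| + 1) * K₀ ^ 2, cm, (L : ℝ) ^ (2 * M), by positivity, hcm,
    one_le_pow₀ hL1', fun n D hn => ?_⟩
  have hn' : (0 : ℝ) < n := by exact_mod_cast hn
  -- the test function
  set f : Tor d → ℝ := fun x => ‖bavg A M n N x - c‖ ^ 2 / ε ^ 2 with hf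
  have hle2 : ∀ x, ‖bavg A M n N x - c‖ ≤ 2 := fun x =>
    (norm_sub_le _ _).trans (by linarith [norm_bavg_le A M n hn N x])
  have hf0 : ∀ x, 0 ≤ f x := fun x => by positivity
  have hfc : Continuous f :=
    (((continuous_bavg A M n N).sub continuous_const).norm.pow 2).div_const _
  have hf4 : ∀ x, f x ≤ 4 / ε ^ 2 := by
    intro x
    have h1 : ‖bavg A M n N x - c‖ ^ 2 ≤ 4 := by
      have := pow_le_pow_left₀ (norm_nonneg _) (hle2 x) 2
      linarith
    exact div_le_div_of_nonneg_right h1 (by positivity)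
  have hLp : (1 : ℝ) ≤ (L : ℝ) ^ (M * n) := one_le_pow₀ hL1'
  set Kr : ℝ := K₀ * (L : ℝ) ^ (M * n) with hKr
  have hKr0 : 0 ≤ Kr := by positivity
  have h4K : 4 / ε ^ 2 ≤ Kr := by
    have h0 : 0 ≤ 4 / ε ^ 2 := by positivity
    calc 4 / ε ^ 2 = (4 / ε ^ 2) * 1 * 1 := by ring
      _ ≤ (4 / ε ^ 2) * (1 + 2 * Real.pi * vs N) * (L : ℝ) ^ (M * n) := by
        gcongr
        linarith
  have hlip : LipschitzWith (Real.toNNReal Kr) f := by
    refine LipschitzWith.of_dist_le_mul fun x y => ?_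
    rw [Real.coe_toNNReal _ hKr0, Real.dist_eq]
    have h1 : f x - f y = (‖bavg A M n N x - c‖ - ‖bavg A M n N y - c‖) *
        (‖bavg A M n N x - c‖ + ‖bavg A M n N y - c‖) / ε ^ 2 := by
      simp only [hf]
      ring
    rw [h1, abs_div, abs_mul, abs_of_pos (show 0 < ε ^ 2 by positivity),
      abs_of_nonneg (show 0 ≤ ‖bavg A M n N x - c‖ + ‖bavg A M n N y - c‖ by positivity)]
    have h2 : |‖bavg A M n N x - c‖ - ‖bavg A M n N y - c‖| ≤
        2 * Real.pi * vs N * (L : ℝ) ^ (M * n) * dist x y := by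
      refine (abs_norm_sub_norm_le _ _).trans ?_
      have h3 : bavg A M n N x - c - (bavg A M n N y - c) =
          bavg A M n N x - bavg A M n N y := by ring
      rw [h3]
      exact bavg_sub_le A M n hn N L hL1 hL x y
    have h3 : ‖bavg A M n N x - c‖ + ‖bavg A M n N y - c‖ ≤ 4 := by
      linarith [hle2 x, hle2 y]
    have hd : 0 ≤ dist x y := dist_nonneg
    calc |‖bavg A M n N x - c‖ - ‖bavg A M n N y - c‖| *
        (‖bavg A M n N x - c‖ + ‖bavg A M n N y - c‖) / ε ^ 2 ≤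
        (2 * Real.pi * vs N * (L : ℝ) ^ (M * n) * dist x y) * 4 / ε ^ 2 := by
          gcongr
      _ ≤ ((1 + 2 * Real.pi * vs N) * (L : ℝ) ^ (M * n) * dist x y) * 4 / ε ^ 2 := by
          gcongr
          linarith
      _ = Kr * dist x y := by
          rw [hKr, hK₀]
          ring
  have hab : ∀ x, |f x| ≤ (Real.toNNReal Kr : ℝ) := by
    intro x
    rw [Real.coe_toNNReal _ hKr0, abs_of_nonneg (hf0 x)]
    exact (hf4 x).trans h4K
  have hmm := hmx (Real.toNNReal Kr) (Real.toNNReal Kr) f f hlip hlip hab hab D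
  rw [Real.coe_toNNReal _ hKr0] at hmm
  -- the first moment
  have hint : ∫ x, f x ∂μ ≤ (C₁ / ε ^ 2 + (|Cm| + 1) * K₀ ^ 2) / n := by
    have h1 := hvar M n hM hn
    have h2 : ∫ x, f x ∂μ = (∫ x, ‖bavg A M n N x - c‖ ^ 2 ∂μ) / ε ^ 2 := by
      simp only [hf]
      rw [integral_div]
    rw [h2]
    have h3 : (∫ x, ‖bavg A M n N x - c‖ ^ 2 ∂μ) / ε ^ 2 ≤ (C₁ / n) / ε ^ 2 :=
      div_le_div_of_nonneg_right h1 (by positivity)
    refine h3.trans ?_
    rw [div_right_comm]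
    refine div_le_div_of_nonneg_right ?_ hn'.le
    have : 0 ≤ (|Cm| + 1) * K₀ ^ 2 := by positivity
    linarith
  have hint0 : 0 ≤ ∫ x, f x ∂μ := integral_nonneg hf0
  -- Markov
  have hgc : Continuous fun x => f x * f ((act A)^[D] x) :=
    hfc.mul (hfc.comp ((continuous_act A).iterate D))
  have hgi : Integrable (fun x => f x * f ((act A)^[D] x)) μ := by
    refine Integrable.of_bound hgc.measurable.aestronglyMeasurable (4 / ε ^ 2 * (4 / ε ^ 2))
      (ae_of_all _ fun x => ?_)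
    rw [Real.norm_eq_abs, abs_of_nonneg (mul_nonneg (hf0 _) (hf0 _))]
    exact mul_le_mul (hf4 _) (hf4 _) (hf0 _) (by positivity)
  have hmk := mul_meas_ge_le_integral_of_nonneg
    (ae_of_all μ fun x => mul_nonneg (hf0 x) (hf0 ((act A)^[D] x))) hgi 1
  rw [one_mul] at hmk
  have hone : ∀ x, ε < ‖bavg A M n N x - c‖ → 1 ≤ f x := by
    intro x hx
    simp only [hf]
    rw [le_div_iff₀ (by positivity), one_mul]
    exact pow_le_pow_left₀ hε.le hx.le 2
  have hsub : {x | ε < ‖bavg A M n N x - c‖ ∧ ε < ‖bavg A M n N (act (A ^ D) x) - c‖} ⊆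
      {x | 1 ≤ f x * f ((act A)^[D] x)} := by
    rintro x ⟨h1, h2⟩
    rw [act_pow] at h2
    have h3 := hone x h1
    have h4 := hone _ h2
    show 1 ≤ f x * f ((act A)^[D] x)
    nlinarith
  refine (measureReal_mono hsub).trans (hmk.trans ?_)
  have h5 := (abs_le.1 hmm).2
  have h6 : (∫ x, f x ∂μ) * ∫ x, f x ∂μ ≤
      ((C₁ / ε ^ 2 + (|Cm| + 1) * K₀ ^ 2) / n) ^ 2 := by
    rw [← pow_two]
    exact pow_le_pow_left₀ hint0 hint 2
  have h7 : Cm * Kr * Kr * Real.exp (-cm * (D : ℝ) ^ γ) ≤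
      (C₁ / ε ^ 2 + (|Cm| + 1) * K₀ ^ 2) * ((L : ℝ) ^ (2 * M)) ^ n *
        Real.exp (-cm * (D : ℝ) ^ γ) := by
    refine mul_le_mul_of_nonneg_right ?_ (Real.exp_pos _).le
    have h8 : Kr * Kr = K₀ ^ 2 * ((L : ℝ) ^ (2 * M)) ^ n := by
      rw [hKr]
      have : ((L : ℝ) ^ (2 * M)) ^ n = (L : ℝ) ^ (M * n) * (L : ℝ) ^ (M * n) := by
        rw [← pow_mul, ← pow_add]
        congr 1
        ring
      rw [this]
      ring
    rw [mul_assoc, h8, ← mul_assoc]
    refine mul_le_mul_of_nonneg_right ?_ (by positivity)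
    have h9 : Cm * K₀ ^ 2 ≤ (|Cm| + 1) * K₀ ^ 2 :=
      mul_le_mul_of_nonneg_right (by linarith [le_abs_self Cm]) (by positivity)
    have h10 : 0 ≤ C₁ / ε ^ 2 := by positivity
    linarith
  linarith

end Pool.Agent.Work.MP_67388f_an.OG
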